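import Pool.Agent.NH16.BT.Stm

set_option autoImplicit false

/-!
# Project BT (helper16), task BT5: smooth weights on Bohr sets (helper14)
-/

namespace Pool.Agent.NH16.BT.BW

open Finset Filter
open scoped BigOperators

theorem nrm_nonneg (x : ℝ) : 0 ≤ nrm x := abs_nonneg _

theorem nrm_le (x : ℝ) (z : ℤ) : nrm x ≤ |x - z| := round_le x z

theorem nrm_add (x y : ℝ) : nrm (x + y) ≤ nrm x + nrm y := by
  refine (nrm_le (x + y) (round x + round y)).trans ?_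
  unfold nrm
  have e : x + y - ((round x + round y : ℤ) : ℝ) = (x - round x) + (y - round y) := by
    push_cast; ring
  rw [e]
  exact abs_add_le _ _

theorem nrm_neg (x : ℝ) : nrm (-x) ≤ nrm x := by
  refine (nrm_le (-x) (-round x)).trans ?_
  unfold nrm
  have e : -x - ((-round x : ℤ) : ℝ) = -(x - round x) := by
    push_cast; ring
  rw [e, abs_neg]

theorem nrm_lip (x y : ℝ) : |nrm (x + y) - nrm x| ≤ nrm y := by
  rw [abs_le]
  constructor
  · have h := nrm_add (x + y) (-y)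
    have e : x + y + -y = x := by ring
    rw [e] at h
    have := nrm_neg y
    linarith
  · have h := nrm_add x y
    linarith

/-- the factor -/
noncomputable def fc (u : ℝ) : ℝ := max 0 (1 - u)

theorem fc_nonneg (u : ℝ) : 0 ≤ fc u := le_max_left _ _

theorem fc_le_one {u : ℝ} (h : 0 ≤ u) : fc u ≤ 1 := max_le zero_le_one (by linarith)

theorem fc_lip (u v : ℝ) : |fc u - fc v| ≤ |u - v| := by
  unfold fc
  have h := abs_max_sub_max_le_max (0:ℝ) (1 - u) 0 (1 - v)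
  have e : |(1 - u) - (1 - v)| = |u - v| := by
    rw [show (1 - u) - (1 - v) = -(u - v) by ring, abs_neg]
  rw [e, sub_self, abs_zero] at h
  exact h.trans (max_le (abs_nonneg _) le_rfl)

theorem prod_lip {ι : Type} (s : Finset ι) (a b : ι → ℝ) (ha : ∀ i ∈ s, 0 ≤ a i ∧ a i ≤ 1)
    (hb : ∀ i ∈ s, 0 ≤ b i ∧ b i ≤ 1) : |∏ i ∈ s, a i - ∏ i ∈ s, b i| ≤ ∑ i ∈ s, |a i - b i| := by
  classical
  induction s using Finset.induction_on with
  | empty => simp
  | insert i s hi ih =>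
    rw [Finset.prod_insert hi, Finset.prod_insert hi, Finset.sum_insert hi]
    have h1 := ih (fun j hj => ha j (Finset.mem_insert_of_mem hj))
      (fun j hj => hb j (Finset.mem_insert_of_mem hj))
    have e : a i * ∏ x ∈ s, a x - b i * ∏ x ∈ s, b x =
        (a i - b i) * ∏ x ∈ s, a x + b i * (∏ x ∈ s, a x - ∏ x ∈ s, b x) := by ring
    rw [e]
    refine (abs_add_le _ _).trans ?_
    rw [abs_mul, abs_mul]
    have p0 : 0 ≤ ∏ x ∈ s, a x :=
      Finset.prod_nonneg fun j hj => (ha j (Finset.mem_insert_of_mem hj)).1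
    have p1 : ∏ x ∈ s, a x ≤ 1 :=
      Finset.prod_le_one (fun j hj => (ha j (Finset.mem_insert_of_mem hj)).1)
        (fun j hj => (ha j (Finset.mem_insert_of_mem hj)).2)
    have b0 := (hb i (Finset.mem_insert_self i s)).1
    have b1 := (hb i (Finset.mem_insert_self i s)).2
    rw [abs_of_nonneg p0, abs_of_nonneg b0]
    have k1 : |a i - b i| * ∏ x ∈ s, a x ≤ |a i - b i| * 1 :=
      mul_le_mul_of_nonneg_left p1 (abs_nonneg _)
    have k2 : b i * |∏ x ∈ s, a x - ∏ x ∈ s, b x| ≤ 1 * |∏ x ∈ s, a x - ∏ x ∈ s, b x| :=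
      mul_le_mul_of_nonneg_right b1 (abs_nonneg _)
    linarith

variable {n : ℕ}

/-- the unnormalised weight -/
noncomputable def k0 (κ : ℝ) (θ : Fin n → ℝ) (J : ℕ) (v : ℤ) : ℝ :=
  fc (|(v : ℝ)| / J) * ∏ j, fc (nrm ((v : ℝ) * θ j) / κ)

theorem arg_nonneg (κ : ℝ) (hκ : 0 < κ) (x : ℝ) : 0 ≤ nrm x / κ :=
  div_nonneg (nrm_nonneg _) hκ.le

theorem k0_nonneg (κ : ℝ) (θ : Fin n → ℝ) (J : ℕ) (v : ℤ) : 0 ≤ k0 κ θ J v :=
  mul_nonneg (fc_nonneg _) (Finset.prod_nonneg fun _ _ => fc_nonneg _)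

theorem k0_le_one {κ : ℝ} (hκ : 0 < κ) (θ : Fin n → ℝ) (J : ℕ) (v : ℤ) : k0 κ θ J v ≤ 1 := by
  unfold k0
  refine mul_le_one₀ (fc_le_one (by positivity)) (Finset.prod_nonneg fun _ _ => fc_nonneg _) ?_
  exact Finset.prod_le_one (fun _ _ => fc_nonneg _) (fun j _ => fc_le_one (arg_nonneg κ hκ _))

theorem k0_ne {κ : ℝ} (hκ : 0 < κ) (θ : Fin n → ℝ) {J : ℕ} (hJ : 1 ≤ J) {v : ℤ}
    (h : k0 κ θ J v ≠ 0) : |v| ≤ (J : ℤ) ∧ ∀ j, nrm ((v : ℝ) * θ j) ≤ κ := by
  have hJ0 : (0 : ℝ) < J := by exact_mod_cast hJ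
  have hpos : ∀ u : ℝ, fc u ≠ 0 → u ≤ 1 := by
    intro u hu
    by_contra hcon
    push Not at hcon
    exact hu (max_eq_left (by linarith))
  unfold k0 at h
  constructor
  · have h1 := hpos _ (left_ne_zero_of_mul h)
    rw [div_le_one hJ0] at h1
    have h2 : ((|v| : ℤ) : ℝ) ≤ ((J : ℤ) : ℝ) := by push_cast; exact h1
    exact_mod_cast h2
  · intro j
    have h1 := hpos _ (Finset.prod_ne_zero_iff.mp (right_ne_zero_of_mul h) j (Finset.mem_univ j))
    rwa [div_le_one hκ] at h1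

theorem k0_lip {κ : ℝ} (hκ : 0 < κ) (θ : Fin n → ℝ) {J : ℕ} (hJ : 1 ≤ J) (v d : ℤ) :
    |k0 κ θ J (v + d) - k0 κ θ J v| ≤ |(d : ℝ)| / J + (∑ j, nrm ((d : ℝ) * θ j)) / κ := by
  have hJ0 : (0 : ℝ) < J := by exact_mod_cast hJ
  have h1 : |fc (|((v + d : ℤ) : ℝ)| / J) - fc (|(v : ℝ)| / J)| ≤ |(d : ℝ)| / J := by
    refine (fc_lip _ _).trans ?_
    rw [← sub_div, abs_div, abs_of_pos hJ0]
    refine div_le_div_of_nonneg_right ?_ hJ0.le
    refine (abs_abs_sub_abs_le_abs_sub _ _).trans ?_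
    push_cast
    rw [add_sub_cancel_left]
  have h2 : ∀ j, |fc (nrm (((v + d : ℤ) : ℝ) * θ j) / κ) - fc (nrm ((v : ℝ) * θ j) / κ)| ≤
      nrm ((d : ℝ) * θ j) / κ := by
    intro j
    refine (fc_lip _ _).trans ?_
    rw [← sub_div, abs_div, abs_of_pos hκ]
    refine div_le_div_of_nonneg_right ?_ hκ.le
    have := nrm_lip ((v : ℝ) * θ j) ((d : ℝ) * θ j)
    have e : ((v + d : ℤ) : ℝ) * θ j = (v : ℝ) * θ j + (d : ℝ) * θ j := by push_cast; ring
    rw [e]; exact this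
  have h3 := prod_lip (Finset.univ : Finset (Fin n))
    (fun j => fc (nrm (((v + d : ℤ) : ℝ) * θ j) / κ)) (fun j => fc (nrm ((v : ℝ) * θ j) / κ))
    (fun j _ => ⟨fc_nonneg _, fc_le_one (arg_nonneg κ hκ _)⟩)
    (fun j _ => ⟨fc_nonneg _, fc_le_one (arg_nonneg κ hκ _)⟩)
  have h4 : ∑ j, |fc (nrm (((v + d : ℤ) : ℝ) * θ j) / κ) - fc (nrm ((v : ℝ) * θ j) / κ)| ≤
      (∑ j, nrm ((d : ℝ) * θ j)) / κ := by
    rw [Finset.sum_div]
    exact Finset.sum_le_sum fun j _ => h2 j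
  unfold k0
  set A := fc (|((v + d : ℤ) : ℝ)| / J) with hA
  set B := fc (|(v : ℝ)| / J) with hB
  set P := ∏ j, fc (nrm (((v + d : ℤ) : ℝ) * θ j) / κ) with hP
  set Q := ∏ j, fc (nrm ((v : ℝ) * θ j) / κ) with hQ
  have e : A * P - B * Q = (A - B) * P + B * (P - Q) := by ring
  rw [e]
  refine (abs_add_le _ _).trans ?_
  rw [abs_mul, abs_mul]
  have P0 : 0 ≤ P := Finset.prod_nonneg fun _ _ => fc_nonneg _
  have P1 : P ≤ 1 := Finset.prod_le_one (fun _ _ => fc_nonneg _)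
    (fun j _ => fc_le_one (arg_nonneg κ hκ _))
  have B0 : 0 ≤ B := fc_nonneg _
  have B1 : B ≤ 1 := fc_le_one (by positivity)
  rw [abs_of_nonneg P0, abs_of_nonneg B0]
  have k1 : |A - B| * P ≤ |A - B| * 1 := mul_le_mul_of_nonneg_left P1 (abs_nonneg _)
  have k2 : B * |P - Q| ≤ 1 * |P - Q| := mul_le_mul_of_nonneg_right B1 (abs_nonneg _)
  linarith

/-- lower bound of the sum by pigeonhole -/
theorem sum_ge {κ : ℝ} (hκ : 0 < κ) (q : ℕ) (hq1 : 1 ≤ q) (hq : 2 / κ ≤ q) (θ : Fin n → ℝ) {J : ℕ}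
    (hJ : 1 ≤ J) : (1 / 2 : ℝ)^(n+1) / (4 * (q : ℝ)^n) * (2 * J + 1) ≤
      ∑ v ∈ range (2 * J + 1), k0 κ θ J ((v : ℤ) - J) := by
  classical
  have hJ0 : (0 : ℝ) < J := by exact_mod_cast hJ
  have hq0 : (0 : ℝ) < q := by exact_mod_cast hq1
  -- the colouring
  set M := J / 2 with hM
  let col : ℕ → (Fin n → Fin q) := fun v j =>
    ⟨(⌊(q : ℝ) * Int.fract ((v : ℝ) * θ j)⌋).toNat, by
      have h1 : (q : ℝ) * Int.fract ((v : ℝ) * θ j) < q := by
        have := Int.fract_lt_one ((v : ℝ) * θ j)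
        nlinarith
      have h0 : 0 ≤ (q : ℝ) * Int.fract ((v : ℝ) * θ j) :=
        mul_nonneg hq0.le (Int.fract_nonneg _)
      have h2 : ⌊(q : ℝ) * Int.fract ((v : ℝ) * θ j)⌋ < (q : ℤ) := by
        rw [Int.floor_lt]; exact_mod_cast h1
      have h3 : 0 ≤ ⌊(q : ℝ) * Int.fract ((v : ℝ) * θ j)⌋ := Int.floor_nonneg.mpr h0
      omega⟩
  have hcol : ∀ v w : ℕ, col v = col w → ∀ j,
      nrm ((((v : ℤ) - w : ℤ) : ℝ) * θ j) ≤ κ / 2 := by
    intro v w h j
    have h1 := congrArg Fin.val (congrFun h j)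
    simp only [col] at h1
    have pv : 0 ≤ ⌊(q : ℝ) * Int.fract ((v : ℝ) * θ j)⌋ :=
      Int.floor_nonneg.mpr (mul_nonneg hq0.le (Int.fract_nonneg _))
    have pw : 0 ≤ ⌊(q : ℝ) * Int.fract ((w : ℝ) * θ j)⌋ :=
      Int.floor_nonneg.mpr (mul_nonneg hq0.le (Int.fract_nonneg _))
    have h2 : ⌊(q : ℝ) * Int.fract ((v : ℝ) * θ j)⌋ = ⌊(q : ℝ) * Int.fract ((w : ℝ) * θ j)⌋ := by
      omega
    have h3 := Int.abs_sub_lt_one_of_floor_eq_floor h2
    rw [← mul_sub, abs_mul, abs_of_pos hq0] at h3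
    have h4 : nrm ((((v : ℤ) - w : ℤ) : ℝ) * θ j) ≤
        |Int.fract ((v : ℝ) * θ j) - Int.fract ((w : ℝ) * θ j)| := by
      refine (nrm_le _ (⌊(v : ℝ) * θ j⌋ - ⌊(w : ℝ) * θ j⌋)).trans (le_of_eq ?_)
      congr 1
      unfold Int.fract
      push_cast
      ring
    have h5 : 2 ≤ κ * q := by
      rw [div_le_iff₀ hκ] at hq
      linarith
    refine h4.trans ?_
    by_contra hcon
    push Not at hcon
    have : q * (κ / 2) < q * |Int.fract ((v : ℝ) * θ j) - Int.fract ((w : ℝ) * θ j)| :=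
      mul_lt_mul_of_pos_left hcon hq0
    nlinarith
  -- pigeonhole
  obtain ⟨c, -, hc⟩ := Finset.exists_le_card_fiber_of_nsmul_le_card_of_maps_to
    (s := range (M + 1)) (t := (Finset.univ : Finset (Fin n → Fin q))) (f := col)
    (b := ((M : ℝ) + 1) / (q : ℝ)^n) (fun _ _ => Finset.mem_univ _)
    ⟨col 0, Finset.mem_univ _⟩ (by
      rw [nsmul_eq_mul, Finset.card_univ, Fintype.card_fun, Fintype.card_fin, Fintype.card_fin,
        Finset.card_range]
      push_cast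
      rw [mul_div_cancel₀]
      exact pow_ne_zero _ hq0.ne')
  set P := (range (M + 1)).filter (fun v => col v = c) with hP
  have hPpos : 0 < P.card := by
    have : (0 : ℝ) < P.card := lt_of_lt_of_le (by positivity) hc
    exact_mod_cast this
  obtain ⟨v0, hv0⟩ := Finset.card_pos.mp hPpos
  have hv0' := Finset.mem_filter.mp hv0
  -- the injection
  let g : ℕ → ℕ := fun v => v + J - v0
  have hv0J : v0 ≤ J := by
    have := Finset.mem_range.mp hv0'.1
    omega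
  have hginj : Set.InjOn g P := by
    intro a _ b _ hab
    simp only [g] at hab
    omega
  have hgmem : P.image g ⊆ range (2 * J + 1) := by
    intro v hv
    rw [Finset.mem_image] at hv
    obtain ⟨a, ha, rfl⟩ := hv
    have := Finset.mem_range.mp (Finset.mem_filter.mp ha).1
    rw [Finset.mem_range]
    simp only [g]
    omega
  have hlow : ∀ v ∈ P, (1 / 2 : ℝ)^(n+1) ≤ k0 κ θ J ((g v : ℤ) - J) := by
    intro v hv
    have hv' := Finset.mem_filter.mp hv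
    have hvM := Finset.mem_range.mp hv'.1
    have hv0M := Finset.mem_range.mp hv0'.1
    have e : ((g v : ℕ) : ℤ) - J = (v : ℤ) - v0 := by
      simp only [g]
      omega
    rw [e]
    have hc2 := hcol v v0 (hv'.2.trans hv0'.2.symm)
    unfold k0
    have hhalf : ∀ u : ℝ, u ≤ 1 / 2 → 1 / 2 ≤ fc u := by
      intro u hu
      exact le_max_of_le_right (by linarith)
    rw [pow_succ']
    refine mul_le_mul (hhalf _ ?_) ?_ (by positivity) (fc_nonneg _)
    · rw [div_le_iff₀ hJ0]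
      have h1 : |((v : ℤ) - v0 : ℤ)| ≤ (M : ℤ) := by
        rw [abs_le]; constructor <;> omega
      have h2 : ((|((v : ℤ) - v0 : ℤ)| : ℤ) : ℝ) ≤ ((M : ℤ) : ℝ) := by exact_mod_cast h1
      rw [Int.cast_abs] at h2
      have h3 : ((M : ℤ) : ℝ) ≤ (J : ℝ) / 2 := by
        have : 2 * M ≤ J := by omega
        have : (2 : ℝ) * M ≤ J := by exact_mod_cast this
        rw [Int.cast_natCast]
        linarith
      linarith
    · have : (1 / 2 : ℝ)^n = ∏ _j : Fin n, (1 / 2 : ℝ) := by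
        rw [Finset.prod_const, Finset.card_univ, Fintype.card_fin]
      rw [this]
      refine Finset.prod_le_prod (fun _ _ => by norm_num) (fun j _ => hhalf _ ?_)
      rw [div_le_iff₀ hκ]
      have := hc2 j
      linarith
  have hsum : ∑ v ∈ P, k0 κ θ J ((g v : ℤ) - J) ≤
      ∑ v ∈ range (2 * J + 1), k0 κ θ J ((v : ℤ) - J) := by
    rw [← Finset.sum_image (f := fun v : ℕ => k0 κ θ J ((v : ℤ) - J)) hginj]
    exact Finset.sum_le_sum_of_subset_of_nonneg hgmem fun _ _ _ => k0_nonneg _ _ _ _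
  have hsum2 : (P.card : ℝ) * (1 / 2 : ℝ)^(n+1) ≤ ∑ v ∈ P, k0 κ θ J ((g v : ℤ) - J) := by
    have := Finset.card_nsmul_le_sum P _ _ hlow
    rwa [nsmul_eq_mul] at this
  refine le_trans ?_ (hsum2.trans hsum)
  have hMJ : ((J : ℝ) + 1) / 2 ≤ (M : ℝ) + 1 := by
    have : J + 1 ≤ 2 * (M + 1) := by omega
    have : (J : ℝ) + 1 ≤ 2 * ((M : ℝ) + 1) := by exact_mod_cast this
    linarith
  have hqn : (0 : ℝ) < (q : ℝ)^n := pow_pos hq0 n
  have h1 : (1 / 2 : ℝ)^(n+1) / (4 * (q : ℝ)^n) * (2 * J + 1) ≤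
      (((M : ℝ) + 1) / (q : ℝ)^n) * (1 / 2 : ℝ)^(n+1) := by
    have hp : (0 : ℝ) < (1 / 2 : ℝ)^(n+1) := by positivity
    rw [div_mul_eq_mul_div, div_mul_eq_mul_div, div_le_div_iff₀ (by positivity) hqn]
    have : (2 * (J : ℝ) + 1) ≤ 4 * ((M : ℝ) + 1) := by linarith
    have h2 : (1 / 2 : ℝ)^(n+1) * (2 * J + 1) * (q : ℝ)^n ≤
        (1 / 2 : ℝ)^(n+1) * (4 * ((M : ℝ) + 1)) * (q : ℝ)^n := by gcongr
    linarith
  refine h1.trans ?_
  exact mul_le_mul_of_nonneg_right hc (by positivity)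

theorem main : S_BW := by
  intro n κ hκ
  set q : ℕ := ⌈2 / κ⌉₊ + 1 with hq
  have hq1 : 1 ≤ q := by omega
  have hq2 : 2 / κ ≤ q := by
    rw [hq]; push_cast
    have := Nat.le_ceil (2 / κ)
    linarith
  have hq0 : (0 : ℝ) < q := by exact_mod_cast hq1
  refine ⟨(1 / 2 : ℝ)^(n+1) / (4 * (q : ℝ)^n), by positivity, ?_⟩
  intro θ J hJ
  have hJ0 : (0 : ℝ) < J := by exact_mod_cast hJ
  set β := (1 / 2 : ℝ)^(n+1) / (4 * (q : ℝ)^n) with hβ
  have hβ0 : 0 < β := by rw [hβ]; positivity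
  set S := ∑ v ∈ range (2 * J + 1), k0 κ θ J ((v : ℤ) - J) with hS
  have hSge : β * (2 * J + 1) ≤ S := sum_ge hκ q hq1 hq2 θ hJ
  have hb : 0 < β * (2 * J + 1) := by positivity
  have hS0 : 0 < S := lt_of_lt_of_le hb hSge
  have hinv : 1 / S ≤ 1 / (β * (2 * J + 1)) := one_div_le_one_div_of_le hb hSge
  refine ⟨fun v => k0 κ θ J v / S, ?_, ?_, ?_, ?_, ?_⟩
  · intro v
    exact div_nonneg (k0_nonneg _ _ _ _) hS0.le
  · intro v hv
    refine k0_ne hκ θ hJ ?_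
    intro h0
    exact hv (by simp only [h0, zero_div])
  · simp only
    rw [← Finset.sum_div, ← hS, div_self hS0.ne']
  · intro v
    refine le_trans ?_ hinv
    exact div_le_div_of_nonneg_right (k0_le_one hκ _ _ _) hS0.le
  · intro v d
    simp only
    rw [← sub_div, abs_div, abs_of_pos hS0, div_eq_mul_one_div, mul_comm]
    refine mul_le_mul hinv (k0_lip hκ θ hJ v d) (abs_nonneg _) (by positivity)

end Pool.Agent.NH16.BT.BW
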