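import Pool.Agent.NH16.BT.Stm

set_option autoImplicit false

/-!
# Project BT, BT8: choice of the Bohr set and combination (helper93)
-/

namespace Pool.Agent.NH16.BT.CI

open Finset Filter
open scoped BigOperators

open Pool.Agent.Helper602.MK (ee)

theorem nrm_nonneg (x : ℝ) : 0 ≤ nrm x := abs_nonneg _

theorem nrm_le (x : ℝ) (m : ℤ) : nrm x ≤ |x - m| := round_le x m

theorem nrm_add (x y : ℝ) : nrm (x + y) ≤ nrm x + nrm y := by
  have h := nrm_le (x + y) (round x + round y)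
  refine h.trans ?_
  unfold nrm
  have : (x + y - ((round x + round y : ℤ) : ℝ)) = (x - round x) + (y - round y) := by
    push_cast; ring
  rw [this]
  exact abs_add_le _ _

theorem nrm_int_mul (v : ℤ) (x : ℝ) : nrm (v * x) ≤ |(v : ℝ)| * nrm x := by
  have h := nrm_le (v * x) (v * round x)
  refine h.trans ?_
  unfold nrm
  rw [← abs_mul]
  apply le_of_eq
  congr 1
  push_cast
  ring

theorem norm_ee (x : ℝ) : ‖ee x‖ = 1 := by
  unfold ee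
  have : (2 * Real.pi * x * Complex.I : ℂ) = ((2 * Real.pi * x : ℝ) : ℂ) * Complex.I := by
    push_cast; ring
  rw [this, Complex.norm_exp_ofReal_mul_I]

theorem ee_add (x y : ℝ) : ee (x + y) = ee x * ee y := by
  unfold ee
  rw [← Complex.exp_add]
  congr 1
  push_cast
  ring

theorem ee_int (n : ℤ) : ee (n : ℝ) = 1 := by
  unfold ee
  rw [Complex.exp_eq_one_iff]
  exact ⟨n, by push_cast; ring⟩

theorem norm_ee_sub_one (t : ℝ) : ‖ee t - 1‖ ≤ 2 * Real.pi * |t| := by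
  unfold ee
  have h : (2 * Real.pi * t * Complex.I : ℂ) = Complex.I * ((2 * Real.pi * t : ℝ) : ℂ) := by
    push_cast; ring
  rw [h]
  refine (Real.norm_exp_I_mul_ofReal_sub_one_le).trans ?_
  rw [Real.norm_eq_abs, abs_mul, abs_of_pos (by positivity : (0 : ℝ) < 2 * Real.pi)]

theorem norm_ee_sub_one' (t : ℝ) : ‖ee t - 1‖ ≤ 2 * Real.pi * nrm t := by
  have h : ee t = ee (t - round t) := by
    have h1 : t = (t - round t) + round t := by ring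
    conv_lhs => rw [h1]
    rw [ee_add, ee_int, mul_one]
  rw [h]
  exact norm_ee_sub_one _

theorem norm_ee_sub (x y : ℝ) : ‖ee x - ee y‖ ≤ 2 * Real.pi * nrm (y - x) := by
  have h : ee x - ee y = - (ee x * (ee (y - x) - 1)) := by
    have : ee y = ee x * ee (y - x) := by rw [← ee_add]; congr 1; ring
    rw [this]; ring
  rw [h, norm_neg, norm_mul, norm_ee, one_mul]
  exact norm_ee_sub_one' _

/-- weights: the average of `ee` with weights supported near a Bohr set -/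
theorem kernel (J : ℕ) (k : ℤ → ℝ) (x c : ℝ) (h0 : ∀ v, 0 ≤ k v)
    (h1 : ∑ v ∈ range (2 * J + 1), k ((v : ℤ) - J) = 1)
    (hc : ∀ v : ℤ, k v ≠ 0 → nrm (v * x) ≤ c) :
    ‖ee ((J : ℝ) * x) - ∑ v ∈ range (2 * J + 1), ((k ((v : ℤ) - J) : ℝ) : ℂ) * ee ((v : ℝ) * x)‖ ≤
      2 * Real.pi * c := by
  have h2 : ee ((J : ℝ) * x) = ∑ v ∈ range (2 * J + 1), ((k ((v : ℤ) - J) : ℝ) : ℂ) * ee ((J : ℝ) * x) := by
    rw [← Finset.sum_mul, ← Complex.ofReal_sum, h1]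
    simp
  rw [h2, ← Finset.sum_sub_distrib]
  calc ‖∑ v ∈ range (2 * J + 1), (((k ((v : ℤ) - J) : ℝ) : ℂ) * ee ((J : ℝ) * x) -
        ((k ((v : ℤ) - J) : ℝ) : ℂ) * ee ((v : ℝ) * x))‖
      ≤ ∑ v ∈ range (2 * J + 1), ‖((k ((v : ℤ) - J) : ℝ) : ℂ) * ee ((J : ℝ) * x) -
        ((k ((v : ℤ) - J) : ℝ) : ℂ) * ee ((v : ℝ) * x)‖ := norm_sum_le _ _
    _ ≤ ∑ v ∈ range (2 * J + 1), k ((v : ℤ) - J) * (2 * Real.pi * c) := by
        apply Finset.sum_le_sum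
        intro v _
        rw [← mul_sub, norm_mul, Complex.norm_real, Real.norm_eq_abs, abs_of_nonneg (h0 _)]
        by_cases hk : k ((v : ℤ) - J) = 0
        · rw [hk]; simp
        · apply mul_le_mul_of_nonneg_left _ (h0 _)
          refine (norm_ee_sub _ _).trans ?_
          have h3 := hc _ hk
          have h4 : ((v : ℝ) * x - J * x) = (((v : ℤ) - J : ℤ) : ℝ) * x := by push_cast; ring
          rw [h4]
          exact mul_le_mul_of_nonneg_left h3 (by positivity)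
    _ = 2 * Real.pi * c := by rw [← Finset.sum_mul, h1, one_mul]

theorem kernel2 (J : ℕ) (k : ℤ → ℝ) (x : ℝ) (h0 : ∀ v, 0 ≤ k v)
    (h1 : ∑ v ∈ range (2 * J + 1), k ((v : ℤ) - J) = 1) :
    ‖ee ((J : ℝ) * x) - ∑ v ∈ range (2 * J + 1), ((k ((v : ℤ) - J) : ℝ) : ℂ) * ee ((v : ℝ) * x)‖ ≤ 2 := by
  have h2 : ‖∑ v ∈ range (2 * J + 1), ((k ((v : ℤ) - J) : ℝ) : ℂ) * ee ((v : ℝ) * x)‖ ≤ 1 := by
    refine (norm_sum_le _ _).trans ?_
    rw [← h1]
    apply Finset.sum_le_sum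
    intro v _
    rw [norm_mul, norm_ee, mul_one, Complex.norm_real, Real.norm_eq_abs, abs_of_nonneg (h0 _)]
  calc _ ≤ ‖ee ((J : ℝ) * x)‖ + _ := norm_sub_le _ _
    _ ≤ 1 + 1 := add_le_add (norm_ee _).le h2
    _ = 2 := by norm_num

theorem norm_B {L : ℕ} (hL : 1 ≤ L) (b : Fin L → ℝ) (hb : ∀ s, |b s| ≤ 1) (x : ℝ) :
    ‖𝔼 s : Fin L, (b s : ℂ) * ee ((s.val : ℝ) * x)‖ ≤ 1 := by
  rw [Finset.expect_eq_sum_div_card, norm_div]
  have hc : (univ : Finset (Fin L)).card = L := by simp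
  rw [hc]
  have hL' : (0 : ℝ) < L := by exact_mod_cast hL
  have : ‖((L : ℕ) : ℂ)‖ = (L : ℝ) := by simp
  rw [this, div_le_one hL']
  calc _ ≤ ∑ s : Fin L, ‖(b s : ℂ) * ee ((s.val : ℝ) * x)‖ := norm_sum_le _ _
    _ ≤ ∑ s : Fin L, (1 : ℝ) := by
        apply Finset.sum_le_sum
        intro s _
        rw [norm_mul, norm_ee, mul_one, Complex.norm_real, Real.norm_eq_abs]
        exact hb s
    _ = L := by simp

/-- enumeration of a small set -/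
theorem enum {Ξ : Type} (S : Finset Ξ) (x : Ξ → ℝ) (n : ℕ) (hn : S.card ≤ n) :
    ∃ θ : Fin n → ℝ, ∀ ξ ∈ S, ∃ j, θ j = x ξ := by
  classical
  obtain ⟨e⟩ : Nonempty (S ≃ Fin S.card) := ⟨S.equivFin⟩
  refine ⟨fun j => if h : j.val < S.card then x (e.symm ⟨j.val, h⟩) else 0, ?_⟩
  intro ξ hξ
  refine ⟨⟨(e ⟨ξ, hξ⟩).val, lt_of_lt_of_le (e ⟨ξ, hξ⟩).isLt hn⟩, ?_⟩
  have h : (e ⟨ξ, hξ⟩).val < S.card := (e ⟨ξ, hξ⟩).isLt
  simp only [h, dif_pos]
  simp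

theorem sum_ext {κt : Type} (Q L : ℕ) [NeZero Q] (hLQ : L ≤ Q) (f : ℕ → κt → ℝ) (t : κt) :
    ∑ n : ZMod Q, SM.ext Q L f t n ^ 2 = ∑ s ∈ range L, f s t ^ 2 := by
  classical
  symm
  have h1 : ∑ n : ZMod Q, SM.ext Q L f t n ^ 2 =
      ∑ n ∈ (univ : Finset (ZMod Q)).filter (fun n => n.val < L), f n.val t ^ 2 := by
    rw [Finset.sum_filter]
    apply Finset.sum_congr rfl
    intro n _
    unfold SM.ext
    split_ifs <;> simp
  rw [h1]
  apply Finset.sum_bij (fun (s : ℕ) _ => (s : ZMod Q))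
  · intro s hs
    rw [Finset.mem_range] at hs
    rw [Finset.mem_filter]
    refine ⟨Finset.mem_univ _, ?_⟩
    rw [ZMod.val_natCast_of_lt (lt_of_lt_of_le hs hLQ)]
    exact hs
  · intro a ha b hb hab
    rw [Finset.mem_range] at ha hb
    have := congrArg ZMod.val hab
    rwa [ZMod.val_natCast_of_lt (lt_of_lt_of_le ha hLQ), ZMod.val_natCast_of_lt (lt_of_lt_of_le hb hLQ)] at this
  · intro n hn
    rw [Finset.mem_filter] at hn
    exact ⟨n.val, Finset.mem_range.2 hn.2, by simp⟩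
  · intro s hs
    rw [Finset.mem_range] at hs
    rw [ZMod.val_natCast_of_lt (lt_of_lt_of_le hs hLQ)]

theorem expect_sum {κt ι : Type} [Fintype κt] (s : Finset ι) (F : κt → ι → ℝ) :
    𝔼 t, ∑ i ∈ s, F t i = ∑ i ∈ s, 𝔼 t, F t i := Finset.expect_sum_comm _ _ _

theorem sp_nonneg {Q : ℕ} [NeZero Q] (φ : ZMod Q → ℝ) (ξ : ZMod Q) : 0 ≤ sp φ ξ := by
  unfold sp; positivity

/-- the quadratic form in terms of the spectral mass -/
theorem spectral {κt : Type} [Fintype κt] (h3 : S_PV) (Q : ℕ) [NeZero Q] (L L' J : ℕ)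
    (b : Fin L' → ℝ) (k : ℕ → ℝ) (F : κt → ZMod Q → ℝ) :
    (1 / (L : ℝ)) * ∑ n : ZMod Q, 𝔼 t, Df (J := J) b k (F t) n ^ 2 =
      ∑ ξ : ZMod Q, ((1 / (L : ℝ)) * 𝔼 t, sp (F t) ξ) * (‖𝔼 s : Fin L', (b s : ℂ) * ee ((s.val : ℝ) * xx ξ)‖ ^ 2 *
      ‖ee ((J : ℝ) * xx ξ) - ∑ v ∈ range (2 * J + 1), (k v : ℂ) * ee ((v : ℝ) * xx ξ)‖ ^ 2) := by
  rw [← expect_sum]
  have h : ∀ t, ∑ n : ZMod Q, Df (J := J) b k (F t) n ^ 2 =
    ∑ ξ : ZMod Q, sp (F t) ξ * (‖𝔼 s : Fin L', (b s : ℂ) * ee ((s.val : ℝ) * xx ξ)‖ ^ 2 *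
      ‖ee ((J : ℝ) * xx ξ) - ∑ v ∈ range (2 * J + 1), (k v : ℂ) * ee ((v : ℝ) * xx ξ)‖ ^ 2) :=
    fun t => (h3 Q (F t) L' J b k).1
  simp_rw [h]
  rw [expect_sum, Finset.mul_sum]
  apply Finset.sum_congr rfl
  intro ξ _
  rw [← Finset.expect_mul]
  ring

theorem main (h1 : S_HA) (h2 : S_BW) (h3 : S_PV) (h4 : S_TW) : S_CI := by
  intro A ε hA hε
  classical
  -- parameters
  set τ : ℝ := (ε / 8) ^ 2 / (6 * A) with hτ
  have hτ0 : 0 < τ := by positivity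
  have hsq : Real.sqrt (6 * τ * A) = ε / 8 := by
    have : 6 * τ * A = (ε / 8) ^ 2 := by
      rw [hτ]; field_simp
    rw [this, Real.sqrt_sq (by positivity)]
  obtain ⟨n, hn⟩ := exists_nat_ge (A / τ)
  set c : ℝ := Real.sqrt (ε / (2 * A)) / (4 * Real.pi) with hc
  have hpi := Real.pi_pos
  have hc0 : 0 < c := by
    rw [hc]; positivity
  have hcA : (2 * Real.pi * (c + c)) ^ 2 * A = ε / 2 := by
    have h5 : 2 * Real.pi * (c + c) = Real.sqrt (ε / (2 * A)) := by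
      rw [hc]; field_simp; ring
    rw [h5, Real.sq_sqrt (by positivity)]
    field_simp
  obtain ⟨g, hg⟩ := exists_nat_gt (1 / c)
  have hg0 : (0 : ℝ) < g := lt_trans (by positivity) hg
  have hg1 : 1 / (g : ℝ) ≤ c := by
    rw [div_le_iff₀ hg0]
    rw [div_lt_iff₀ hc0] at hg
    linarith [mul_comm c (g : ℝ)]
  obtain ⟨β, hβ, hBW⟩ := h2 n c hc0
  refine ⟨g, n, β, c, by exact_mod_cast hg0, hβ, hc0, ?_⟩
  intro κt _ _ L L' J f f' hL hL' hJ hgJ hf'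
  set Q : ℕ := L + L' with hQ
  have : NeZero Q := ⟨by omega⟩
  have hLr : (0 : ℝ) < L := by exact_mod_cast hL
  set E : ZMod Q → ℝ := fun ξ => (1 / (L : ℝ)) * 𝔼 t, sp (SM.ext Q L f' t) ξ with hE
  have hE0 : ∀ ξ, 0 ≤ E ξ := by
    intro ξ
    rw [hE]
    apply mul_nonneg (by positivity)
    apply Finset.expect_nonneg
    intro t _
    exact sp_nonneg _ _
  have hEA : ∑ ξ, E ξ ≤ A := by
    refine le_trans (le_of_eq ?_) hf'
    rw [hE]
    simp only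
    rw [← Finset.mul_sum, ← expect_sum]
    congr 1
    have h5 : ∀ t, ∑ ξ : ZMod Q, sp (SM.ext Q L f' t) ξ = ∑ s ∈ range L, f' s t ^ 2 := by
      intro t
      rw [(h3 Q (SM.ext Q L f' t) L' J (fun _ => 0) (fun _ => 0)).2]
      exact sum_ext Q L (by omega) f' t
    simp_rw [h5]
    rw [expect_sum]
  obtain ⟨S, hS, hHA⟩ := h1 (ZMod Q) xx E A τ L' hL' hτ0 hA.le hE0 hEA
  have hSn : S.card ≤ n := by
    have : (S.card : ℝ) ≤ n := hS.trans hn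
    exact_mod_cast this
  obtain ⟨θ, hθ⟩ := enum S (fun ξ => xx ξ) n hSn
  obtain ⟨k, hk0, hkv, hk1, hkb, hkl⟩ := hBW θ J hJ
  refine ⟨θ, k, hk0, fun v hv => (hkv v hv).1, hk1, hkb, hkl, ?_⟩
  intro b hb
  refine (h4 κt Q L L' J b (fun v => k ((v : ℤ) - J)) f f' hL hL' (by omega) (by omega) hb
    (fun v => hk0 _) hk1).trans ?_
  refine add_le_add ?_ le_rfl
  rw [spectral h3]
  -- split
  set Bs : ZMod Q → ℝ := fun ξ => ‖𝔼 s : Fin L', (b s : ℂ) * ee ((s.val : ℝ) * xx ξ)‖ ^ 2 with hBs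
  set Ks : ZMod Q → ℝ := fun ξ => ‖ee ((J : ℝ) * xx ξ) -
    ∑ v ∈ range (2 * J + 1), ((k ((v : ℤ) - J) : ℝ) : ℂ) * ee ((v : ℝ) * xx ξ)‖ ^ 2 with hKs
  change ∑ ξ, E ξ * (Bs ξ * Ks ξ) ≤ ε
  set B : Finset (ZMod Q) := univ.filter (fun ξ => ∀ j ∈ S, 1 / (L' : ℝ) ≤ nrm (xx ξ - xx j)) with hB
  have hBs0 : ∀ ξ, 0 ≤ Bs ξ := fun ξ => by rw [hBs]; positivity
  have hKs0 : ∀ ξ, 0 ≤ Ks ξ := fun ξ => by rw [hKs]; positivity
  have hBs1 : ∀ ξ, Bs ξ ≤ 1 := by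
    intro ξ
    rw [hBs]
    exact pow_le_one₀ (norm_nonneg _) (norm_B hL' b hb _)
  have hKs4 : ∀ ξ, Ks ξ ≤ 4 := by
    intro ξ
    rw [hKs]
    have h6 := kernel2 J k (xx ξ) hk0 hk1
    have : (4 : ℝ) = 2 ^ 2 := by norm_num
    rw [this]
    exact pow_le_pow_left₀ (norm_nonneg _) h6 2
  rw [← Finset.sum_add_sum_compl B]
  have hfirst : ∑ ξ ∈ B, E ξ * (Bs ξ * Ks ξ) ≤ ε / 2 := by
    have h7 : ∑ ξ ∈ B, E ξ * (Bs ξ * Ks ξ) ≤ 4 * ∑ ξ ∈ B, E ξ * Bs ξ := by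
      rw [Finset.mul_sum]
      apply Finset.sum_le_sum
      intro ξ _
      have h8 := mul_le_mul_of_nonneg_left (hKs4 ξ) (mul_nonneg (hE0 ξ) (hBs0 ξ))
      calc E ξ * (Bs ξ * Ks ξ) = E ξ * Bs ξ * Ks ξ := by ring
        _ ≤ E ξ * Bs ξ * 4 := h8
        _ = 4 * (E ξ * Bs ξ) := by ring
    have h9 := hHA b hb B (fun ξ hξ => (Finset.mem_filter.1 hξ).2)
    rw [hsq] at h9
    calc _ ≤ 4 * ∑ ξ ∈ B, E ξ * Bs ξ := h7
      _ ≤ 4 * (ε / 8) := mul_le_mul_of_nonneg_left h9 (by norm_num)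
      _ = ε / 2 := by ring
  have hsecond : ∑ ξ ∈ Bᶜ, E ξ * (Bs ξ * Ks ξ) ≤ ε / 2 := by
    have h7 : ∀ ξ ∈ Bᶜ, E ξ * (Bs ξ * Ks ξ) ≤ E ξ * (2 * Real.pi * (c + c)) ^ 2 := by
      intro ξ hξ
      apply mul_le_mul_of_nonneg_left _ (hE0 ξ)
      have h8 : ∃ j ∈ S, nrm (xx ξ - xx j) < 1 / (L' : ℝ) := by
        rw [Finset.mem_compl, hB, Finset.mem_filter] at hξ
        push Not at hξ
        exact hξ (Finset.mem_univ _)
      obtain ⟨j, hj, hjn⟩ := h8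
      obtain ⟨i, hi⟩ := hθ j hj
      have h9 : Ks ξ ≤ (2 * Real.pi * (c + c)) ^ 2 := by
        rw [hKs]
        apply pow_le_pow_left₀ (norm_nonneg _)
        apply kernel J k (xx ξ) (c + c) hk0 hk1
        intro v hv
        obtain ⟨hv1, hv2⟩ := hkv v hv
        have h10 : (v : ℝ) * xx ξ = v * θ i + v * (xx ξ - xx j) := by rw [hi]; ring
        rw [h10]
        refine (nrm_add _ _).trans (add_le_add (hv2 i) ?_)
        refine (nrm_int_mul _ _).trans ?_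
        have h11 : |(v : ℝ)| ≤ J := by
          rw [← Int.cast_abs]
          exact_mod_cast hv1
        have hL'r : (0 : ℝ) < L' := by exact_mod_cast hL'
        calc |(v : ℝ)| * nrm (xx ξ - xx j) ≤ J * (1 / (L' : ℝ)) :=
              mul_le_mul h11 hjn.le (nrm_nonneg _) (by positivity)
          _ ≤ 1 / (g : ℝ) := by
              rw [mul_one_div, div_le_div_iff₀ hL'r hg0, one_mul]
              have : ((g * J : ℕ) : ℝ) ≤ L' := by exact_mod_cast hgJ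
              push_cast at this
              linarith [mul_comm (g : ℝ) (J : ℝ)]
          _ ≤ c := hg1
      calc Bs ξ * Ks ξ ≤ 1 * (2 * Real.pi * (c + c)) ^ 2 :=
            mul_le_mul (hBs1 ξ) h9 (hKs0 ξ) (by norm_num)
        _ = _ := one_mul _
    calc _ ≤ ∑ ξ ∈ Bᶜ, E ξ * (2 * Real.pi * (c + c)) ^ 2 := Finset.sum_le_sum h7
      _ ≤ ∑ ξ, E ξ * (2 * Real.pi * (c + c)) ^ 2 := by
          apply Finset.sum_le_univ_sum_of_nonneg
          intro ξ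
          exact mul_nonneg (hE0 ξ) (by positivity)
      _ = (∑ ξ, E ξ) * (2 * Real.pi * (c + c)) ^ 2 := by rw [Finset.sum_mul]
      _ ≤ A * (2 * Real.pi * (c + c)) ^ 2 := mul_le_mul_of_nonneg_right hEA (by positivity)
      _ = ε / 2 := by rw [mul_comm]; exact hcA
  linarith

end Pool.Agent.NH16.BT.CI
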