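import Pool.Agent.NH16.BT.Stm

set_option autoImplicit false

/-!
# Project BT, BT10: prime tuples and averages along the residue classes (helper93)
-/

namespace Pool.Agent.NH16.BT.CT

open Finset Filter
open scoped BigOperators
open Pool.Agent.NH16.DL Pool.Agent.NH16.SM

theorem sum_classes (W T : ℕ) (f : ℕ → ℝ) :
    ∑ a ∈ Icc 1 W, ∑ t ∈ range T, f (a + W * t) = ∑ n ∈ Icc 1 (W * T), f n := by
  rw [sum_comm]
  induction T with
  | zero => simp
  | succ T ih =>
    rw [sum_range_succ, ih]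
    have h1 : Icc 1 (W * (T + 1)) = Icc 1 (W * T) ∪ Icc (1 + W * T) (W + W * T) := by
      ext n
      simp only [mem_union, mem_Icc]
      rw [Nat.mul_succ]
      constructor
      · rintro ⟨h1, h2⟩
        by_cases h3 : n ≤ W * T
        · exact Or.inl ⟨h1, h3⟩
        · exact Or.inr ⟨by omega, by omega⟩
      · rintro (⟨h1, h2⟩ | ⟨h1, h2⟩)
        · exact ⟨h1, by omega⟩
        · exact ⟨by omega, by omega⟩
    have h2 : Disjoint (Icc 1 (W * T)) (Icc (1 + W * T) (W + W * T)) := by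
      rw [Finset.disjoint_left]
      intro n h3 h4
      rw [mem_Icc] at h3 h4
      omega
    rw [h1, sum_union h2]
    congr 1
    refine Finset.sum_nbij' (fun q => q + W * T) (fun n => n - W * T) ?_ ?_ ?_ ?_ ?_
    · intro q hq
      rw [mem_Icc] at hq ⊢
      omega
    · intro q hq
      rw [mem_Icc] at hq ⊢
      omega
    · intro q _
      simp
    · intro n hn
      rw [mem_Icc] at hn
      show n - W * T + W * T = n
      omega
    · intro q _
      rfl

theorem main : S_CT := by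
  classical
  intro w N r h hN hh
  obtain ⟨c, hc⟩ : ∃ c : ℝ, c = Vv w * Real.log N := ⟨_, rfl⟩
  have hc0 : 0 ≤ c := by
    rw [hc]
    exact mul_nonneg (Vv_pos w).le (Real.log_nonneg (by exact_mod_cast hN))
  rw [← hc]
  obtain ⟨W, hW⟩ : ∃ W : ℕ, W = Wn w := ⟨_, rfl⟩
  have hW0 : 0 < W := by
    rw [hW]
    unfold Wn
    exact Finset.prod_pos fun p hp => (mem_PP.1 hp).1.pos
  rw [← hW]
  have e0 : ∑ a ∈ Icc 1 W, ∑ t ∈ range (N / W), ∏ i, Fp w N (a + h i + W * t) =
      ∑ n ∈ Icc 1 (W * (N / W)), ∏ i, Fp w N (n + h i) := by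
    rw [← sum_classes]
    refine sum_congr rfl fun a _ => sum_congr rfl fun t _ => prod_congr rfl fun i _ => ?_
    congr 1
    ring
  rw [e0]
  obtain ⟨S1, hS1⟩ : ∃ S1 : Finset ℕ, S1 = (Icc 1 (W * (N / W))).filter
    (fun q => ∀ i, (q + h i).Prime ∧ N < (q + h i) * (q + h i)) := ⟨_, rfl⟩
  obtain ⟨S2, hS2⟩ : ∃ S2 : Finset ℕ, S2 = (Icc 1 N).filter
    (fun n => ∀ i, (n + h i).Prime) := ⟨_, rfl⟩
  have e1 : ∑ n ∈ Icc 1 (W * (N / W)), ∏ i, Fp w N (n + h i) = c ^ (r + 1) * S1.card := by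
    have h1 : ∀ q, ∏ i, Fp w N (q + h i) =
        if ∀ i, (q + h i).Prime ∧ N < (q + h i) * (q + h i) then c ^ (r + 1) else 0 := by
      intro q
      split_ifs with h'
      · have h2 : ∀ i, Fp w N (q + h i) = c := by
          intro i
          unfold Fp
          rw [if_pos (h' i), hc]
        rw [Finset.prod_congr rfl fun i _ => h2 i, prod_const, card_univ, Fintype.card_fin]
      · push Not at h'
        obtain ⟨i, hi⟩ := h'
        refine prod_eq_zero (mem_univ i) ?_
        unfold Fp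
        rw [if_neg]
        rintro ⟨h3, h4⟩
        exact absurd h4 (not_lt.2 (hi h3))
    rw [Finset.sum_congr rfl fun q _ => h1 q, ← sum_filter, sum_const, ← hS1, nsmul_eq_mul]
    ring
  have e2 : pT h N = S2.card := by
    unfold pT
    rw [hS2]
  have hWN : W * (N / W) ≤ N := Nat.mul_div_le N W
  have hWN2 : N < W * (N / W) + W := by
    have h1 := Nat.div_add_mod N W
    have h2 := Nat.mod_lt N hW0
    omega
  have hsub : S1 ⊆ S2 := by
    intro n hn
    rw [hS1, mem_filter, mem_Icc] at hn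
    rw [hS2, mem_filter, mem_Icc]
    exact ⟨⟨hn.1.1, hn.1.2.trans hWN⟩, fun i => (hn.2 i).1⟩
  have hsd : S2 \ S1 ⊆ Icc 1 (Nat.sqrt N) ∪ Ioc (W * (N / W)) N := by
    intro n hn
    rw [Finset.mem_sdiff, hS2, mem_filter, mem_Icc, hS1, mem_filter, mem_Icc] at hn
    obtain ⟨⟨⟨hn1, hnN⟩, hpr⟩, hnot⟩ := hn
    rw [mem_union, mem_Icc, mem_Ioc]
    by_cases h1 : n ≤ W * (N / W)
    · left
      have h1 : ∃ i, ¬ N < (n + h i) * (n + h i) := by
        by_contra hcon
        push Not at hcon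
        exact hnot ⟨⟨hn1, h1⟩, fun i => ⟨hpr i, hcon i⟩⟩
      obtain ⟨i, hi⟩ := h1
      refine ⟨hn1, ?_⟩
      rw [Nat.le_sqrt]
      push Not at hi
      refine le_trans ?_ hi
      exact Nat.mul_le_mul (by omega) (by omega)
    · right
      exact ⟨by omega, hnN⟩
  have hcard : (S2.card : ℝ) - S1.card ≤ Real.sqrt N + 1 + W := by
    have h1 : S2.card - S1.card = (S2 \ S1).card := (card_sdiff_of_subset hsub).symm
    have h2 := (card_le_card hsd).trans (card_union_le _ _)
    rw [Nat.card_Icc, Nat.card_Ioc] at h2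
    have h3 := card_le_card hsub
    have h4 : S2.card ≤ S1.card + Nat.sqrt N + W := by omega
    have h5 : (S2.card : ℝ) ≤ S1.card + Nat.sqrt N + W := by exact_mod_cast h4
    have h6 : (Nat.sqrt N : ℝ) ≤ Real.sqrt N := Real.nat_sqrt_le_real_sqrt
    linarith
  have hcard0 : (0 : ℝ) ≤ (S2.card : ℝ) - S1.card := by
    have : (S1.card : ℝ) ≤ S2.card := by exact_mod_cast card_le_card hsub
    linarith
  rw [e1, e2, abs_sub_comm, ← mul_sub, abs_mul, abs_of_nonneg (pow_nonneg hc0 _),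
    abs_of_nonneg hcard0]
  exact mul_le_mul_of_nonneg_left hcard (pow_nonneg hc0 _)

end Pool.Agent.NH16.BT.CT
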