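import Pool.Agent.NH16.BT.Stm
import Pool.Agent.NH16.SM.FLA

set_option autoImplicit false
set_option linter.unusedSectionVars false
set_option linter.unusedVariables false

/-!
# The majorant along residue classes
-/

namespace Pool.Agent.NH16.BT

open Finset Filter Topology
open scoped BigOperators
open Pool.Agent.NH16.DL Pool.Agent.NH16.SM

/-- properties of one level of the majorant -/
structure LI (M C b w N : ℕ) (η : ℝ) : Prop where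
  fl : ∀ m ≤ M, ∀ (a : Fin m → Bool) (u : Fin m → ℕ) (D : ℕ), D ≠ 0 →
    (∀ p : ℕ, p.Prime → w < p → ∀ i j, i ≠ j → p ∣ Nat.dist (u i) (u j) → p ∣ D) →
    (1 - 4 * (1 / 2 : ℝ) ^ b) * (1 - (m : ℝ) ^ 2 / w) - η ≤
      𝔼 t : Fin (N / Wn w), ∏ i, (if a i = true then gy w (yx C b N) (u i + Wn w * t) else 1) ∧
    𝔼 t : Fin (N / Wn w), ∏ i, (if a i = true then gy w (yx C b N) (u i + Wn w * t) else 1) ≤
      (1 + 4 * (1 / 2 : ℝ) ^ b) * sg w (3 ^ m) D + η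
  fp : ∀ n : ℕ, Fp w N n ≤ 2 / ke C b * gy w (yx C b N) n
  l1 : 1 ≤ Vv w / Vv (yx C b N)
  l2 : Vv w / Vv (yx C b N) ≤ 4 * Real.log N
  wn : Wn w ≤ N

theorem LI_ev (h1 : S_FLI) (h2 : S_FP1) (M : ℕ) : ∃ C : ℕ, 1 ≤ C ∧ ∀ b : ℕ, C ≤ b → ∀ η : ℝ, 0 < η →
    ∀ w : ℕ, 1 ≤ w → ∀ᶠ N : ℕ in atTop, LI M C b w N η := by
  obtain ⟨C, hC1, hC⟩ := h1 M
  refine ⟨C, hC1, fun b hb η hη w hw => ?_⟩
  have e1 := hC b hb η hη w hw
  have e2 := h2 C b hC1 (hC1.trans hb) w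
  have e3 := (yx_tendsto C b).eventually Vv_bounds
  have e4 := (yx_tendsto C b).eventually_ge_atTop w
  have e5 := yx_log C b
  filter_upwards [e1, e2, e3, e4, e5, eventually_ge_atTop 1, eventually_ge_atTop (Wn w)] with N g1 g2 g3 g4 g5 g6 g7
  refine ⟨fun m hm => g1 m hm, g2, ?_, ?_, g7⟩
  · rw [one_le_div (Vv_pos _)]
    exact Vv_anti g4
  · rw [div_eq_mul_inv]
    have hlog : 0 ≤ Real.log N := Real.log_natCast_nonneg N
    have hke : ke C b ≤ 1 := ke_le_one' C b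
    have h6 : ke C b * Real.log N ≤ Real.log N := mul_le_of_le_one_left hlog hke
    calc Vv w * (Vv (yx C b N))⁻¹ ≤ 1 * (Vv (yx C b N))⁻¹ :=
          mul_le_mul_of_nonneg_right (Vv_le_one w) (inv_nonneg.2 (Vv_pos _).le)
      _ ≤ 4 * Real.log N := by linarith [g3.2, g5.2]

lemma Wn_le_nonempty {w N : ℕ} (h : Wn w ≤ N) : Nonempty (Fin (N / Wn w)) :=
  ⟨⟨0, Nat.div_pos h (Wn_pos w)⟩⟩

/-- condition on the positions -/
def PK {R : ℕ} (w : ℕ) (P : Fin R → ℕ) : Prop :=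
  ∀ s t : Fin R, ∀ p : ℕ, p.Prime → w < p → p ∣ Nat.dist (P s) (P t) → p ∣ Nat.dist (vl s) (vl t)

lemma PK_cls (w R c o : ℕ) : PK (R := R) w (fun s => c + Wn w * (s.val + o)) := by
  intro s t p hp hw hd
  have e : Nat.dist (c + Wn w * (s.val + o)) (c + Wn w * (t.val + o)) = Wn w * Nat.dist (vl s) (vl t) := by
    rw [Nat.dist_add_add_left, Nat.dist_mul_left]
    congr 1
    unfold vl Nat.dist
    omega
  have hd' : p ∣ Nat.dist (c + Wn w * (s.val + o)) (c + Wn w * (t.val + o)) := hd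
  rw [e] at hd'
  rcases hp.dvd_mul.1 hd' with h1 | h1
  · exact absurd h1 (not_dvd_Wn hp hw)
  · exact h1

section
variable {M C b w N : ℕ} {η : ℝ}

/-- the majorant -/
noncomputable def nuc (w y N : ℕ) (u : ℕ) (t : Fin (N / Wn w)) : ℝ := gy w y (u + Wn w * t)

/-- the primes -/
noncomputable def fpc (w N : ℕ) (u : ℕ) (t : Fin (N / Wn w)) : ℝ := Fp w N (u + Wn w * t)

lemma pp_nuc {ρ : Type} {y : ℕ} (P : ρ → ℕ) {m : ℕ} (a : Fin m → Bool) (u : Fin m → ρ) (t : Fin (N / Wn w)) :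
    pp (fun s t => nuc w y N (P s) t) (fun _ _ => 1) a u t =
      ∏ i, (if a i = true then gy w y (P (u i) + Wn w * t) else 1) := by
  unfold pp pt nuc
  refine prod_congr rfl fun i _ => ?_
  cases a i <;> rfl

lemma LI.fla (h : LI M C b w N η) {R : ℕ} {P : Fin R → ℕ} (hP : PK w P) {m : ℕ} (hm : m ≤ M) :
    FLa (fun (s : Fin R) t => nuc w (yx C b N) N (P s) t) w (4 * (1 / 2 : ℝ) ^ b) η m := by
  intro a u hu
  have e : 𝔼 q, pp (fun (s : Fin R) t => nuc w (yx C b N) N (P s) t) (fun _ _ => 1) a u q =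
      𝔼 t : Fin (N / Wn w), ∏ i, (if a i = true then gy w (yx C b N) (P (u i) + Wn w * t) else 1) :=
    expect_congr rfl fun t _ => pp_nuc P a u t
  rw [e]
  refine h.fl m hm a (fun i => P (u i)) (dsc (fun i => vl (u i))) (FLA.dsc_ne _) fun p hp hw i j hij hd => ?_
  have h2 := hP (u i) (u j) p hp hw hd
  have h3 : vl (u i) ≠ vl (u j) := fun h4 => hij (hu (vl_inj h4))
  have h4 : ed (vl (u i)) (vl (u j)) = Nat.dist (vl (u i)) (vl (u j)) := by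
    unfold ed
    rw [if_neg h3]
  rw [← h4] at h2
  exact h2.trans (FLA.ed_dvd_dsc (fun i => vl (u i)) i j)

/-- consequences -/
lemma LI.ps (h : LI M C b w N η) (hp : S_PS1) (hw : 1 ≤ w)
    (hb : 4 * (1 / 2 : ℝ) ^ b ≤ 1) (hη0 : 0 ≤ η) (hη : η ≤ 1) {R : ℕ} {P : Fin R → ℕ} (hP : PK w P)
    {lam : ℝ} (hR : 1 ≤ R) (hlam : 4 * Real.log N ≤ lam * R) (hl1 : lam ≤ 1) :
    (∀ m ≤ M, MB (fun (s : Fin R) t => nuc w (yx C b N) N (P s) t) (fun _ _ => 1) (BB m) m) ∧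
    (∀ m ≤ M, 1 ≤ m → PR (fun (s : Fin R) t => nuc w (yx C b N) N (P s) t) (fun _ _ => 1)
      (tauA m w (4 * (1 / 2 : ℝ) ^ b) η lam) m) ∧
    (∀ m ≤ M, 1 ≤ m → 4 * (1 / 2 : ℝ) ^ b + η ≤ 1 →
      𝔼 r : Fin m → Fin R, max 0 (𝔼 t, ∏ i, nuc w (yx C b N) N (P (r i)) t - 2) ≤ excA m w lam) := by
  have := Wn_le_nonempty h.wn
  have hRp : (0 : ℝ) < R := by exact_mod_cast hR
  exact hp R (Fin (N / Wn w)) (fun (s : Fin R) t => nuc w (yx C b N) N (P s) t)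
    (Vv w / Vv (yx C b N)) lam (4 * (1 / 2 : ℝ) ^ b) η w M hR hw h.l1 (fun s q => gy_nonneg _ _ _)
    (fun s q => gy_le _ _ _) (by rw [div_le_iff₀ hRp]; exact h.l2.trans hlam) hl1 (by positivity) hb hη0 hη
    (fun m hm => h.fla hP hm)

lemma LI.ps2 (h : LI M C b w N η) (hp : S_PS2) (hw : 1 ≤ w) (hM : 2 ≤ M)
    (hb : 4 * (1 / 2 : ℝ) ^ b ≤ 1) (hη0 : 0 ≤ η) (hη : η ≤ 1) (hbη : 4 * (1 / 2 : ℝ) ^ b + η ≤ 1)
    {R : ℕ} {P : Fin R → ℕ} (hP : PK w P) {lam : ℝ} (hR : 1 ≤ R) (hlam : 4 * Real.log N ≤ lam * R) :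
    (∀ s t : Fin R, 0 ≤ YY (2 / ke C b) w s t) ∧
    (∀ s t, s ≠ t → 𝔼 q, fpc w N (P s) q * fpc w N (P t) q ≤ 2 * (2 / ke C b) ^ 2 + YY (2 / ke C b) w s t) ∧
    𝔼 s : Fin R, 𝔼 t : Fin R, YY (2 / ke C b) w s t ^ 2 ≤
      4 * (2 / ke C b) ^ 4 * (10 * (Real.exp (101 ^ 6 / w) - 1)) ∧
    (∀ s, 𝔼 q, fpc w N (P s) q ^ 2 ≤ (3 * (2 / ke C b) ^ 2 * lam) * R) := by
  have := Wn_le_nonempty h.wn
  have hK : 0 ≤ 2 / ke C b := (div_pos two_pos (ke_pos C b)).le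
  obtain ⟨h1, h2, h3, h4⟩ := hp R (Fin (N / Wn w)) (fun (s : Fin R) q => fpc w N (P s) q)
    (fun (s : Fin R) q => nuc w (yx C b N) N (P s) q) (2 / ke C b)
    (Vv w / Vv (yx C b N)) (4 * (1 / 2 : ℝ) ^ b) η w hR hw (fun s q => gy_nonneg _ _ _)
    (fun s q => gy_le _ _ _) hK (fun s q => Fp_nonneg _ _ _) (fun s q => h.fp _) (by positivity) hb hη0 hη hbη
    (h.fla hP (m := 1) (by omega)) (h.fla hP (m := 2) hM)
  refine ⟨h1, h2, h3, fun s => (h4 s).trans ?_⟩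
  have : Vv w / Vv (yx C b N) ≤ lam * R := h.l2.trans hlam
  have h5 : 0 ≤ 3 * (2 / ke C b) ^ 2 := by positivity
  calc 3 * (2 / ke C b) ^ 2 * (Vv w / Vv (yx C b N)) ≤ 3 * (2 / ke C b) ^ 2 * (lam * R) :=
        mul_le_mul_of_nonneg_left this h5
    _ = _ := by ring

end

end Pool.Agent.NH16.BT
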