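import Pool.Agent.NH16.BT.E1

set_option autoImplicit false
set_option linter.unusedSectionVars false
set_option linter.unusedVariables false

/-!
# The dense model of the primes of a residue class
-/

namespace Pool.Agent.NH16.BT

open Finset Filter Topology
open scoped BigOperators
open Pool.Agent.NH16.DL Pool.Agent.NH16.SM

lemma PK_cls0 (w R c : ℕ) : PK (R := R) w (fun s => c + Wn w * s.val) := PK_cls w R c 0

theorem denseB (hDM : S_DM) (hPS1 : S_PS1) (hPS2 : S_PS2) {M C : ℕ} (hM : 6 ≤ M) (hC : 1 ≤ C)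
    (hLV : ∀ b : ℕ, C ≤ b → ∀ η : ℝ, 0 < η → ∀ w : ℕ, 1 ≤ w → ∀ᶠ N : ℕ in atTop, LI M C b w N η)
    {δ : ℝ} (hδ : 0 < δ) :
    ∃ lam0 : ℝ, 0 < lam0 ∧ lam0 ≤ 1 ∧ ∃ w0 : ℕ, ∀ w : ℕ, w0 ≤ w → ∀ᶠ N : ℕ in atTop, ∀ c L : ℕ,
      4 * Real.log N ≤ lam0 * L → ∃ F' : ℕ → Fin (N / Wn w) → ℝ,
        (1 / (L : ℝ)) * ∑ s ∈ range L, 𝔼 q, F' s q ^ 2 ≤ 2 * K0c C ^ 2 + 1 ∧
        (1 / (L : ℝ)) * ((1 / (L : ℝ)) * ∑ s ∈ range L, ∑ s' ∈ range L,
          |𝔼 q, fpc w N (c + Wn w * s) q * fpc w N (c + Wn w * s') q - 𝔼 q, F' s q * F' s' q|) ≤ δ := by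
  set K0 : ℝ := K0c C with hK0
  have hK02 : 2 ≤ K0 := two_le_K C (C + 3)
  set Ca : ℝ := 2 * K0 ^ 2 with hCa
  have hCa0 : 0 ≤ Ca := by positivity
  set B : ℝ := BB 1 + BB 2 with hB
  have hB1 : 1 ≤ BB 1 := one_le_BB 1
  have hB2 : 1 ≤ BB 2 := one_le_BB 2
  have hB0 : 0 < B := by linarith
  have hc4 : 1 ≤ c1 4 := one_le_c1 4
  -- choice of b
  have t1 : Tendsto (fun b : ℕ => 4096 * B ^ 3 * c1 4 * 4 * ((2 / ke C b) ^ 8 * (1 / 2 : ℝ) ^ b * 4)) atTop (𝓝 0) := by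
    have h := ((Kpow C 8 hC).mul_const 4).const_mul (4096 * B ^ 3 * c1 4 * 4)
    simpa using h
  have t2 : Tendsto (fun b : ℕ => (2 / ke C b)) atTop atTop :=
    tendsto_atTop_mono (fun b => K_ge_b C b hC) tendsto_natCast_atTop_atTop
  have t3 : ∀ᶠ b : ℕ in atTop, 144 * B * K0 ^ 6 * 8 / δ ^ 2 ≤ 2 / ke C b := t2.eventually_ge_atTop _
  obtain ⟨b, hb1, hb2, hb3, hb4⟩ := ((le_of_ev t1 (t := δ ^ 4) (by positivity)).and (t3.and
    ((eventually_ge_atTop C).and (eventually_ge_atTop 3)))).exists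
  set K : ℝ := 2 / ke C b with hK
  have hK2 : 2 ≤ K := two_le_K C b
  set θ : ℝ := 4 * (1 / 2 : ℝ) ^ b with hθ
  have hθ0 : 0 < θ := by positivity
  have hθ1 : θ ≤ 1 / 2 := by
    have : (1 / 2 : ℝ) ^ b ≤ (1 / 2 : ℝ) ^ 3 := pow_le_pow_of_le_one (by norm_num) (by norm_num) hb4
    rw [hθ]
    norm_num at this ⊢
    linarith
  -- the small parameter
  set s0 : ℝ := δ ^ 2 / (16 * (48 * K ^ 2 * B)) with hs0
  have hs0p : 0 < s0 := by positivity
  obtain ⟨T0, hT0⟩ := exists_nat_ge ((Ca + 1) / s0)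
  set T : ℕ := T0 + 1 with hT
  have hTle : Ca + 1 ≤ s0 * T := by
    rw [div_le_iff₀ hs0p] at hT0
    rw [hT]
    push_cast
    nlinarith
  set s1 : ℝ := min 1 (s0 / (Ca + 1)) with hs1
  have hs1p : 0 < s1 := lt_min one_pos (by positivity)
  have hs11 : s1 ≤ 1 := min_le_left _ _
  have hs1b : Ca * s1 ^ 2 ≤ s0 := by
    have h1 : s1 ≤ s0 / (Ca + 1) := min_le_right _ _
    have h2 : s1 ^ 2 ≤ s1 := by nlinarith
    calc Ca * s1 ^ 2 ≤ Ca * s1 := mul_le_mul_of_nonneg_left h2 hCa0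
      _ ≤ Ca * (s0 / (Ca + 1)) := mul_le_mul_of_nonneg_left h1 hCa0
      _ = s0 * (Ca / (Ca + 1)) := by ring
      _ ≤ s0 * 1 := mul_le_mul_of_nonneg_left (by rw [div_le_one (by positivity)]; linarith) hs0p.le
      _ = s0 := mul_one _
  set σ : ℝ := s1 / 2 ^ T with hσ
  have hσ0 : 0 < σ := by positivity
  have hTσ : 2 ^ T * σ = s1 := by rw [hσ]; field_simp
  -- lam0
  set lam0 : ℝ := min (min 1 (s0 / (3 * K0 ^ 2))) (min (min (1 / (2 * 2 ^ T * (3 * K0 ^ 2))) (σ ^ 6 / (2 * (36 * BB 5))))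
    (θ * c1 4 / (2 * (16 * (BB 3 + 1))))) with hlam0
  have hB5 : 1 ≤ BB 5 := one_le_BB 5
  have hB3 : 1 ≤ BB 3 := one_le_BB 3
  have hlam0p : 0 < lam0 := by
    refine lt_min (lt_min one_pos (by positivity)) (lt_min (lt_min (by positivity) (by positivity)) (by positivity))
  have hl1 : lam0 ≤ 1 := (min_le_left _ _).trans (min_le_left _ _)
  have hl2 : 3 * K0 ^ 2 * lam0 ≤ s0 := by
    have : lam0 ≤ s0 / (3 * K0 ^ 2) := (min_le_left _ _).trans (min_le_right _ _)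
    rw [le_div_iff₀ (by positivity)] at this
    linarith
  have hl3 : 2 ^ T * (3 * K0 ^ 2 * lam0) ≤ 1 / 2 := by
    have : lam0 ≤ 1 / (2 * 2 ^ T * (3 * K0 ^ 2)) :=
      (min_le_right _ _).trans ((min_le_left _ _).trans (min_le_left _ _))
    rw [le_div_iff₀ (by positivity)] at this
    linarith
  have hl4 : 36 * lam0 * BB 5 ≤ σ ^ 6 / 2 := by
    have : lam0 ≤ σ ^ 6 / (2 * (36 * BB 5)) :=
      (min_le_right _ _).trans ((min_le_left _ _).trans (min_le_right _ _))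
    rw [le_div_iff₀ (by positivity)] at this
    linarith
  have hl5 : 16 * lam0 * (BB 3 + 1) ≤ θ * c1 4 / 2 := by
    have : lam0 ≤ θ * c1 4 / (2 * (16 * (BB 3 + 1))) := (min_le_right _ _).trans (min_le_right _ _)
    rw [le_div_iff₀ (by positivity)] at this
    linarith
  -- the level of t
  set tt0 : ℝ := min s0 (1 / (2 * Real.sqrt (2 ^ T))) with htt0
  have hsq : 0 < Real.sqrt (2 ^ T) := Real.sqrt_pos.2 (by positivity)
  have htt0p : 0 < tt0 := lt_min hs0p (by positivity)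
  -- w0
  have e1 : ∀ᶠ w : ℕ in atTop, 4 * K0 ^ 4 * (10 * (Real.exp (101 ^ 6 / w) - 1)) ≤ tt0 ^ 2 := by
    refine le_of_ev ?_ (by positivity)
    have h := (exp_div_tendsto (101 ^ 6)).const_mul (4 * K0 ^ 4 * 10)
    rw [mul_zero] at h
    refine h.congr fun w => by ring
  have e2 : ∀ᶠ w : ℕ in atTop, XA 6 w ≤ σ ^ 6 / 4 := le_of_ev (XA_tendsto 6) (by positivity)
  have e3 : ∀ᶠ w : ℕ in atTop, XA 4 w ≤ θ * c1 4 / 2 := le_of_ev (XA_tendsto 4) (by positivity)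
  have e4 : ∀ᶠ w : ℕ in atTop, (16 : ℝ) / w ≤ θ * c1 4 / 2 :=
    le_of_ev (tendsto_const_div_atTop_nhds_zero_nat 16) (by positivity)
  obtain ⟨w0, hw0⟩ := eventually_atTop.1 (e1.and (e2.and (e3.and (e4.and (eventually_ge_atTop 1)))))
  refine ⟨lam0, hlam0p, hl1, w0, fun w hw => ?_⟩
  obtain ⟨g1, g2, g3, g4, g5⟩ := hw0 w hw
  set η : ℝ := min (1 / 2) (θ * c1 4 / 2) with hη
  have hηp : 0 < η := lt_min (by norm_num) (by positivity)
  have hη1 : η ≤ 1 / 2 := min_le_left _ _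
  have hη2 : η ≤ θ * c1 4 / 2 := min_le_right _ _
  filter_upwards [hLV (C + 3) (by omega) (1 / 2) (by norm_num) w g5, hLV b hb3 η hηp w g5,
    eventually_ge_atTop 3] with N hV0 hV1 hN c L hL
  have hlogN : 1 ≤ Real.log N := by
    rw [Real.le_log_iff_exp_le (by positivity)]
    have h3 : (3 : ℝ) ≤ N := by exact_mod_cast hN
    linarith [Real.exp_one_lt_d9]
  have hL1 : 1 ≤ L := by
    rcases Nat.eq_zero_or_pos L with h0 | h0
    · rw [h0, Nat.cast_zero, mul_zero] at hL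
      linarith
    · exact h0
  have hLp : (0 : ℝ) < L := by exact_mod_cast hL1
  have hNe : Nonempty (Fin (N / Wn w)) := Wn_le_nonempty hV0.wn
  have hLe : Nonempty (Fin L) := ⟨⟨0, hL1⟩⟩
  have hpos := PK_cls0 w L c
  have hth0 := theta0 C
  have hθ00 : (0 : ℝ) ≤ 4 * (1 / 2 : ℝ) ^ (C + 3) := by positivity
  obtain ⟨-, -, p3⟩ := hV0.ps hPS1 g5 (by linarith) (by norm_num) (by norm_num) hpos hL1 hL hl1
  obtain ⟨q1, q2, -⟩ := hV1.ps hPS1 g5 (by linarith) hηp.le (by linarith) hpos hL1 hL hl1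
  obtain ⟨r1, r2, r3, r4⟩ := hV0.ps2 hPS2 g5 (by omega) (by linarith) (by norm_num) (by norm_num)
    hth0 hpos hL1 hL
  have hex := p3 6 hM (by norm_num) hth0
  have hMB1 : MB (fun (s : Fin L) (q : Fin (N / Wn w)) => nuc w (yx C b N) N (c + Wn w * s.val) q) (fun _ _ => 1) B 1 :=
    fun a => (q1 1 (by omega) a).trans (by linarith)
  have hMB2 : MB (fun (s : Fin L) (q : Fin (N / Wn w)) => nuc w (yx C b N) N (c + Wn w * s.val) q) (fun _ _ => 1) B 2 :=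
    fun a => (q1 2 (by omega) a).trans (by linarith)
  have hPR := q2 4 (by omega) (by norm_num)
  set t : ℝ := tt0 with ht
  have hexσ : excA 6 w lam0 ≤ σ ^ 6 := by
    unfold excA
    norm_num
    nlinarith
  have htau : tauA 4 w θ η lam0 ≤ 4 * (θ * c1 4) := by
    unfold tauA
    norm_num
    have h16 : (16 : ℝ) / w ≤ θ * c1 4 / 2 := g4
    nlinarith
  have hexp0 : 0 ≤ 𝔼 r : Fin 6 → Fin L, max 0 (𝔼 q : Fin (N / Wn w), ∏ i, nuc w (yx C (C + 3) N) N (c + Wn w * (r i).val) q - 2) :=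
    expect_nonneg fun r _ => le_max_left _ _
  obtain ⟨F', hF0, hFK, hF2, hFd⟩ := hDM (Fin L) (Fin (N / Wn w)) (fun s q => fpc w N (c + Wn w * s.val) q)
    (fun s q => nuc w (yx C (C + 3) N) N (c + Wn w * s.val) q) (fun s q => nuc w (yx C b N) N (c + Wn w * s.val) q)
    (YY (2 / ke C (C + 3)) w) K0 K Ca t (3 * K0 ^ 2 * lam0) (σ ^ 6) (4 * (θ * c1 4)) s0 σ B T
    (by linarith) (by linarith) hCa0 htt0p.le (by positivity) (by positivity) hs0p hσ0 (by omega) hB0.le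
    (by positivity) (fun s q => Fp_nonneg _ _ _) (fun s q => hV0.fp _) (fun s q => hV1.fp _)
    (fun s q => gy_nonneg _ _ _) r1 r2 (r3.trans g1)
    (fun s => by rw [Fintype.card_fin]; exact r4 s) (hex.trans hexσ) hMB1 hMB2
    (fun a => (hPR a).trans htau) (by
      have h1 : Real.sqrt (2 ^ T) * t ≤ 1 / 2 := by
        have h2 : t ≤ 1 / (2 * Real.sqrt (2 ^ T)) := min_le_right _ _
        rw [le_div_iff₀ (by positivity)] at h2
        linarith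
      linarith) hTle
  refine ⟨fun s q => if h : s < L then F' ⟨s, h⟩ q else 0, ?_, ?_⟩
  · have e : (1 / (L : ℝ)) * ∑ s ∈ range L, 𝔼 q : Fin (N / Wn w), (if h : s < L then F' ⟨s, h⟩ q else 0) ^ 2 =
        𝔼 s : Fin L, 𝔼 q, F' s q ^ 2 := by
      rw [sum_range_fin, Fintype.expect_eq_sum_div_card, Fintype.card_fin, one_div, inv_mul_eq_div]
      congr 1
      refine sum_congr rfl fun s _ => expect_congr rfl fun q _ => ?_
      rw [dif_pos s.2]
    rw [e]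
    exact hF2
  · have e : (1 / (L : ℝ)) * ((1 / (L : ℝ)) * ∑ s ∈ range L, ∑ s' ∈ range L,
        |𝔼 q : Fin (N / Wn w), fpc w N (c + Wn w * s) q * fpc w N (c + Wn w * s') q - 𝔼 q : Fin (N / Wn w), (if h : s < L then F' ⟨s, h⟩ q else 0) *
          (if h : s' < L then F' ⟨s', h⟩ q else 0)|) =
        𝔼 s : Fin L, 𝔼 s' : Fin L, |𝔼 q : Fin (N / Wn w), fpc w N (c + Wn w * s.val) q * fpc w N (c + Wn w * s'.val) q - 𝔼 q, F' s q * F' s' q| := by
      rw [sum_range_fin, Fintype.expect_eq_sum_div_card, Fintype.card_fin, one_div, inv_mul_eq_div, inv_mul_eq_div]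
      congr 1
      rw [sum_div]
      refine sum_congr rfl fun s _ => ?_
      rw [sum_range_fin, Fintype.expect_eq_sum_div_card, Fintype.card_fin]
      congr 1
      refine sum_congr rfl fun s' _ => ?_
      congr 2
      refine expect_congr rfl fun q _ => ?_
      rw [dif_pos s.2, dif_pos s'.2]
    rw [e]
    refine hFd.trans ?_
    -- the numerical estimate
    have hσ6 : (1 / σ) ^ 6 * σ ^ 6 = 1 := by rw [← mul_pow, one_div, inv_mul_cancel₀ hσ0.ne', one_pow]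
    rw [hTσ, hσ6]
    have hts : t ≤ s0 := min_le_left _ _
    have hX : 4 * (3 * (s0 + (Ca * s1 ^ 2 + t + 3 * K0 ^ 2 * lam0) + K0 ^ 6 * (2 + 1) / K ^ 4)) ≤
        48 * s0 + 36 * K0 ^ 6 / K ^ 4 := by
      have : K0 ^ 6 * (2 + 1) / K ^ 4 = 3 * (K0 ^ 6 / K ^ 4) := by ring
      rw [this]
      have h36 : 36 * K0 ^ 6 / K ^ 4 = 36 * (K0 ^ 6 / K ^ 4) := by ring
      rw [h36]
      linarith
    have hA1 : 4 * K ^ 2 * B * (48 * s0) = δ ^ 2 / 4 := by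
      rw [hs0]
      field_simp
      ring
    have hA2 : 4 * K ^ 2 * B * (36 * K0 ^ 6 / K ^ 4) ≤ δ ^ 2 / 8 := by
      have hK1 : 144 * B * K0 ^ 6 * 8 / δ ^ 2 ≤ K ^ 2 := hb2.trans (by nlinarith)
      rw [div_le_iff₀ (by positivity)] at hK1
      have : 4 * K ^ 2 * B * (36 * K0 ^ 6 / K ^ 4) = 144 * B * K0 ^ 6 / K ^ 2 := by
        field_simp
        ring
      rw [this, div_le_iff₀ (by positivity)]
      linarith
    have hA3 : 4 * K ^ 2 * B * (8 * K ^ 2 * Real.sqrt (B * (4 * (θ * c1 4)))) ≤ δ ^ 2 / 2 := by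
      have h1 : 4 * K ^ 2 * B * (8 * K ^ 2 * Real.sqrt (B * (4 * (θ * c1 4)))) =
          Real.sqrt ((32 * K ^ 4 * B) ^ 2 * (B * (4 * (θ * c1 4)))) := by
        rw [← mul_sqrt' (by positivity)]
        ring
      rw [h1]
      refine Real.sqrt_le_iff.2 ⟨by positivity, ?_⟩
      have h2 : (32 * K ^ 4 * B) ^ 2 * (B * (4 * (θ * c1 4))) =
          (4096 * B ^ 3 * c1 4 * 4 * (K ^ 8 * (1 / 2 : ℝ) ^ b * 4)) / 4 := by
        rw [hθ]
        ring
      rw [h2]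
      have h3 : (δ ^ 2 / 2) ^ 2 = δ ^ 4 / 4 := by ring
      rw [h3]
      linarith
    have hfin : 2 * (K * Real.sqrt (B * (4 * (3 * (s0 + (Ca * s1 ^ 2 + t + 3 * K0 ^ 2 * lam0) +
        K0 ^ 6 * (2 + 1) / K ^ 4)) + 8 * K ^ 2 * Real.sqrt (B * (4 * (θ * c1 4)))))) ≤
        Real.sqrt (δ ^ 2) := by
      have h1 : 2 * (K * Real.sqrt (B * (4 * (3 * (s0 + (Ca * s1 ^ 2 + t + 3 * K0 ^ 2 * lam0) +
        K0 ^ 6 * (2 + 1) / K ^ 4)) + 8 * K ^ 2 * Real.sqrt (B * (4 * (θ * c1 4)))))) =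
          Real.sqrt ((2 * K) ^ 2 * (B * (4 * (3 * (s0 + (Ca * s1 ^ 2 + t + 3 * K0 ^ 2 * lam0) +
        K0 ^ 6 * (2 + 1) / K ^ 4)) + 8 * K ^ 2 * Real.sqrt (B * (4 * (θ * c1 4)))))) := by
        rw [← mul_sqrt' (by positivity)]
        ring
      rw [h1]
      refine Real.sqrt_le_sqrt ?_
      have h2 := mul_le_mul_of_nonneg_left hX (show 0 ≤ 4 * K ^ 2 * B by positivity)
      have h3 : 4 * K ^ 2 * B * (48 * s0 + 36 * K0 ^ 6 / K ^ 4) = 4 * K ^ 2 * B * (48 * s0) +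
          4 * K ^ 2 * B * (36 * K0 ^ 6 / K ^ 4) := by ring
      have hδ2 : 0 < δ ^ 2 := by positivity
      nlinarith
    rwa [Real.sqrt_sq hδ.le] at hfin

end Pool.Agent.NH16.BT
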