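import Pool.Agent.NH16.BT.E2

set_option autoImplicit false
set_option linter.unusedSectionVars false
set_option linter.unusedVariables false

/-!
# The Bohr set of a residue class
-/

namespace Pool.Agent.NH16.BT

open Finset Filter Topology
open scoped BigOperators
open Pool.Agent.NH16.DL Pool.Agent.NH16.SM

/-! ### translation -/

/-- the error of a translation -/
noncomputable def trT (w N v : ℕ) (Mx : ℝ) : ℝ := v * Mx / ((N / Wn w : ℕ) : ℝ)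

lemma shiftT {T : ℕ} (v : ℕ) (φ : ℕ → ℝ) (Mx : ℝ) (h0 : ∀ n, 0 ≤ φ n) (h1 : ∀ n, φ n ≤ Mx) :
    |𝔼 t : Fin T, φ (t + v) - 𝔼 t : Fin T, φ t| ≤ v * Mx / T := by
  rw [Fintype.expect_eq_sum_div_card, Fintype.expect_eq_sum_div_card, Fintype.card_fin, ← sub_div, abs_div,
    abs_of_nonneg (Nat.cast_nonneg (α := ℝ) T)]
  refine div_le_div_of_nonneg_right ?_ (Nat.cast_nonneg _)
  rw [Fin.sum_univ_eq_sum_range (fun t => φ (t + v)) T, Fin.sum_univ_eq_sum_range φ T]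
  have hMx : 0 ≤ Mx := (h0 0).trans (h1 0)
  have e1 : ∑ t ∈ range T, φ (t + v) = ∑ n ∈ Ico v (T + v), φ n := by
    rw [Finset.sum_Ico_eq_sum_range]
    have : T + v - v = T := by omega
    rw [this]
    exact sum_congr rfl fun t _ => by rw [add_comm]
  have e2 : ∑ t ∈ range T, φ t + ∑ n ∈ Ico T (T + v), φ n = ∑ n ∈ range v, φ n + ∑ n ∈ Ico v (T + v), φ n := by
    rw [Finset.sum_range_add_sum_Ico φ (by omega : T ≤ T + v), Finset.sum_range_add_sum_Ico φ (by omega : v ≤ T + v)]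
  have b1 : ∑ n ∈ Ico T (T + v), φ n ≤ v * Mx := by
    calc ∑ n ∈ Ico T (T + v), φ n ≤ ∑ _n ∈ Ico T (T + v), Mx := sum_le_sum fun n _ => h1 n
      _ = v * Mx := by rw [sum_const, Nat.card_Ico, nsmul_eq_mul]; congr 2; omega
  have b2 : ∑ n ∈ range v, φ n ≤ v * Mx := by
    calc ∑ n ∈ range v, φ n ≤ ∑ _n ∈ range v, Mx := sum_le_sum fun n _ => h1 n
      _ = v * Mx := by rw [sum_const, card_range, nsmul_eq_mul]
  have b3 : 0 ≤ ∑ n ∈ Ico T (T + v), φ n := sum_nonneg fun n _ => h0 n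
  have b4 : 0 ≤ ∑ n ∈ range v, φ n := sum_nonneg fun n _ => h0 n
  rw [e1, abs_le]
  constructor <;> linarith

lemma T_ge {w N : ℕ} (h : Wn w ≤ N) : (N : ℝ) / (2 * Wn w) ≤ ((N / Wn w : ℕ) : ℝ) := by
  have hW := Wn_pos w
  have hWp : (0 : ℝ) < Wn w := by exact_mod_cast hW
  rw [div_le_iff₀ (by positivity)]
  have h1 : N ≤ N / Wn w * (2 * Wn w) := by
    have h2 : 1 ≤ N / Wn w := Nat.div_pos h hW
    have h3 := Nat.div_add_mod N (Wn w)
    have h4 := Nat.mod_lt N hW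
    have h5 : Wn w * 1 ≤ Wn w * (N / Wn w) := Nat.mul_le_mul_left _ h2
    have h6 : N / Wn w * (2 * Wn w) = Wn w * (N / Wn w) + Wn w * (N / Wn w) := by ring
    omega
  exact_mod_cast h1

theorem trT_small (w : ℕ) {ε : ℝ} (hε : 0 < ε) (l j : ℕ) {t : ℝ} (ht : 0 < t) :
    ∀ᶠ N : ℕ in atTop, ∀ v : ℕ, (v : ℝ) ≤ l * (N : ℝ) ^ (1 - ε) → trT w N v (Real.log N ^ j) ≤ t := by
  have hWp : (0 : ℝ) < Wn w := by exact_mod_cast Wn_pos w
  filter_upwards [eventually_ge_atTop (Wn w),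
    le_of_ev (log_pow_rpow j hε (2 * Wn w * l)) ht] with N h2 h3 v hv
  have hN : (0 : ℝ) < N := by exact_mod_cast (Wn_pos w).trans_le h2
  have hp : 0 < (N : ℝ) / (2 * Wn w) := by positivity
  unfold trT
  have hlog : 0 ≤ Real.log N ^ j := pow_nonneg (Real.log_natCast_nonneg N) j
  calc (v : ℝ) * Real.log N ^ j / ((N / Wn w : ℕ) : ℝ) ≤
        (l * (N : ℝ) ^ (1 - ε)) * Real.log N ^ j / ((N : ℝ) / (2 * Wn w)) := by
        refine div_le_div₀ (by positivity) ?_ hp (T_ge h2)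
        exact mul_le_mul_of_nonneg_right hv hlog
    _ = 2 * Wn w * l * (Real.log N ^ j * (N : ℝ) ^ (-ε)) := by
        have e : (N : ℝ) ^ (1 - ε) = N * (N : ℝ) ^ (-ε) := by
          rw [sub_eq_add_neg, Real.rpow_add hN, Real.rpow_one]
        rw [e]
        field_simp
    _ ≤ t := h3

/-! ### the model -/

/-- the average over a Bohr set -/
noncomputable def PsB (w N J : ℕ) (k : ℤ → ℝ) (u : ℕ) (x : ℕ) : ℝ :=
  ∑ v ∈ range (2 * J + 1), k ((v : ℤ) - J) * Fp w N (u + Wn w * v + Wn w * x)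

/-- the weights of a Bohr set -/
structure BD (β κ : ℝ) (n J : ℕ) (θ : Fin n → ℝ) (k : ℤ → ℝ) : Prop where
  nn : ∀ v, 0 ≤ k v
  su : ∀ v, k v ≠ 0 → |v| ≤ (J : ℤ)
  on : ∑ v ∈ range (2 * J + 1), k ((v : ℤ) - J) = 1
  le : ∀ v, k v ≤ 1 / (β * (2 * J + 1))
  li : ∀ v d : ℤ, |k (v + d) - k v| ≤ 1 / (β * (2 * J + 1)) * (|(d : ℝ)| / J + (∑ j, nrm ((d : ℝ) * θ j)) / κ)

lemma PsB_nonneg {β κ : ℝ} {n J : ℕ} {θ : Fin n → ℝ} {k : ℤ → ℝ} (h : BD β κ n J θ k) (w N u x : ℕ) :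
    0 ≤ PsB w N J k u x := sum_nonneg fun v _ => mul_nonneg (h.nn _) (Fp_nonneg _ _ _)

lemma PsB_le {β κ : ℝ} {n J : ℕ} {θ : Fin n → ℝ} {k : ℤ → ℝ} (h : BD β κ n J θ k) (w N u x : ℕ) :
    PsB w N J k u x ≤ Real.log N := by
  calc PsB w N J k u x ≤ ∑ v ∈ range (2 * J + 1), k ((v : ℤ) - J) * Real.log N :=
        sum_le_sum fun v _ => mul_le_mul_of_nonneg_left (Fp_le _ _ _) (h.nn _)
    _ = Real.log N := by rw [← sum_mul, h.on, one_mul]

/-- the conclusion of `denseB` -/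
def DenseB (C : ℕ) : Prop := ∀ δ : ℝ, 0 < δ →
    ∃ lam0 : ℝ, 0 < lam0 ∧ lam0 ≤ 1 ∧ ∃ w0 : ℕ, ∀ w : ℕ, w0 ≤ w → ∀ᶠ N : ℕ in atTop, ∀ c L : ℕ,
      4 * Real.log N ≤ lam0 * L → ∃ F' : ℕ → Fin (N / Wn w) → ℝ,
        (1 / (L : ℝ)) * ∑ s ∈ range L, 𝔼 q, F' s q ^ 2 ≤ 2 * K0c C ^ 2 + 1 ∧
        (1 / (L : ℝ)) * ((1 / (L : ℝ)) * ∑ s ∈ range L, ∑ s' ∈ range L,
          |𝔼 q, fpc w N (c + Wn w * s) q * fpc w N (c + Wn w * s') q - 𝔼 q, F' s q * F' s' q|) ≤ δ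

theorem cls (hCI : S_CI) {C : ℕ} (hD : DenseB C) {ε : ℝ} (hε : 0 < ε) : ∃ (g n : ℕ) (β κ : ℝ), 1 ≤ g ∧ 0 < β ∧ 0 < κ ∧
    ∃ lam0 : ℝ, 0 < lam0 ∧ lam0 ≤ 1 ∧ ∃ w0 : ℕ, ∀ w : ℕ, w0 ≤ w → ∀ ε' : ℝ, 0 < ε' → ∀ᶠ N : ℕ in atTop,
      ∀ c L' J : ℕ, 1 ≤ J → g * J ≤ L' → 4 * Real.log N ≤ lam0 * L' → (L' : ℝ) ≤ (N : ℝ) ^ (1 - ε') →
      ∃ (θ : Fin n → ℝ) (k : ℤ → ℝ), BD β κ n J θ k ∧ ∀ b : Fin L' → ℝ, (∀ s, |b s| ≤ 1) →
        𝔼 t : Fin (N / Wn w), (𝔼 s, b s * (Fp w N (c + Wn w * (s.val + J) + Wn w * t) -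
          PsB w N J k (c + Wn w * s.val) t)) ^ 2 ≤ ε := by
  obtain ⟨g, n, β, κ, hg, hβ, hκ, h⟩ := hCI (2 * K0c C ^ 2 + 1) (ε / 16) (by positivity) (by positivity)
  obtain ⟨lam0, hlam0, hlam1, w0, hw0⟩ := hD (ε / 256) (by positivity)
  refine ⟨g, n, β, κ, hg, hβ, hκ, lam0, hlam0, hlam1, w0, fun w hw ε' hε' => ?_⟩
  filter_upwards [hw0 w hw, trT_small w hε' 4 2 (t := ε / 4) (by positivity), eventually_ge_atTop 3,
    eventually_ge_atTop (Wn w)] with N hN1 hN2 hN3 hNW c L' J hJ hgJ hlog hL'N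
  have hT := Wn_le_nonempty hNW
  have hJL : J ≤ L' := (Nat.le_mul_of_pos_left J hg).trans hgJ
  have hL'1 : 1 ≤ L' := hJ.trans hJL
  have hL'p : (0 : ℝ) < L' := by exact_mod_cast hL'1
  set L : ℕ := 4 * L' with hL
  have hL1 : 1 ≤ L := by omega
  have hLp : (0 : ℝ) < L := by exact_mod_cast hL1
  obtain ⟨F', hF1, hF2⟩ := hN1 c L (by
    have : (L' : ℝ) ≤ L := by exact_mod_cast (by omega : L' ≤ L)
    nlinarith)
  obtain ⟨θ, k, k1, k2, k3, k4, k5, hcut⟩ := h (Fin (N / Wn w)) L L' J (fun n t => fpc w N (c + Wn w * n) t) F' hL1 hL'1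
    hJ hgJ hF1
  have hBD : BD β κ n J θ k := ⟨k1, k2, k3, k4, k5⟩
  refine ⟨θ, k, hBD, fun b hb => ?_⟩
  have hLe : Nonempty (Fin L') := ⟨⟨0, hL'1⟩⟩
  have hc := hcut b hb
  have hlogN : 0 ≤ Real.log N := Real.log_natCast_nonneg N
  -- the function
  set G : ℕ → ℝ := fun x => (𝔼 s : Fin L', b s * (Fp w N (c + Wn w * (s.val + J) + Wn w * x) -
          PsB w N J k (c + Wn w * s.val) x)) ^ 2 with hG
  have hG0 : ∀ x, 0 ≤ G x := fun x => sq_nonneg _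
  have hGle : ∀ x, G x ≤ Real.log N ^ 2 := by
    intro x
    rw [hG]
    show (𝔼 s : Fin L', b s * _) ^ 2 ≤ _
    rw [← sq_abs]
    refine pow_le_pow_left₀ (abs_nonneg _) ?_ 2
    refine (abs_expect_le _ _).trans (expect_le univ_nonempty fun s _ => ?_)
    rw [abs_mul]
    have h1 : |Fp w N (c + Wn w * (s.val + J) + Wn w * x) - PsB w N J k (c + Wn w * s.val) x| ≤ Real.log N := by
      rw [abs_le]
      constructor
      · linarith [Fp_nonneg w N (c + Wn w * (s.val + J) + Wn w * x), PsB_le hBD w N (c + Wn w * s.val) x]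
      · linarith [Fp_le w N (c + Wn w * (s.val + J) + Wn w * x), PsB_nonneg hBD w N (c + Wn w * s.val) x]
    calc |b s| * _ ≤ 1 * Real.log N := mul_le_mul (hb s) h1 (abs_nonneg _) zero_le_one
      _ = _ := one_mul _
  have hX : 𝔼 t : Fin (N / Wn w), (𝔼 s, b s * (Fp w N (c + Wn w * (s.val + J) + Wn w * t) -
          PsB w N J k (c + Wn w * s.val) t)) ^ 2 = 𝔼 t : Fin (N / Wn w), G t := rfl
  rw [hX]
  set X : ℝ := 𝔼 t : Fin (N / Wn w), G t with hXdef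
  set e : ℝ := trT w N L (Real.log N ^ 2) with he
  have he4 : e ≤ ε / 4 := hN2 L (by
    rw [hL]
    push_cast
    exact mul_le_mul_of_nonneg_left hL'N (by norm_num))
  have hu : ∀ u ∈ range (L - L' - 2 * J), X - e ≤
      𝔼 t : Fin (N / Wn w), (𝔼 s : Fin L', b s * (fpc w N (c + Wn w * (u + s.val + J)) t -
        ∑ v ∈ range (2 * J + 1), k ((v : ℤ) - J) * fpc w N (c + Wn w * (u + s.val + v)) t)) ^ 2 := by
    intro u hu
    rw [mem_range] at hu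
    have e1 : 𝔼 t : Fin (N / Wn w), (𝔼 s : Fin L', b s * (fpc w N (c + Wn w * (u + s.val + J)) t -
        ∑ v ∈ range (2 * J + 1), k ((v : ℤ) - J) * fpc w N (c + Wn w * (u + s.val + v)) t)) ^ 2 =
        𝔼 t : Fin (N / Wn w), G (t + u) := by
      refine expect_congr rfl fun t _ => ?_
      rw [hG]
      show _ = (𝔼 s : Fin L', b s * (Fp w N (c + Wn w * (s.val + J) + Wn w * (t + u)) -
          PsB w N J k (c + Wn w * s.val) (t + u))) ^ 2
      congr 1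
      refine expect_congr rfl fun s _ => ?_
      congr 1
      unfold fpc PsB
      congr 1
      · congr 1
        ring
      · refine sum_congr rfl fun v _ => ?_
        congr 2
        ring
    rw [e1]
    have a1 := (abs_le.1 (shiftT (T := N / Wn w) u G (Real.log N ^ 2) hG0 hGle)).1
    have a2 : (u : ℝ) * Real.log N ^ 2 / ((N / Wn w : ℕ) : ℝ) ≤ e := by
      rw [he]
      unfold trT
      refine div_le_div_of_nonneg_right ?_ (Nat.cast_nonneg _)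
      refine mul_le_mul_of_nonneg_right ?_ (sq_nonneg _)
      exact_mod_cast (by omega : u ≤ L)
    linarith
  set RHS : ℝ := ε / 16 + 4 / (L' : ℝ) * ((1 / (L : ℝ)) * ∑ s ∈ range L, ∑ s' ∈ range L,
        |𝔼 t, fpc w N (c + Wn w * s) t * fpc w N (c + Wn w * s') t - 𝔼 t, F' s t * F' s' t|) with hRHS
  have hRHS2 : RHS ≤ ε / 16 + ε / 16 := by
    have e3 : 4 / (L' : ℝ) * ((1 / (L : ℝ)) * ∑ s ∈ range L, ∑ s' ∈ range L,
        |𝔼 t, fpc w N (c + Wn w * s) t * fpc w N (c + Wn w * s') t - 𝔼 t, F' s t * F' s' t|) =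
        16 * ((1 / (L : ℝ)) * ((1 / (L : ℝ)) * ∑ s ∈ range L, ∑ s' ∈ range L,
          |𝔼 q, fpc w N (c + Wn w * s) q * fpc w N (c + Wn w * s') q - 𝔼 q, F' s q * F' s' q|)) := by
      have : (L : ℝ) = 4 * L' := by rw [hL]; push_cast; ring
      rw [this]
      field_simp
      ring
    rw [hRHS, e3]
    linarith
  have key : (1 / (L : ℝ)) * (((L - L' - 2 * J : ℕ) : ℝ) * (X - e)) ≤ RHS := by
    refine le_trans ?_ hc
    refine mul_le_mul_of_nonneg_left ?_ (by positivity)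
    rw [← nsmul_eq_mul, ← card_range (L - L' - 2 * J), ← sum_const]
    rw [card_range]
    exact sum_le_sum hu
  rcases le_total X e with h1 | h1
  · linarith
  · have h2 : (1 / 4 : ℝ) * (X - e) ≤ (1 / (L : ℝ)) * (((L - L' - 2 * J : ℕ) : ℝ) * (X - e)) := by
      rw [← mul_assoc]
      refine mul_le_mul_of_nonneg_right ?_ (by linarith)
      rw [one_div_mul_eq_div, le_div_iff₀ hLp]
      have h3 : L' ≤ L - L' - 2 * J := by omega
      have h4 : (L' : ℝ) ≤ ((L - L' - 2 * J : ℕ) : ℝ) := by exact_mod_cast h3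
      have : (L : ℝ) = 4 * L' := by rw [hL]; push_cast; ring
      linarith
    linarith

end Pool.Agent.NH16.BT
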