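import Pool.Agent.NH16.BT.E3

set_option autoImplicit false
set_option linter.unusedSectionVars false
set_option linter.unusedVariables false

/-!
# Moments, mean values and pseudorandomness
-/

namespace Pool.Agent.NH16.BT

open Finset Filter Topology
open scoped BigOperators
open Pool.Agent.NH16.DL Pool.Agent.NH16.SM

/-- moments with respect to spread out weights -/
lemma spread {R m : ℕ} {T : Type} [Fintype T] [Nonempty T] (hR : 1 ≤ R) (ν : Fin R → T → ℝ) (κ : Fin R → ℝ)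
    (h0 : ∀ v, 0 ≤ κ v) (h1 : ∑ v, κ v = 1) {β : ℝ} (hβ : 0 < β) (h2 : ∀ v, κ v ≤ 1 / (β * R)) {E : ℝ}
    (hE : 𝔼 r : Fin m → Fin R, max 0 (𝔼 t, ∏ i, ν (r i) t - 2) ≤ E) :
    𝔼 t, (∑ v, κ v * ν v t) ^ m ≤ 2 + (1 / β) ^ m * E := by
  have hRp : (0 : ℝ) < R := by exact_mod_cast hR
  have hcard : (Fintype.card (Fin m → Fin R) : ℝ) = (R : ℝ) ^ m := by
    rw [Fintype.card_fun, Fintype.card_fin, Fintype.card_fin]
    push_cast
    rfl
  have e1 : ∀ t, (∑ v, κ v * ν v t) ^ m = ∑ r : Fin m → Fin R, (∏ i, κ (r i)) * ∏ i, ν (r i) t := by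
    intro t
    rw [Finset.sum_pow', Fintype.piFinset_univ]
    exact sum_congr rfl fun r _ => prod_mul_distrib
  simp only [e1]
  rw [expect_sum_comm]
  have e2 : ∀ r : Fin m → Fin R, 𝔼 t, (∏ i, κ (r i)) * ∏ i, ν (r i) t ≤
      2 * ∏ i, κ (r i) + (1 / (β * R)) ^ m * max 0 (𝔼 t, ∏ i, ν (r i) t - 2) := by
    intro r
    rw [← mul_expect]
    have a0 : 0 ≤ ∏ i, κ (r i) := prod_nonneg fun i _ => h0 _
    have a1 : ∏ i, κ (r i) ≤ (1 / (β * R)) ^ m := by
      calc ∏ i, κ (r i) ≤ ∏ _i : Fin m, 1 / (β * (R : ℝ)) := prod_le_prod (fun i _ => h0 _) fun i _ => h2 _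
        _ = _ := by rw [prod_const, card_univ, Fintype.card_fin]
    have a2 : 𝔼 t, ∏ i, ν (r i) t ≤ 2 + max 0 (𝔼 t, ∏ i, ν (r i) t - 2) := by
      have := le_max_right 0 (𝔼 t, ∏ i, ν (r i) t - 2)
      linarith
    have a3 := le_max_left 0 (𝔼 t, ∏ i, ν (r i) t - 2)
    nlinarith
  refine (sum_le_sum fun r _ => e2 r).trans ?_
  rw [sum_add_distrib, ← mul_sum, ← mul_sum]
  have e3 : ∑ r : Fin m → Fin R, ∏ i, κ (r i) = 1 := by
    have := Finset.sum_pow' (s := (univ : Finset (Fin R))) κ m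
    rw [Fintype.piFinset_univ, h1, one_pow] at this
    exact this.symm
  rw [e3, mul_one]
  have e4 : ∑ r : Fin m → Fin R, max 0 (𝔼 t, ∏ i, ν (r i) t - 2) ≤ (R : ℝ) ^ m * E := by
    rw [Fintype.expect_eq_sum_div_card, hcard, div_le_iff₀ (by positivity)] at hE
    linarith
  have e5 : (1 / (β * R)) ^ m * ((R : ℝ) ^ m * E) = (1 / β) ^ m * E := by
    rw [← mul_assoc, ← mul_pow]
    congr 2
    field_simp
  have := mul_le_mul_of_nonneg_left e4 (show 0 ≤ (1 / (β * (R : ℝ))) ^ m by positivity)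
  linarith

section
variable {M C w N : ℕ} {η : ℝ}

lemma PsB_fin {w N J : ℕ} (k : ℤ → ℝ) (u x : ℕ) :
    PsB w N J k u x = ∑ v : Fin (2 * J + 1), k ((v.val : ℤ) - J) * Fp w N (u + Wn w * v.val + Wn w * x) := by
  unfold PsB
  rw [Finset.sum_range]

theorem mom (h : LI M C (C + 3) w N η) (hp : S_PS1) (hw : 1 ≤ w) (hη0 : 0 ≤ η) (hη : η ≤ 1 / 2)
    {β κ : ℝ} {n J : ℕ} {θ : Fin n → ℝ} {k : ℤ → ℝ} (hB : BD β κ n J θ k) (hβ : 0 < β) {lam : ℝ}
    (hlam : 4 * Real.log N ≤ lam * J) (hl0 : 0 ≤ lam) (hl1 : lam ≤ 1) {m : ℕ} (hm : m ≤ M) (hm1 : 1 ≤ m) (u : ℕ) :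
    𝔼 t : Fin (N / Wn w), PsB w N J k u t ^ m ≤ K0c C ^ m * (2 + (1 / β) ^ m * excA m w lam) := by
  have hT := Wn_le_nonempty h.wn
  have hK0 : 0 ≤ K0c C := by
    have := two_le_K C (C + 3)
    unfold K0c
    linarith
  have hth0 := theta0 C
  obtain ⟨-, -, p3⟩ := h.ps hp hw (by linarith) hη0 (by linarith) (PK_cls0 w (2 * J + 1) u) (lam := lam) (by omega)
    (by
      push_cast
      nlinarith [Nat.cast_nonneg (α := ℝ) J]) hl1
  have hex := p3 m hm hm1 (by linarith)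
  have h1 := spread (R := 2 * J + 1) (m := m) (T := Fin (N / Wn w)) (by omega)
    (fun v t => nuc w (yx C (C + 3) N) N (u + Wn w * v.val) t) (fun v => k ((v.val : ℤ) - J)) (fun v => hB.nn _)
    (by rw [← hB.on, Finset.sum_range]) hβ (fun v => by
      have := hB.le ((v.val : ℤ) - J)
      push_cast
      exact this) hex
  have h2 : ∀ t : Fin (N / Wn w), PsB w N J k u t ^ m ≤
      K0c C ^ m * (∑ v : Fin (2 * J + 1), k ((v.val : ℤ) - J) * nuc w (yx C (C + 3) N) N (u + Wn w * v.val) t) ^ m := by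
    intro t
    rw [← mul_pow]
    refine pow_le_pow_left₀ (PsB_nonneg hB _ _ _ _) ?_ m
    rw [PsB_fin, mul_sum]
    refine sum_le_sum fun v _ => ?_
    calc k ((v.val : ℤ) - J) * Fp w N (u + Wn w * v.val + Wn w * t) ≤
          k ((v.val : ℤ) - J) * (K0c C * gy w (yx C (C + 3) N) (u + Wn w * v.val + Wn w * t)) :=
          mul_le_mul_of_nonneg_left (h.fp _) (hB.nn _)
      _ = K0c C * (k ((v.val : ℤ) - J) * nuc w (yx C (C + 3) N) N (u + Wn w * v.val) t) := by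
          unfold nuc
          ring
  refine (expect_le_expect fun t _ => h2 t).trans ?_
  rw [← mul_expect]
  exact mul_le_mul_of_nonneg_left h1 (by positivity)

/-- the mean value of the primes in a progression -/
lemma mean_prog (h : LI M C (C + 3) w N η) (hη : η ≤ 1 / 2) (hM : 1 ≤ M) (u : ℕ) :
    𝔼 t : Fin (N / Wn w), Fp w N (u + Wn w * t) ≤ 2 * K0c C := by
  have hT := Wn_le_nonempty h.wn
  have hK0 : 0 ≤ K0c C := by
    have := two_le_K C (C + 3)
    unfold K0c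
    linarith
  have hth0 := theta0 C
  have h1 := (h.fl 1 hM (fun _ => true) (fun _ => u) 1 one_ne_zero
    (fun p _ _ i j hij _ => absurd (Subsingleton.elim i j) hij)).2
  have h2 : 𝔼 t : Fin (N / Wn w), gy w (yx C (C + 3) N) (u + Wn w * t) ≤ 2 := by
    have e : 𝔼 t : Fin (N / Wn w), gy w (yx C (C + 3) N) (u + Wn w * t) =
        𝔼 t : Fin (N / Wn w), ∏ i : Fin 1, (if (fun _ : Fin 1 => true) i = true then
          gy w (yx C (C + 3) N) ((fun _ : Fin 1 => u) i + Wn w * t) else 1) :=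
      expect_congr rfl fun t _ => by simp
    rw [e]
    refine h1.trans ?_
    rw [sg_one]
    linarith
  calc 𝔼 t : Fin (N / Wn w), Fp w N (u + Wn w * t) ≤
        𝔼 t : Fin (N / Wn w), K0c C * gy w (yx C (C + 3) N) (u + Wn w * t) := expect_le_expect fun t _ => h.fp _
    _ = K0c C * 𝔼 t : Fin (N / Wn w), gy w (yx C (C + 3) N) (u + Wn w * t) := (mul_expect _ _ _).symm
    _ ≤ K0c C * 2 := mul_le_mul_of_nonneg_left h2 hK0
    _ = _ := by ring

end

/-- the mean value of the model of a class -/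
lemma mean_PsB {β κ : ℝ} {n J w N : ℕ} {θ : Fin n → ℝ} {k : ℤ → ℝ} (hB : BD β κ n J θ k) (c o : ℕ) :
    |𝔼 t : Fin (N / Wn w), PsB w N J k (c + Wn w * o) t - 𝔼 t : Fin (N / Wn w), Fp w N (c + Wn w * t)| ≤
      trT w N (o + 2 * J) (Real.log N) := by
  have hlog := Real.log_natCast_nonneg N
  have e1 : 𝔼 t : Fin (N / Wn w), PsB w N J k (c + Wn w * o) t = ∑ v ∈ range (2 * J + 1), k ((v : ℤ) - J) *
      𝔼 t : Fin (N / Wn w), Fp w N (c + Wn w * (t + (o + v))) := by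
    unfold PsB
    rw [expect_sum_comm]
    refine sum_congr rfl fun v _ => ?_
    rw [mul_expect]
    refine expect_congr rfl fun t _ => ?_
    congr 2
    ring
  have e2 : 𝔼 t : Fin (N / Wn w), Fp w N (c + Wn w * t) = ∑ v ∈ range (2 * J + 1), k ((v : ℤ) - J) *
      𝔼 t : Fin (N / Wn w), Fp w N (c + Wn w * t) := by
    rw [← sum_mul, hB.on, one_mul]
  rw [e1, e2, ← sum_sub_distrib]
  refine (abs_sum_le_sum_abs _ _).trans ?_
  calc _ ≤ ∑ v ∈ range (2 * J + 1), k ((v : ℤ) - J) * trT w N (o + 2 * J) (Real.log N) := by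
        refine sum_le_sum fun v hv => ?_
        rw [mem_range] at hv
        rw [← mul_sub, abs_mul, abs_of_nonneg (hB.nn _)]
        refine mul_le_mul_of_nonneg_left ?_ (hB.nn _)
        refine (shiftT (T := N / Wn w) (o + v) (fun x => Fp w N (c + Wn w * x)) (Real.log N)
          (fun x => Fp_nonneg _ _ _) (fun x => Fp_le _ _ _)).trans ?_
        unfold trT
        refine div_le_div_of_nonneg_right (mul_le_mul_of_nonneg_right ?_ hlog) (Nat.cast_nonneg _)
        exact_mod_cast (by omega : o + v ≤ o + 2 * J)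
    _ = _ := by rw [← sum_mul, hB.on, one_mul]

/-- the mean value of the truncated model -/
lemma mean_min {T : Type} [Fintype T] [Nonempty T] {x : T → ℝ} (hx : ∀ t, 0 ≤ x t) {K Mj : ℝ} (hK : 1 ≤ K) {j : ℕ}
    (h : 𝔼 t, x t ^ (j + 2) ≤ Mj) : 𝔼 t, x t - Mj / K ^ (j + 1) ≤ 𝔼 t, min (x t) K ∧ 𝔼 t, min (x t) K ≤ 𝔼 t, x t := by
  constructor
  · have h1 : 𝔼 t, x t - 𝔼 t, min (x t) K ≤ Mj / K ^ (j + 1) := by
      rw [← expect_sub_distrib]
      refine (expect_le_expect fun q _ => trunc_one (hx q) hK j).trans ?_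
      rw [← expect_div]
      exact div_le_div_of_nonneg_right h (by positivity)
    linarith
  · exact expect_le_expect fun t _ => min_le_left _ _

/-! ### pseudorandomness along the positions -/

theorem psr {M C b w N : ℕ} {η : ℝ} (h : LI M C b w N η) (hPS : S_PSg) (hPO : S_PO) (hw : 1 ≤ w)
    (hb : 4 * (1 / 2 : ℝ) ^ b ≤ 1) (hη0 : 0 ≤ η) (hη : η ≤ 1) {X lam : ℝ} (hX0 : 0 ≤ X) (hX1 : X ≤ 1)
    (hX : ∀ m ≤ M, (Vv w)⁻¹ ^ m * XA m w ≤ X) {L J : ℕ} (hL : 1 ≤ L) (hlam : 4 * Real.log N ≤ lam * L)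
    (hl1 : lam ≤ 1) :
    (∀ m ≤ M, MB (fun (z : kap w (Wn w) × Fin L) t => nuc w (yx C b N) N (po z + Wn w * J) t) (fun _ _ => 1) (BX m) m) ∧
    (∀ m ≤ M, 1 ≤ m → PR (fun (z : kap w (Wn w) × Fin L) t => nuc w (yx C b N) N (po z + Wn w * J) t) (fun _ _ => 1)
      (X + 2 * (4 * (1 / 2 : ℝ) ^ b) + η + (m : ℝ) ^ 2 / w + (m : ℝ) ^ 2 * lam * (BX (m - 1) + 1)) m) := by
  classical
  have hT := Wn_le_nonempty h.wn
  have hne : Nonempty (kap w (Wn w)) := kap_nonempty (Wn_pos w)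
  have hLe : Nonempty (Fin L) := ⟨⟨0, hL⟩⟩
  have hLp : (0 : ℝ) < L := by exact_mod_cast hL
  have hcard : (L : ℝ) ≤ (Fintype.card (kap w (Wn w) × Fin L) : ℝ) := by
    rw [Fintype.card_prod, Fintype.card_fin]
    have : 1 ≤ Fintype.card (kap w (Wn w)) := Fintype.card_pos
    exact_mod_cast Nat.le_mul_of_pos_left L this
  have hlog : 0 ≤ Real.log N := Real.log_natCast_nonneg N
  have hlam0 : 0 ≤ lam := by
    by_contra hcon
    push Not at hcon
    nlinarith
  have hwp : (1 : ℝ) ≤ w := by exact_mod_cast hw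
  obtain ⟨q1, q2, -⟩ := hPS (kap w (Wn w) × Fin L) (Fin (N / Wn w))
    (fun z t => nuc w (yx C b N) N (po z + Wn w * J) t) (fun m r => sg w (3 ^ m) (dsc (fun i => po (r i))))
    (Vv w / Vv (yx C b N)) lam (4 * (1 / 2 : ℝ) ^ b) η X w M hwp h.l1 (fun s q => gy_nonneg _ _ _)
    (fun s q => gy_le _ _ _) (by
      rw [div_le_iff₀ (by linarith)]
      refine h.l2.trans (hlam.trans ?_)
      exact mul_le_mul_of_nonneg_left hcard hlam0) hl1 (by positivity) hb hη0 hη hX0 hX1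
    (fun m _ r => sg_one_le (by positivity) _)
    (fun m hm => (hPO.2.2.1 w L m hw hL).trans (hX m hm))
    (fun m hm a r hr => by
      have e : 𝔼 q, pp (fun (z : kap w (Wn w) × Fin L) t => nuc w (yx C b N) N (po z + Wn w * J) t) (fun _ _ => 1) a r q =
          𝔼 t : Fin (N / Wn w), ∏ i, (if a i = true then gy w (yx C b N) ((po (r i) + Wn w * J) + Wn w * t) else 1) :=
        expect_congr rfl fun t _ => pp_nuc (fun z : kap w (Wn w) × Fin L => po z + Wn w * J) a r t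
      rw [e]
      refine h.fl m hm a (fun i => po (r i) + Wn w * J) (dsc (fun i => po (r i))) (FLA.dsc_ne _)
        fun p hp hwp i j hij hd => ?_
      have h3 : po (r i) ≠ po (r j) := fun h4 => hij (hr (hPO.2.1 w L h4))
      have h4 : ed (po (r i)) (po (r j)) = Nat.dist (po (r i)) (po (r j)) := by
        unfold ed
        rw [if_neg h3]
      have h5 : Nat.dist (po (r i) + Wn w * J) (po (r j) + Wn w * J) = Nat.dist (po (r i)) (po (r j)) :=
        Nat.dist_add_add_right _ _ _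
      rw [h5, ← h4] at hd
      exact hd.trans (FLA.ed_dvd_dsc (fun i => po (r i)) i j))
  exact ⟨q1, q2⟩

/-- the cut norm over all positions from the cut norms of the classes -/
lemma cut_prod {U T : Type} [Fintype U] [Nonempty U] [Fintype T] [Nonempty T] {L : ℕ} (hL : 1 ≤ L)
    (g : U × Fin L → T → ℝ) {ε : ℝ}
    (h : ∀ c, ∀ b : Fin L → ℝ, (∀ s, |b s| ≤ 1) → 𝔼 t, (𝔼 s, b s * g (c, s) t) ^ 2 ≤ ε)
    (b : U × Fin L → ℝ) (hb : ∀ z, |b z| ≤ 1) : 𝔼 t, (𝔼 z, b z * g z t) ^ 2 ≤ ε := by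
  have hLe : Nonempty (Fin L) := ⟨⟨0, hL⟩⟩
  have h1 : ∀ t, (𝔼 z, b z * g z t) ^ 2 ≤ 𝔼 c, (𝔼 s, b (c, s) * g (c, s) t) ^ 2 := by
    intro t
    rw [exp_prod]
    have hc : (0 : ℝ) < Fintype.card U := by exact_mod_cast Fintype.card_pos
    have h3 : (∑ c, (𝔼 s, b (c, s) * g (c, s) t)) ^ 2 ≤
        (Fintype.card U : ℝ) * ∑ c, (𝔼 s, b (c, s) * g (c, s) t) ^ 2 := by
      have := sq_sum_le_card_mul_sum_sq (s := (univ : Finset U)) (f := fun c => 𝔼 s, b (c, s) * g (c, s) t)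
      rwa [card_univ] at this
    rw [Fintype.expect_eq_sum_div_card, Fintype.expect_eq_sum_div_card, div_pow, div_le_div_iff₀ (by positivity) hc]
    calc _ ≤ (Fintype.card U : ℝ) * (∑ c, (𝔼 s, b (c, s) * g (c, s) t) ^ 2) * Fintype.card U :=
          mul_le_mul_of_nonneg_right h3 hc.le
      _ = _ := by ring
  refine (expect_le_expect fun t _ => h1 t).trans ?_
  rw [expect_comm]
  exact expect_le univ_nonempty fun c _ => h c (fun s => b (c, s)) (fun s => hb (c, s))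

end Pool.Agent.NH16.BT
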