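import Pool.Agent.NH16.BT.E4

set_option autoImplicit false
set_option linter.unusedSectionVars false
set_option linter.unusedVariables false

/-!
# The counting theorem with Bohr sets
-/

namespace Pool.Agent.NH16.BT

open Finset Filter Topology
open scoped BigOperators
open Pool.Agent.NH16.DL Pool.Agent.NH16.SM

/-- the truncated model -/
noncomputable def Xm (w N J : ℕ) (k : ℤ → ℝ) (Kc : ℝ) (u x : ℕ) : ℝ := min (PsB w N J k u x) Kc

lemma one_le_BX (m : ℕ) : 1 ≤ BX m := by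
  induction m with
  | zero => simp [BX]
  | succ m ih =>
    rw [BX]
    have h : (0 : ℝ) ≤ ((m : ℝ) + 1) * m * BX m := by positivity
    linarith

/-- the conclusion of `cls` -/
def ClsHyp : Prop := ∀ ε : ℝ, 0 < ε → ∃ (g n : ℕ) (β κ : ℝ), 1 ≤ g ∧ 0 < β ∧ 0 < κ ∧
    ∃ lam0 : ℝ, 0 < lam0 ∧ lam0 ≤ 1 ∧ ∃ w0 : ℕ, ∀ w : ℕ, w0 ≤ w → ∀ ε' : ℝ, 0 < ε' → ∀ᶠ N : ℕ in atTop,
      ∀ c L' J : ℕ, 1 ≤ J → g * J ≤ L' → 4 * Real.log N ≤ lam0 * L' → (L' : ℝ) ≤ (N : ℝ) ^ (1 - ε') →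
      ∃ (θ : Fin n → ℝ) (k : ℤ → ℝ), BD β κ n J θ k ∧ ∀ b : Fin L' → ℝ, (∀ s, |b s| ≤ 1) →
        𝔼 t : Fin (N / Wn w), (𝔼 s, b s * (Fp w N (c + Wn w * (s.val + J) + Wn w * t) -
          PsB w N J k (c + Wn w * s.val) t)) ^ 2 ≤ ε

theorem coreB (hCls : ClsHyp) (hPS1 : S_PS1) (hPSg : S_PSg) (hPO : S_PO) (hXV : S_XV) (hCN : S_CN) (hMN : S_MN)
    {R C : ℕ} (hC : 1 ≤ C)
    (hLI : ∀ b : ℕ, C ≤ b → ∀ η : ℝ, 0 < η → ∀ w : ℕ, 1 ≤ w → ∀ᶠ N : ℕ in atTop, LI (2 * R + 6) C b w N η) :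
    ∀ δ : ℝ, 0 < δ → ∃ Kc : ℝ, 1 ≤ Kc ∧ ∃ (g n : ℕ) (β κ : ℝ), 1 ≤ g ∧ 0 < β ∧ 0 < κ ∧
    ∃ lam0 : ℝ, 0 < lam0 ∧ lam0 ≤ 1 ∧ ∃ w0 : ℕ, ∀ w : ℕ, w0 ≤ w → ∀ ε' : ℝ, 0 < ε' → ∀ᶠ N : ℕ in atTop,
      ∀ L J : ℕ, 1 ≤ J → g * J ≤ L → 4 * Real.log N ≤ lam0 * J → (L : ℝ) ≤ (N : ℝ) ^ (1 - ε') →
      ∃ (θ : kap w (Wn w) → Fin n → ℝ) (k : kap w (Wn w) → ℤ → ℝ), (∀ c, BD β κ n J (θ c) (k c)) ∧
        (∀ o : kap w (Wn w) → ℕ, (∀ c, o c ≤ L) →
          |𝔼 c : kap w (Wn w), 𝔼 t : Fin (N / Wn w), Xm w N J (k c) Kc ((c : ℕ) + Wn w * o c) t - 1| ≤ δ) ∧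
        ∀ n' ≤ R, (∀ (c : kap w (Wn w)) (u : ℕ),
          𝔼 t : Fin (N / Wn w), Xm w N J (k c) Kc u t ^ (n' + 1) ≤ 3 * K0c C ^ (n' + 1)) ∧
          𝔼 r : Fin (n' + 1) → kap w (Wn w) × Fin L,
            |𝔼 t : Fin (N / Wn w), ∏ i, Fp w N (po (r i) + Wn w * J + Wn w * t) -
              𝔼 t : Fin (N / Wn w), ∏ i, Xm w N J (k (r i).1) Kc (po (r i)) t| ≤ δ := by
  intro δ hδ
  set m : ℕ := 2 * R + 2 with hm
  set M : ℕ := 2 * R + 6 with hM
  have hK02 : 2 ≤ K0c C := two_le_K C (C + 3)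
  set Mj : ℝ := 3 * K0c C ^ (m + 2) with hMj
  have hMj0 : 0 < Mj := by positivity
  set B : ℝ := ∑ n ∈ range (R + 1), BX n + BX 2 with hB
  have hB2 : 1 ≤ BX 2 := one_le_BX 2
  have hBn : ∀ n ≤ R, BX n ≤ B := by
    intro n hn
    have : BX n ≤ ∑ n ∈ range (R + 1), BX n :=
      single_le_sum (f := BX) (fun i _ => by linarith [one_le_BX i]) (mem_range.2 (by omega))
    linarith
  have hBB2 : BX 2 ≤ B := by
    have : 0 ≤ ∑ n ∈ range (R + 1), BX n := sum_nonneg fun i _ => by linarith [one_le_BX i]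
    linarith
  have hB0 : 0 < B := by linarith
  set P : ℝ := (R + 1 : ℝ) with hP
  have hP1 : 1 ≤ P := by rw [hP]; have := Nat.cast_nonneg (α := ℝ) R; linarith
  -- choice of b
  have t1 : Tendsto (fun b : ℕ => (8 * P ^ 2 * B) ^ 2 * B * 4 * 4 * 1 * ((2 / ke C b) ^ (4 * R + 4) * (1 / 2 : ℝ) ^ b))
      atTop (𝓝 0) := by
    have h := (Kpow C (4 * R + 4) hC).const_mul ((8 * P ^ 2 * B) ^ 2 * B * 4 * 4 * 1)
    rwa [mul_zero] at h
  have t2 : Tendsto (fun b : ℕ => (2 / ke C b)) atTop atTop :=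
    tendsto_atTop_mono (fun b => K_ge_b C b hC) tendsto_natCast_atTop_atTop
  obtain ⟨b, hb1, hb2, hb3, hb4, hb5⟩ := ((le_of_ev t1 (t := δ ^ 4 / 9) (by positivity)).and
    ((t2.eventually_ge_atTop (6 * P ^ 2 * B * Mj / δ ^ 2)).and ((t2.eventually_ge_atTop (2 * Mj / δ)).and
    ((eventually_ge_atTop C).and (eventually_ge_atTop 3))))).exists
  set K : ℝ := 2 / ke C b with hK
  have hK2 : 2 ≤ K := two_le_K C b
  set θ : ℝ := 4 * (1 / 2 : ℝ) ^ b with hθ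
  have hθ0 : 0 < θ := by positivity
  have hθ1 : θ ≤ 1 / 2 := by
    have : (1 / 2 : ℝ) ^ b ≤ (1 / 2 : ℝ) ^ 3 := pow_le_pow_of_le_one (by norm_num) (by norm_num) hb5
    rw [hθ]
    norm_num at this ⊢
    linarith
  set εc : ℝ := δ ^ 2 / (6 * (P ^ 2 * K ^ (2 * R) * B)) with hεc
  have hεc0 : 0 < εc := by positivity
  obtain ⟨g, n, β, κ, hg, hβ, hκ, lamc, hlamc0, hlamc1, wc, hcls⟩ := hCls εc hεc0
  set Bβ : ℝ := (1 + 1 / β) ^ M with hBβ
  have hβi : 0 < 1 / β := by positivity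
  have hBβ1 : 1 ≤ Bβ := one_le_pow₀ (by linarith)
  have hβm : ∀ i ≤ M, (1 / β) ^ i ≤ Bβ := fun i hi =>
    (pow_le_pow_left₀ hβi.le (by linarith) i).trans (pow_le_pow_right₀ (by linarith) hi)
  set SB : ℝ := ∑ i ∈ range (M + 1), (BX i + BB i) with hSB
  have hSBi : ∀ i ≤ M, BX i ≤ SB ∧ BB i ≤ SB := by
    intro i hi
    have : BX i + BB i ≤ SB :=
      single_le_sum (f := fun i => BX i + BB i) (fun i _ => by
        have := one_le_BX i
        have := one_le_BB i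
        show (0 : ℝ) ≤ BX i + BB i
        linarith) (mem_range.2 (by omega))
    have h1 := one_le_BX i
    have h2 := one_le_BB i
    constructor <;> linarith
  have hSB1 : 1 ≤ SB := (one_le_BX 0).trans (hSBi 0 (Nat.zero_le _)).1
  have hMp : (0 : ℝ) < M := by rw [hM]; positivity
  set lam0 : ℝ := min lamc (min (θ / (2 * ((M : ℝ) ^ 2 * (SB + 1)))) (1 / (2 * ((M : ℝ) ^ 2 * SB * Bβ)))) with hlam0
  have hlam0p : 0 < lam0 := lt_min hlamc0 (lt_min (by positivity) (by positivity))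
  have hl1 : (M : ℝ) ^ 2 * lam0 * (SB + 1) ≤ θ / 2 := by
    have : lam0 ≤ θ / (2 * ((M : ℝ) ^ 2 * (SB + 1))) := (min_le_right _ _).trans (min_le_left _ _)
    rw [le_div_iff₀ (by positivity)] at this
    linarith
  have hl2 : (M : ℝ) ^ 2 * lam0 * SB * Bβ ≤ 1 / 2 := by
    have : lam0 ≤ 1 / (2 * ((M : ℝ) ^ 2 * SB * Bβ)) := (min_le_right _ _).trans (min_le_right _ _)
    rw [le_div_iff₀ (by positivity)] at this
    linarith
  have hlam1 : lam0 ≤ 1 := (min_le_left _ _).trans hlamc1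
  set X0 : ℝ := min (θ / 4) (1 / (4 * Bβ)) with hX0
  have hX0p : 0 < X0 := lt_min (by positivity) (by positivity)
  have hX0θ : X0 ≤ θ / 4 := min_le_left _ _
  have hX0β : X0 * Bβ ≤ 1 / 4 := by
    have : X0 ≤ 1 / (4 * Bβ) := min_le_right _ _
    rw [le_div_iff₀ (by positivity)] at this
    linarith
  have e3 : ∀ᶠ w : ℕ in atTop, ∀ i ∈ range (M + 1), (Vv w)⁻¹ ^ i * XA i w ≤ X0 :=
    (eventually_all_finset _).2 fun i _ => le_of_ev (hXV i).1 hX0p
  have e4 : ∀ᶠ w : ℕ in atTop, (M : ℝ) ^ 2 / w ≤ θ / 4 :=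
    le_of_ev (tendsto_const_div_atTop_nhds_zero_nat _) (by positivity)
  obtain ⟨w0, hw0⟩ := eventually_atTop.1 (e3.and (e4.and ((eventually_ge_atTop 1).and
    (eventually_ge_atTop wc))))
  refine ⟨K, by linarith, g, n, β, κ, hg, hβ, hκ, lam0, hlam0p, hlam1, w0, fun w hw ε' hε' => ?_⟩
  obtain ⟨g3, g4, g5, g7⟩ := hw0 w hw
  set η : ℝ := min (1 / 2) (θ / 4) with hη
  have hηp : 0 < η := lt_min (by norm_num) (by positivity)
  have hη1 : η ≤ 1 / 2 := min_le_left _ _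
  have hη2 : η ≤ θ / 4 := min_le_right _ _
  filter_upwards [hLI (C + 3) (by omega) (1 / 2) (by norm_num) w g5, hLI b hb4 η hηp w g5,
    eventually_ge_atTop 3, hcls w g7 ε' hε', hMN w 1 (δ / 4) ε' (by positivity) hε',
    trT_small w hε' 3 1 (t := δ / 4) (by positivity)]
    with N hV0 hV1 hN hclN hmean htr L J hJ hgJ hJlog hLN
  have hlogN : 1 ≤ Real.log N := by
    rw [Real.le_log_iff_exp_le (by positivity)]
    have h3 : (3 : ℝ) ≤ N := by exact_mod_cast hN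
    linarith [Real.exp_one_lt_d9]
  have hJL : J ≤ L := (Nat.le_mul_of_pos_left J hg).trans hgJ
  have hL1 : 1 ≤ L := hJ.trans hJL
  have hJp : (0 : ℝ) < J := by exact_mod_cast hJ
  have hJLr : (J : ℝ) ≤ L := by exact_mod_cast hJL
  have hT := Wn_le_nonempty hV0.wn
  have hUe : Nonempty (kap w (Wn w)) := kap_nonempty (Wn_pos w)
  have hLe : Nonempty (Fin L) := ⟨⟨0, hL1⟩⟩
  -- the data of the classes
  have hex : ∀ c : kap w (Wn w), ∃ (θ : Fin n → ℝ) (k : ℤ → ℝ), BD β κ n J θ k ∧ ∀ b : Fin L → ℝ, (∀ s, |b s| ≤ 1) →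
        𝔼 t : Fin (N / Wn w), (𝔼 s, b s * (Fp w N ((c : ℕ) + Wn w * (s.val + J) + Wn w * t) -
          PsB w N J k ((c : ℕ) + Wn w * s.val) t)) ^ 2 ≤ εc := fun c =>
    hclN c L J hJ hgJ (by
      refine hJlog.trans ?_
      exact mul_le_mul (min_le_left _ _) hJLr hJp.le hlamc0.le) hLN
  choose ϑ k hBD hcut using hex
  have hmomq : ∀ (c : kap w (Wn w)) (u i : ℕ), 1 ≤ i → i ≤ M →
      𝔼 t : Fin (N / Wn w), PsB w N J (k c) u t ^ i ≤ 3 * K0c C ^ i := by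
    intro c u i hi1 hiM
    refine (mom hV0 hPS1 g5 (by norm_num) (by norm_num) (hBD c) hβ hJlog hlam0p.le hlam1 hiM hi1 u).trans ?_
    rw [mul_comm]
    refine mul_le_mul_of_nonneg_right ?_ (by positivity)
    have a1 : excA i w lam0 ≤ 2 * X0 + (M : ℝ) ^ 2 * lam0 * SB := by
      unfold excA
      have b1 : XA i w ≤ X0 := by
        have c1' := g3 i (mem_range.2 (by omega))
        have c2' : 1 ≤ (Vv w)⁻¹ ^ i := one_le_pow₀ ((one_le_inv₀ (Vv_pos w)).2 (Vv_le_one w))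
        have c3' := XA_nonneg i w
        nlinarith
      have b2 : (i : ℝ) ^ 2 * lam0 * BB (i - 1) ≤ (M : ℝ) ^ 2 * lam0 * SB := by
        have c1' : (i : ℝ) ^ 2 ≤ (M : ℝ) ^ 2 := pow_le_pow_left₀ (Nat.cast_nonneg _) (by exact_mod_cast hiM) 2
        have c2' := (hSBi (i - 1) (by omega)).2
        have c3' := one_le_BB (i - 1)
        exact mul_le_mul (mul_le_mul_of_nonneg_right c1' hlam0p.le) c2' (by linarith) (by positivity)
      linarith
    have a2 : (1 / β) ^ i * excA i w lam0 ≤ Bβ * (2 * X0 + (M : ℝ) ^ 2 * lam0 * SB) := by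
      refine mul_le_mul (hβm i hiM) a1 ?_ (by linarith)
      unfold excA
      have := XA_nonneg i w
      have := one_le_BB (i - 1)
      positivity
    nlinarith
  -- pseudorandomness
  obtain ⟨q1, q2⟩ := psr hV1 hPSg hPO g5 (by linarith) hηp.le (by linarith) hX0p.le (by linarith)
    (fun i hi => g3 i (mem_range.2 (by omega))) (L := L) (J := J) (lam := lam0) hL1
    (hJlog.trans (mul_le_mul_of_nonneg_left hJLr hlam0p.le)) hlam1
  have hcutU := cut_prod (U := kap w (Wn w)) (T := Fin (N / Wn w)) hL1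
    (fun z t => Fp w N (po z + Wn w * J + Wn w * t) - PsB w N J (k z.1) (po z) t) (ε := εc) (by
      intro c b' hb'
      have h1 := hcut c b' hb'
      refine le_trans (le_of_eq ?_) h1
      refine expect_congr rfl fun t _ => ?_
      congr 1
      refine expect_congr rfl fun s _ => ?_
      congr 1
      unfold po
      congr 1
      congr 1
      ring)
  refine ⟨ϑ, k, hBD, fun o ho => ?_, fun n' hn' => ⟨fun c u => ?_, ?_⟩⟩
  · -- the mean value
    have hx : Mj / K ^ (m + 1) ≤ δ / 2 := by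
      have h1 : K ≤ K ^ (m + 1) := le_self_pow₀ (by linarith) (by omega)
      have h2 : 2 * Mj / δ ≤ K ^ (m + 1) := hb3.trans h1
      rw [div_le_iff₀ hδ] at h2
      rw [div_le_div_iff₀ (by positivity) (by positivity)]
      linarith
    have a1 : ∀ c : kap w (Wn w), |𝔼 t : Fin (N / Wn w), Xm w N J (k c) K ((c : ℕ) + Wn w * o c) t -
        𝔼 t : Fin (N / Wn w), Fp w N ((c : ℕ) + Wn w * t)| ≤ 3 * δ / 4 := by
      intro c
      have b1 := mean_min (x := fun t : Fin (N / Wn w) => PsB w N J (k c) ((c : ℕ) + Wn w * o c) t)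
        (fun t => PsB_nonneg (hBD c) _ _ _ _) (K := K) (by linarith) (j := m) (Mj := Mj)
        (hmomq c _ (m + 2) (by omega) (by omega))
      have b2 := abs_le.1 (mean_PsB (w := w) (N := N) (hBD c) (c : ℕ) (o c))
      have b3 : trT w N (o c + 2 * J) (Real.log N) ≤ δ / 4 := by
        have := htr (o c + 2 * J) (by
          have h1 : o c + 2 * J ≤ 3 * L := by have := ho c; omega
          calc ((o c + 2 * J : ℕ) : ℝ) ≤ ((3 * L : ℕ) : ℝ) := by exact_mod_cast h1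
            _ = (3 : ℕ) * L := by push_cast; ring
            _ ≤ _ := mul_le_mul_of_nonneg_left hLN (Nat.cast_nonneg _))
        rwa [pow_one] at this
      unfold Xm
      rw [abs_le]
      constructor <;> linarith [b1.1, b1.2, b2.1, b2.2]
    have a2 : |𝔼 c : kap w (Wn w), 𝔼 t : Fin (N / Wn w), Fp w N ((c : ℕ) + Wn w * t) - 1| ≤ δ / 4 := by
      have := hmean 0 (by
        push_cast
        positivity)
      simpa using this
    have a3 : |𝔼 c : kap w (Wn w), 𝔼 t : Fin (N / Wn w), Xm w N J (k c) K ((c : ℕ) + Wn w * o c) t -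
        𝔼 c : kap w (Wn w), 𝔼 t : Fin (N / Wn w), Fp w N ((c : ℕ) + Wn w * t)| ≤ 3 * δ / 4 := by
      rw [← expect_sub_distrib]
      exact (abs_expect_le _ _).trans (expect_le univ_nonempty fun c _ => a1 c)
    have := abs_sub_le (𝔼 c : kap w (Wn w), 𝔼 t : Fin (N / Wn w), Xm w N J (k c) K ((c : ℕ) + Wn w * o c) t)
      (𝔼 c : kap w (Wn w), 𝔼 t : Fin (N / Wn w), Fp w N ((c : ℕ) + Wn w * t)) 1
    linarith
  · refine (expect_le_expect fun t _ => ?_).trans (hmomq c u (n' + 1) (by omega) (by omega))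
    exact pow_le_pow_left₀ (le_min (PsB_nonneg (hBD c) _ _ _ _) (by linarith)) (min_le_left _ _) _
  · have hmom : 𝔼 z : kap w (Wn w) × Fin L, 𝔼 t : Fin (N / Wn w), PsB w N J (k z.1) (po z) t ^ (m + 2) ≤ Mj :=
      expect_le univ_nonempty fun z _ => hmomq z.1 (po z) (m + 2) (by omega) (by omega)
    have hMBn : MB (fun (z : kap w (Wn w) × Fin L) t => nuc w (yx C b N) N (po z + Wn w * J) t) (fun _ _ => 1) B n' :=
      fun a => (q1 n' (by omega) a).trans (hBn n' hn')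
    have hMB2 : MB (fun (z : kap w (Wn w) × Fin L) t => nuc w (yx C b N) N (po z + Wn w * J) t) (fun _ _ => 1) B 2 :=
      fun a => (q1 2 (by omega) a).trans hBB2
    have htau : X0 + 2 * (4 * (1 / 2 : ℝ) ^ b) + η + ((2 * n' + 2 : ℕ) : ℝ) ^ 2 / w +
        ((2 * n' + 2 : ℕ) : ℝ) ^ 2 * lam0 * (BX (2 * n' + 2 - 1) + 1) ≤ 4 * (θ * 1) := by
      have hcast : (((2 * n' + 2 : ℕ) : ℝ)) ≤ (M : ℝ) := by exact_mod_cast (by omega : 2 * n' + 2 ≤ M)
      have a3 : (((2 * n' + 2 : ℕ) : ℝ)) ^ 2 ≤ (M : ℝ) ^ 2 := pow_le_pow_left₀ (Nat.cast_nonneg _) hcast 2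
      have a4 : (((2 * n' + 2 : ℕ) : ℝ)) ^ 2 / w ≤ θ / 4 := (div_le_div_of_nonneg_right a3 (Nat.cast_nonneg _)).trans g4
      have a5 : (((2 * n' + 2 : ℕ) : ℝ)) ^ 2 * lam0 * (BX (2 * n' + 2 - 1) + 1) ≤ θ / 2 := by
        refine le_trans ?_ hl1
        have h1 := (hSBi (2 * n' + 2 - 1) (by omega)).1
        have h2 := one_le_BX (2 * n' + 2 - 1)
        exact mul_le_mul (mul_le_mul_of_nonneg_right a3 hlam0p.le) (by linarith) (by linarith) (by positivity)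
      rw [← hθ]
      linarith
    have hPR : PR (fun (z : kap w (Wn w) × Fin L) t => nuc w (yx C b N) N (po z + Wn w * J) t) (fun _ _ => 1)
        (4 * (θ * 1)) (n' + n' + 1 + 1) := by
      have hmn : n' + n' + 1 + 1 = 2 * n' + 2 := by ring
      rw [hmn]
      exact fun a => (q2 (2 * n' + 2) (by omega) (by omega) a).trans htau
    have hcount := hCN (kap w (Wn w) × Fin L) (Fin (N / Wn w)) n' m K B (4 * (θ * 1)) εc Mj
      (fun z t => Fp w N (po z + Wn w * J + Wn w * t))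
      (fun z t => nuc w (yx C b N) N (po z + Wn w * J) t)
      (fun z t => PsB w N J (k z.1) (po z) t) (by linarith) (fun s z => Fp_nonneg _ _ _) (fun s z => hV1.fp _)
      (fun s z => gy_nonneg _ _ _) (fun z t => PsB_nonneg (hBD z.1) _ _ _ _) hmom hB0.le (by positivity) hMBn hMB2 hPR
      hcutU
    have hnum := num_est (R := R) hδ hP1 hK2 hB0 hMj0 (le_refl (1 : ℝ)) hθ hb1 hb2 hεc
    rw [← hm] at hnum
    refine le_trans hcount (le_trans ?_ hnum)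
    have hn2 : (n' : ℝ) + 1 ≤ P := by
      rw [hP]
      have : (n' : ℝ) ≤ R := by exact_mod_cast hn'
      linarith
    exact mul_le_mul hn2 (mul_le_mul_of_nonneg_right (pow_le_pow_right₀ (by linarith) hn') (Real.sqrt_nonneg _))
      (by positivity) (by linarith)

end Pool.Agent.NH16.BT
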