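import Pool.Agent.NH16.BT.E5

set_option autoImplicit false
set_option linter.unusedSectionVars false
set_option linter.unusedVariables false

/-!
# Types of shifts and the model
-/

namespace Pool.Agent.NH16.BT

open Finset Filter Topology
open scoped BigOperators
open Pool.Agent.NH16.DL Pool.Agent.NH16.SM

/-! ### almost invariance -/

lemma PsB_shift {β κ : ℝ} {n J w N : ℕ} {θ : Fin n → ℝ} {k : ℤ → ℝ} (hB : BD β κ n J θ k) (hβ : 0 < β) (u d x : ℕ)
    {ζ : ℝ} (hζ : (d : ℝ) / J + (∑ j, nrm ((d : ℝ) * θ j)) / κ ≤ ζ) :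
    |PsB w N J k (u + Wn w * d) x - PsB w N J k u x| ≤
      ∑ v ∈ range (2 * J + 1 + d), ζ / (β * (2 * J + 1)) * Fp w N (u + Wn w * v + Wn w * x) := by
  have e1 : PsB w N J k (u + Wn w * d) x = ∑ v ∈ range (2 * J + 1 + d), k ((v : ℤ) - J - d) *
      Fp w N (u + Wn w * v + Wn w * x) := by
    unfold PsB
    rw [add_comm (2 * J + 1) d, Finset.sum_range_add (fun v : ℕ => k ((v : ℤ) - J - d) *
      Fp w N (u + Wn w * v + Wn w * x)) d (2 * J + 1)]
    have h0 : ∑ v ∈ range d, k ((v : ℤ) - J - d) * Fp w N (u + Wn w * v + Wn w * x) = 0 := by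
      refine sum_eq_zero fun v hv => ?_
      rw [mem_range] at hv
      have : k ((v : ℤ) - J - d) = 0 := by
        by_contra hcon
        have := hB.su _ hcon
        rw [abs_le] at this
        omega
      rw [this, zero_mul]
    rw [h0, zero_add]
    refine sum_congr rfl fun v _ => ?_
    congr 2
    · push_cast
      ring
    · ring
  have e2 : PsB w N J k u x = ∑ v ∈ range (2 * J + 1 + d), k ((v : ℤ) - J) *
      Fp w N (u + Wn w * v + Wn w * x) := by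
    unfold PsB
    rw [Finset.sum_range_add (fun v : ℕ => k ((v : ℤ) - J) *
      Fp w N (u + Wn w * v + Wn w * x)) (2 * J + 1) d]
    have h0 : ∑ v ∈ range d, k (((2 * J + 1 + v : ℕ) : ℤ) - J) * Fp w N (u + Wn w * (2 * J + 1 + v) + Wn w * x) = 0 := by
      refine sum_eq_zero fun v hv => ?_
      have : k (((2 * J + 1 + v : ℕ) : ℤ) - J) = 0 := by
        by_contra hcon
        have := hB.su _ hcon
        rw [abs_le] at this
        push_cast at this
        omega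
      rw [this, zero_mul]
    rw [h0, add_zero]
  rw [e1, e2, ← sum_sub_distrib]
  refine (abs_sum_le_sum_abs _ _).trans (sum_le_sum fun v _ => ?_)
  rw [← sub_mul, abs_mul, abs_of_nonneg (Fp_nonneg _ _ _)]
  refine mul_le_mul_of_nonneg_right ?_ (Fp_nonneg _ _ _)
  have h1 := hB.li ((v : ℤ) - J - d) d
  have h2 : (v : ℤ) - J - d + d = (v : ℤ) - J := by ring
  rw [h2, abs_sub_comm] at h1
  refine h1.trans ?_
  rw [div_mul_eq_mul_div, one_mul]
  refine div_le_div_of_nonneg_right ?_ (by positivity)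
  refine le_trans (le_of_eq ?_) hζ
  congr 1
  · congr 1
    have : ((d : ℤ) : ℝ) = (d : ℝ) := by push_cast; rfl
    rw [this, abs_of_nonneg (Nat.cast_nonneg _)]

lemma Xm_lip (w N J : ℕ) (k : ℤ → ℝ) (Kc : ℝ) (u u' x : ℕ) :
    |Xm w N J k Kc u x - Xm w N J k Kc u' x| ≤ |PsB w N J k u x - PsB w N J k u' x| := by
  unfold Xm
  exact abs_min_sub_min_le_max _ _ _ _ |>.trans (by rw [sub_self, abs_zero, max_eq_left (abs_nonneg _)])

lemma Xm_shift {M C w N : ℕ} {η : ℝ} (h : LI M C (C + 3) w N η) (hη : η ≤ 1 / 2) (hM : 1 ≤ M)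
    {β κ : ℝ} {n J : ℕ} {θ : Fin n → ℝ} {k : ℤ → ℝ} (hB : BD β κ n J θ k) (hβ : 0 < β) (hκ : 0 < κ) (u d : ℕ) (hd : d ≤ 2 * J)
    {ζ Kc : ℝ} (hζ : (d : ℝ) / J + (∑ j, nrm ((d : ℝ) * θ j)) / κ ≤ ζ) :
    𝔼 t : Fin (N / Wn w), |Xm w N J k Kc (u + Wn w * d) t - Xm w N J k Kc u t| ≤ 4 * K0c C * (ζ / β) := by
  have hT := Wn_le_nonempty h.wn
  have hK0 : 0 ≤ K0c C := by
    have := two_le_K C (C + 3)
    unfold K0c
    linarith
  have hζ0 : 0 ≤ ζ := by
    refine le_trans ?_ hζ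
    have : ∀ j, 0 ≤ nrm ((d : ℝ) * θ j) := fun j => abs_nonneg _
    have : 0 ≤ ∑ j, nrm ((d : ℝ) * θ j) := sum_nonneg fun j _ => this j
    positivity
  have h1 : ∀ t : Fin (N / Wn w), |Xm w N J k Kc (u + Wn w * d) t - Xm w N J k Kc u t| ≤
      ∑ v ∈ range (2 * J + 1 + d), ζ / (β * (2 * J + 1)) * Fp w N (u + Wn w * v + Wn w * t) := fun t =>
    (Xm_lip w N J k Kc _ _ _).trans (PsB_shift hB hβ u d t hζ)
  refine (expect_le_expect fun t _ => h1 t).trans ?_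
  rw [expect_sum_comm]
  have h2 : ∀ v ∈ range (2 * J + 1 + d), 𝔼 t : Fin (N / Wn w), ζ / (β * (2 * J + 1)) * Fp w N (u + Wn w * v + Wn w * t) ≤
      ζ / (β * (2 * J + 1)) * (2 * K0c C) := by
    intro v _
    rw [← mul_expect]
    exact mul_le_mul_of_nonneg_left (mean_prog h hη hM (u + Wn w * v)) (by positivity)
  refine (sum_le_sum h2).trans ?_
  rw [sum_const, card_range, nsmul_eq_mul]
  have h3 : ((2 * J + 1 + d : ℕ) : ℝ) ≤ 2 * (2 * J + 1) := by
    have : 2 * J + 1 + d ≤ 2 * (2 * J + 1) := by omega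
    calc ((2 * J + 1 + d : ℕ) : ℝ) ≤ ((2 * (2 * J + 1) : ℕ) : ℝ) := by exact_mod_cast this
      _ = _ := by push_cast; ring
  calc ((2 * J + 1 + d : ℕ) : ℝ) * (ζ / (β * (2 * J + 1)) * (2 * K0c C)) ≤
        (2 * (2 * J + 1)) * (ζ / (β * (2 * J + 1)) * (2 * K0c C)) := mul_le_mul_of_nonneg_right h3 (by positivity)
    _ = _ := by
        field_simp
        ring

lemma prod_diff {K : ℝ} (hK : 1 ≤ K) : ∀ {n : ℕ} (x y : Fin (n + 1) → ℝ), (∀ i, 0 ≤ x i ∧ x i ≤ K) →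
    (∀ i, 0 ≤ y i ∧ y i ≤ K) → |∏ i, x i - ∏ i, y i| ≤ K ^ n * ∑ i, |x i - y i| := by
  intro n
  induction n with
  | zero =>
    intro x y hx hy
    simp
  | succ n ih =>
    intro x y hx hy
    rw [Fin.prod_univ_succ, Fin.prod_univ_succ y, Fin.sum_univ_succ]
    have h1 := ih (fun i => x i.succ) (fun i => y i.succ) (fun i => hx _) (fun i => hy _)
    have hP : |∏ i : Fin (n + 1), x i.succ| ≤ K ^ (n + 1) := by
      rw [abs_of_nonneg (prod_nonneg fun i _ => (hx _).1)]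
      calc ∏ i : Fin (n + 1), x i.succ ≤ ∏ _i : Fin (n + 1), K := prod_le_prod (fun i _ => (hx _).1) fun i _ => (hx _).2
        _ = _ := by rw [prod_const, card_univ, Fintype.card_fin]
    have e : x 0 * ∏ i : Fin (n + 1), x i.succ - y 0 * ∏ i : Fin (n + 1), y i.succ =
        (x 0 - y 0) * ∏ i : Fin (n + 1), x i.succ + y 0 * (∏ i : Fin (n + 1), x i.succ - ∏ i : Fin (n + 1), y i.succ) := by
      ring
    rw [e]
    refine (abs_add_le _ _).trans ?_
    rw [abs_mul, abs_mul, abs_of_nonneg (hy 0).1]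
    have a1 : |x 0 - y 0| * |∏ i : Fin (n + 1), x i.succ| ≤ |x 0 - y 0| * K ^ (n + 1) :=
      mul_le_mul_of_nonneg_left hP (abs_nonneg _)
    have a2 : y 0 * |∏ i : Fin (n + 1), x i.succ - ∏ i : Fin (n + 1), y i.succ| ≤
        K * (K ^ n * ∑ i : Fin (n + 1), |x i.succ - y i.succ|) :=
      mul_le_mul (hy 0).2 h1 (abs_nonneg _) (by linarith)
    have e2 : K ^ (n + 1) * (|x 0 - y 0| + ∑ i : Fin (n + 1), |x i.succ - y i.succ|) =
        |x 0 - y 0| * K ^ (n + 1) + K * (K ^ n * ∑ i : Fin (n + 1), |x i.succ - y i.succ|) := by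
      rw [pow_succ]
      ring
    rw [e2]
    linarith

lemma prod_le_sum {n : ℕ} (y : Fin (n + 1) → ℝ) (hy : ∀ i, 0 ≤ y i) : ∏ i, y i ≤ ∑ i, y i ^ (n + 1) := by
  obtain ⟨i0, -, hi0⟩ := exists_max_image (univ : Finset (Fin (n + 1))) y univ_nonempty
  calc ∏ i, y i ≤ ∏ _i : Fin (n + 1), y i0 := prod_le_prod (fun i _ => hy i) fun i _ => hi0 i (mem_univ _)
    _ = y i0 ^ (n + 1) := by rw [prod_const, card_univ, Fintype.card_fin]
    _ ≤ ∑ i, y i ^ (n + 1) := single_le_sum (f := fun i => y i ^ (n + 1)) (fun i _ => pow_nonneg (hy i) _) (mem_univ i0)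

/-! ### types -/

/-- the type of a shift -/
noncomputable def ty (K m H : ℕ) (α : Fin K → ℝ) (h : ℕ) : ℕ × ℕ × (Fin K → ℕ) :=
  (h % m, K * h / H, fun j => ⌊(K : ℝ) * Int.fract (α j * h)⌋₊)

lemma nrm_le_of (x : ℝ) (z : ℤ) : nrm x ≤ |x - z| := by
  unfold nrm
  exact round_le x z

lemma ty_eq {K m H : ℕ} {α : Fin K → ℝ} {h h' : ℕ} (hK : 1 ≤ K) (hH : 1 ≤ H) (hle : h ≤ h')
    (he : ty K m H α h = ty K m H α h') : (∃ d, h' = h + m * d) ∧ K * (h' - h) ≤ H ∧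
      ∀ j, nrm (((h' - h : ℕ) : ℝ) * α j) ≤ 1 / K := by
  have hKp : (0 : ℝ) < K := by exact_mod_cast hK
  unfold ty at he
  rw [Prod.mk.injEq, Prod.mk.injEq] at he
  obtain ⟨h1, h2, h3⟩ := he
  refine ⟨?_, ?_, fun j => ?_⟩
  · have h4 : m ∣ h' - h := (Nat.modEq_iff_dvd' hle).1 h1
    obtain ⟨d, hd⟩ := h4
    exact ⟨d, by omega⟩
  · have a1 := Nat.div_add_mod (K * h) H
    have a2 := Nat.div_add_mod (K * h') H
    have a3 := Nat.mod_lt (K * h') hH
    rw [h2] at a1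
    have e : K * (h' - h) = K * h' - K * h := Nat.mul_sub _ _ _
    omega
  · have h4 := congrFun h3 j
    set x : ℝ := α j * h with hx
    set y : ℝ := α j * h' with hy
    have b1 : (K : ℝ) * Int.fract x < ⌊(K : ℝ) * Int.fract x⌋₊ + 1 := Nat.lt_floor_add_one _
    have b2 : (⌊(K : ℝ) * Int.fract x⌋₊ : ℝ) ≤ (K : ℝ) * Int.fract x :=
      Nat.floor_le (mul_nonneg hKp.le (Int.fract_nonneg _))
    have b3 : (K : ℝ) * Int.fract y < ⌊(K : ℝ) * Int.fract y⌋₊ + 1 := Nat.lt_floor_add_one _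
    have b4 : (⌊(K : ℝ) * Int.fract y⌋₊ : ℝ) ≤ (K : ℝ) * Int.fract y :=
      Nat.floor_le (mul_nonneg hKp.le (Int.fract_nonneg _))
    rw [h4] at b1 b2
    have b5 : |(K : ℝ) * (Int.fract y - Int.fract x)| ≤ 1 := by
      rw [abs_le]
      constructor <;> nlinarith
    rw [abs_mul, abs_of_pos hKp, ← le_div_iff₀' hKp] at b5
    have e : ((h' - h : ℕ) : ℝ) * α j = y - x := by
      rw [Nat.cast_sub hle, hx, hy]
      ring
    rw [e]
    refine (nrm_le_of _ (⌊y⌋ - ⌊x⌋)).trans ?_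
    have e2 : y - x - ((⌊y⌋ - ⌊x⌋ : ℤ) : ℝ) = Int.fract y - Int.fract x := by
      push_cast
      unfold Int.fract
      ring
    rw [e2]
    exact b5

/-! ### classes -/

lemma one_mem_kap {w n : ℕ} (hn : 1 ≤ n) : 1 ∈ kap w n := by
  unfold kap
  rw [mem_filter, mem_Icc]
  refine ⟨⟨le_rfl, hn⟩, fun p hp hd => ?_⟩
  exact (mem_PP.1 hp).1.one_lt.not_ge (Nat.le_of_dvd one_pos hd)

/-- the class of a position -/
noncomputable def cl (w u : ℕ) : kap w (Wn w) :=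
  if hc : (u - 1) % Wn w + 1 ∈ kap w (Wn w) then ⟨_, hc⟩ else ⟨1, one_mem_kap (Wn_pos w)⟩

lemma cl_po {w L : ℕ} (z : kap w (Wn w) × Fin L) : cl w (po z) = z.1 := by
  have h1 : (z.1 : ℕ) ∈ kap w (Wn w) := z.1.2
  have h2 := h1
  unfold kap at h2
  rw [mem_filter, mem_Icc] at h2
  have e : (po z - 1) % Wn w + 1 = (z.1 : ℕ) := by
    unfold po
    have : (z.1 : ℕ) + Wn w * z.2.val - 1 = ((z.1 : ℕ) - 1) + Wn w * z.2.val := by omega
    rw [this, Nat.add_mul_mod_self_left, Nat.mod_eq_of_lt (by omega)]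
    omega
  unfold cl
  rw [dif_pos (by rw [e]; exact h1)]
  exact Subtype.ext e

lemma cl_add {w u d : ℕ} (hu : 1 ≤ u) : cl w (u + Wn w * d) = cl w u := by
  unfold cl
  have e : (u + Wn w * d - 1) % Wn w = (u - 1) % Wn w := by
    have : u + Wn w * d - 1 = (u - 1) + Wn w * d := by omega
    rw [this, Nat.add_mul_mod_self_left]
  rw [e]

end Pool.Agent.NH16.BT
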