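import Pool.Agent.NH16.BT.E6

set_option autoImplicit false
set_option linter.unusedSectionVars false
set_option linter.unusedVariables false

/-!
# Prime tuples and the model
-/

namespace Pool.Agent.NH16.BT

open Finset Filter Topology
open scoped BigOperators
open Pool.Agent.NH16.DL Pool.Agent.NH16.SM
open Pool.Agent.H386R2.HL (singularSeries)

/-- the multiple of `Wn w` to be added to `c` to reach the interval `(h, h + Wn w]` -/
def oo (w h c : ℕ) : ℕ := if c ≤ h then (h - c) / Wn w + 1 else 0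

lemma oo_spec {w h c : ℕ} (h1 : 1 ≤ c) (h2 : c ≤ Wn w) : h < c + Wn w * oo w h c ∧ c + Wn w * oo w h c ≤ h + Wn w := by
  unfold oo
  split_ifs with hc
  · have a1 := Nat.div_add_mod (h - c) (Wn w)
    have a2 := Nat.mod_lt (h - c) (Wn_pos w)
    have e : Wn w * ((h - c) / Wn w + 1) = Wn w * ((h - c) / Wn w) + Wn w := by ring
    omega
  · omega

lemma kap_iff {w c : ℕ} : c ∈ kap w (Wn w) ↔ (1 ≤ c ∧ c ≤ Wn w) ∧ ∀ p ∈ PP w, ¬ p ∣ c := by
  unfold kap
  rw [mem_filter, mem_Icc]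

lemma cop_mod {w u : ℕ} (hu : 1 ≤ u) : (∀ p ∈ PP w, ¬ p ∣ u) ↔ ∀ p ∈ PP w, ¬ p ∣ ((u - 1) % Wn w + 1) := by
  have e : u = ((u - 1) % Wn w + 1) + Wn w * ((u - 1) / Wn w) := by
    have := Nat.div_add_mod (u - 1) (Wn w)
    omega
  refine forall₂_congr fun p hp => ?_
  rw [not_iff_not]
  have hd : p ∣ Wn w := (dvd_Wn (mem_PP.1 hp).1).2 (mem_PP.1 hp).2
  conv_lhs => rw [e]
  exact (Nat.dvd_add_left (hd.mul_right _))

lemma sum_adm (w h : ℕ) (G : ℕ → ℝ) :
    ∑ a ∈ adm w (fun _ : Fin 1 => h), G (a + h) = ∑ c : kap w (Wn w), G ((c : ℕ) + Wn w * oo w h c) := by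
  have hW := Wn_pos w
  rw [Finset.sum_coe_sort (kap w (Wn w)) (fun c => G (c + Wn w * oo w h c))]
  refine Finset.sum_nbij' (fun a => (a + h - 1) % Wn w + 1) (fun c => c + Wn w * oo w h c - h) ?_ ?_ ?_ ?_ ?_
  · intro a ha
    unfold adm at ha
    rw [mem_filter, mem_Icc] at ha
    rw [kap_iff]
    refine ⟨⟨by omega, by have := Nat.mod_lt (a + h - 1) hW; omega⟩, ?_⟩
    exact (cop_mod (by omega)).1 (ha.2 0)
  · intro c hc
    rw [kap_iff] at hc
    obtain ⟨a1, a2⟩ := oo_spec (h := h) hc.1.1 hc.1.2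
    unfold adm
    rw [mem_filter, mem_Icc]
    refine ⟨⟨by omega, by omega⟩, fun _ p hp hd => ?_⟩
    have e : c + Wn w * oo w h c - h + h = c + Wn w * oo w h c := by omega
    rw [e] at hd
    have hdW : p ∣ Wn w := (dvd_Wn (mem_PP.1 hp).1).2 (mem_PP.1 hp).2
    exact hc.2 p hp ((Nat.dvd_add_left (hdW.mul_right _)).1 hd)
  · intro a ha
    unfold adm at ha
    rw [mem_filter, mem_Icc] at ha
    show (a + h - 1) % Wn w + 1 + Wn w * oo w h ((a + h - 1) % Wn w + 1) - h = a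
    set c := (a + h - 1) % Wn w + 1 with hc
    have c1 : 1 ≤ c := by omega
    have c2 : c ≤ Wn w := by have := Nat.mod_lt (a + h - 1) hW; omega
    obtain ⟨a1, a2⟩ := oo_spec (h := h) c1 c2
    have e1 : a + h = c + Wn w * ((a + h - 1) / Wn w) := by
      have := Nat.div_add_mod (a + h - 1) (Wn w)
      omega
    have e2 : (a + h - 1) / Wn w = oo w h c := by
      by_contra hne
      rcases Nat.lt_or_gt_of_ne hne with hlt | hlt
      · have : Wn w * ((a + h - 1) / Wn w) + Wn w ≤ Wn w * oo w h c := by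
          calc _ = Wn w * ((a + h - 1) / Wn w + 1) := by ring
            _ ≤ _ := Nat.mul_le_mul_left _ hlt
        omega
      · have : Wn w * oo w h c + Wn w ≤ Wn w * ((a + h - 1) / Wn w) := by
          calc _ = Wn w * (oo w h c + 1) := by ring
            _ ≤ _ := Nat.mul_le_mul_left _ hlt
        omega
    rw [← e2]
    omega
  · intro c hc
    rw [kap_iff] at hc
    obtain ⟨a1, a2⟩ := oo_spec (h := h) hc.1.1 hc.1.2
    show (c + Wn w * oo w h c - h + h - 1) % Wn w + 1 = c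
    have e : c + Wn w * oo w h c - h + h - 1 = (c - 1) + Wn w * oo w h c := by omega
    rw [e, Nat.add_mul_mod_self_left, Nat.mod_eq_of_lt (by omega)]
    omega
  · intro a ha
    unfold adm at ha
    rw [mem_filter, mem_Icc] at ha
    show G (a + h) = G ((a + h - 1) % Wn w + 1 + Wn w * oo w h ((a + h - 1) % Wn w + 1))
    congr 1
    set c := (a + h - 1) % Wn w + 1 with hc
    have c1 : 1 ≤ c := by omega
    have c2 : c ≤ Wn w := by have := Nat.mod_lt (a + h - 1) hW; omega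
    obtain ⟨a1, a2⟩ := oo_spec (h := h) c1 c2
    have e1 : a + h = c + Wn w * ((a + h - 1) / Wn w) := by
      have := Nat.div_add_mod (a + h - 1) (Wn w)
      omega
    have e2 : (a + h - 1) / Wn w = oo w h c := by
      by_contra hne
      rcases Nat.lt_or_gt_of_ne hne with hlt | hlt
      · have : Wn w * ((a + h - 1) / Wn w) + Wn w ≤ Wn w * oo w h c := by
          calc _ = Wn w * ((a + h - 1) / Wn w + 1) := by ring
            _ ≤ _ := Nat.mul_le_mul_left _ hlt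
        omega
      · have : Wn w * oo w h c + Wn w ≤ Wn w * ((a + h - 1) / Wn w) := by
          calc _ = Wn w * (oo w h c + 1) := by ring
            _ ≤ _ := Nat.mul_le_mul_left _ hlt
        omega
    rw [← e2]
    exact e1

lemma card_adm (w h : ℕ) : ((adm w (fun _ : Fin 1 => h)).card : ℝ) = Fintype.card (kap w (Wn w)) := by
  have := sum_adm w h (fun _ => 1)
  simpa using this

/-- all components equal: the same residues as for one of them -/
lemma adm_const (w h r : ℕ) : adm w (fun _ : Fin (r + 1) => h) = adm w (fun _ : Fin 1 => h) := by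
  unfold adm
  refine filter_congr fun a _ => ?_
  constructor
  · intro h1 _
    exact h1 0
  · intro h1 _
    exact h1 0

lemma Fp_zero {w N n : ℕ} (hN : w * w ≤ N) {p : ℕ} (hp : p ∈ PP w) (hd : p ∣ n) : Fp w N n = 0 := by
  unfold Fp
  rw [if_neg]
  rintro ⟨h1, h2⟩
  have hp' := mem_PP.1 hp
  have : p = n := (Nat.prime_dvd_prime_iff_eq hp'.1 h1).1 hd
  subst this
  have : p * p ≤ w * w := Nat.mul_le_mul hp'.2 hp'.2
  omega

section
variable {w N L J H r : ℕ} {Kc : ℝ} {k : kap w (Wn w) → ℤ → ℝ}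

/-- the model along a position -/
noncomputable def Yf (w N J : ℕ) (k : kap w (Wn w) → ℤ → ℝ) (Kc : ℝ) (u : ℕ) (t : Fin (N / Wn w)) : ℝ :=
  Xm w N J (k (cl w u)) Kc u t

/-- the error at a tuple of positions -/
noncomputable def eφ (w N L J : ℕ) (k : kap w (Wn w) → ℤ → ℝ) (Kc : ℝ) (r : ℕ)
    (z : Fin (r + 1) → kap w (Wn w) × Fin L) : ℝ :=
  |𝔼 t : Fin (N / Wn w), ∏ i, Fp w N (po (z i) + Wn w * J + Wn w * t) -
              𝔼 t : Fin (N / Wn w), ∏ i, Xm w N J (k (z i).1) Kc (po (z i)) t|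

/-- the sum of the errors -/
noncomputable def eS (w N L J : ℕ) (k : kap w (Wn w) → ℤ → ℝ) (Kc : ℝ) (r : ℕ) (h : Fin (r + 1) → ℕ) : ℝ :=
  ∑ a ∈ Icc 1 (Wn w), ∑ z ∈ univ.filter (fun z : Fin (r + 1) → kap w (Wn w) × Fin L => ∀ i, po (z i) = a + h i),
    eφ w N L J k Kc r z

theorem prime_side (hCT : S_CT) (hPO : S_PO) (hW : Wn w ≤ N) (hw2 : w * w ≤ N)
    (hHL : H + Wn w ≤ Wn w * L) (hKc : 1 ≤ Kc) (hX0 : ∀ c u x, 0 ≤ Xm w N J (k c) Kc u x)
    (h : Fin (r + 1) → ℕ) (h1 : ∀ i, 1 ≤ h i) (h2 : ∀ i, h i ≤ H) :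
    |Real.log N ^ (r + 1) * pT h N / N - (Vv w)⁻¹ ^ (r + 1) * (1 / Wn w * ∑ a ∈ adm w h,
        𝔼 t : Fin (N / Wn w), ∏ i, Yf w N J k Kc (a + h i) t)| ≤
      Real.log N ^ (r + 1) * (Real.sqrt N + 1 + Wn w) / N + (Vv w)⁻¹ ^ (r + 1) * (trT w N J (Real.log N ^ (r + 1)) +
        1 / Wn w * eS w N L J k Kc r h + Wn w * Kc ^ (r + 1) / N) := by
  classical
  have hWp : (0 : ℝ) < Wn w := by exact_mod_cast Wn_pos w
  have hN1 : 1 ≤ N := (Wn_pos w).trans_le hW
  have hNp : (0 : ℝ) < N := by exact_mod_cast hN1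
  have hV := Vv_pos w
  have hT := Wn_le_nonempty hW
  set T : ℕ := N / Wn w with hTdef
  have hT1 : 1 ≤ T := Nat.div_pos hW (Wn_pos w)
  have hTp : (0 : ℝ) < T := by exact_mod_cast hT1
  set ℓ : ℝ := Real.log N with hℓ
  have hℓ0 : 0 ≤ ℓ := Real.log_natCast_nonneg N
  set E1 : ℕ → ℝ := fun a => 𝔼 t : Fin T, ∏ i, Fp w N (a + h i + Wn w * t) with hE1
  set E2 : ℕ → ℝ := fun a => 𝔼 t : Fin T, ∏ i, Fp w N (a + h i + Wn w * J + Wn w * t) with hE2
  set E3 : ℕ → ℝ := fun a => 𝔼 t : Fin T, ∏ i, Yf w N J k Kc (a + h i) t with hE3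
  -- the sum over all residues
  have eA : ∑ a ∈ Icc 1 (Wn w), ∑ t ∈ range T, ∏ i, Fp w N (a + h i + Wn w * t) = T * ∑ a ∈ adm w h, E1 a := by
    have e1 : ∑ a ∈ Icc 1 (Wn w), ∑ t ∈ range T, ∏ i, Fp w N (a + h i + Wn w * t) =
        ∑ a ∈ adm w h, ∑ t ∈ range T, ∏ i, Fp w N (a + h i + Wn w * t) := by
      unfold adm
      symm
      refine sum_subset (filter_subset _ _) fun a ha hna => ?_
      rw [mem_filter, not_and] at hna
      have := hna ha
      push Not at this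
      obtain ⟨i, p, hp, hd⟩ := this
      refine sum_eq_zero fun t _ => prod_eq_zero (mem_univ i) ?_
      have hdW : p ∣ Wn w := (dvd_Wn (mem_PP.1 hp).1).2 (mem_PP.1 hp).2
      exact Fp_zero hw2 hp (dvd_add hd (hdW.mul_right _))
    rw [e1, mul_sum]
    refine sum_congr rfl fun a _ => ?_
    rw [hE1]
    show _ = (T : ℝ) * 𝔼 t : Fin T, ∏ i, Fp w N (a + h i + Wn w * t)
    rw [Fintype.expect_eq_sum_div_card, Fintype.card_fin, mul_div_cancel₀ _ hTp.ne']
    rw [Finset.sum_range]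
  have hCTh := hCT w N r h hN1 h1
  rw [← hTdef, eA] at hCTh
  -- comparison of the averages
  have d12 : ∀ a, |E1 a - E2 a| ≤ trT w N J (ℓ ^ (r + 1)) := by
    intro a
    have b1 := shiftT (T := T) J (fun x => ∏ i, Fp w N (a + h i + Wn w * x)) (ℓ ^ (r + 1))
      (fun x => prod_nonneg fun i _ => Fp_nonneg _ _ _) (fun x => by
        calc ∏ i, Fp w N (a + h i + Wn w * x) ≤ ∏ _i : Fin (r + 1), ℓ :=
              prod_le_prod (fun i _ => Fp_nonneg _ _ _) fun i _ => Fp_le _ _ _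
          _ = ℓ ^ (r + 1) := by rw [prod_const, card_univ, Fintype.card_fin])
    have e : E2 a = 𝔼 t : Fin T, ∏ i, Fp w N (a + h i + Wn w * (t + J)) := by
      rw [hE2]
      refine expect_congr rfl fun t _ => prod_congr rfl fun i _ => ?_
      congr 1
      ring
    rw [abs_sub_comm, e]
    exact b1
  have d23 : ∑ a ∈ adm w h, |E2 a - E3 a| ≤ eS w N L J k Kc r h := by
    unfold eS
    refine (sum_le_sum (f := fun a => |E2 a - E3 a|) (g := fun a => ∑ z ∈ univ.filter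
      (fun z : Fin (r + 1) → kap w (Wn w) × Fin L => ∀ i, po (z i) = a + h i),
        eφ w N L J k Kc r z) fun a ha => ?_).trans
      (sum_le_sum_of_subset_of_nonneg (filter_subset _ _) fun a _ _ => sum_nonneg fun z _ => abs_nonneg _)
    unfold adm at ha
    rw [mem_filter, mem_Icc] at ha
    have hz : ∀ i, ∃ z : kap w (Wn w) × Fin L, po z = a + h i := fun i =>
      hPO.2.2.2.1 w L (a + h i) (by omega) (by have := h2 i; omega) (ha.2 i)
    choose z hz using hz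
    refine le_trans (le_of_eq ?_) (single_le_sum (f := fun z => eφ w N L J k Kc r z) (fun z _ => abs_nonneg _)
      (mem_filter.2 ⟨mem_univ z, hz⟩))
    show |E2 a - E3 a| = eφ w N L J k Kc r z
    unfold eφ
    rw [hE2, hE3]
    show |𝔼 t : Fin T, ∏ i, Fp w N (a + h i + Wn w * J + Wn w * t) - 𝔼 t : Fin T, ∏ i, Yf w N J k Kc (a + h i) t| = _
    congr 2
    · refine expect_congr rfl fun t _ => prod_congr rfl fun i _ => ?_
      rw [hz i]
    · refine expect_congr rfl fun t _ => prod_congr rfl fun i _ => ?_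
      unfold Yf
      rw [← hz i, cl_po]
  have hYle : ∀ a, 0 ≤ E3 a ∧ E3 a ≤ Kc ^ (r + 1) := by
    intro a
    constructor
    · exact expect_nonneg fun t _ => prod_nonneg fun i _ => hX0 _ _ _
    · refine expect_le univ_nonempty fun t _ => ?_
      calc ∏ i, Yf w N J k Kc (a + h i) t ≤ ∏ _i : Fin (r + 1), Kc :=
            prod_le_prod (fun i _ => hX0 _ _ _) fun i _ => min_le_right _ _
        _ = _ := by rw [prod_const, card_univ, Fintype.card_fin]
  have hcardA : ((adm w h).card : ℝ) ≤ Wn w := by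
    have : (adm w h).card ≤ (Icc 1 (Wn w)).card := card_filter_le _ _
    rw [Nat.card_Icc] at this
    exact_mod_cast (by omega : (adm w h).card ≤ Wn w)
  set Sg1 : ℝ := ∑ a ∈ adm w h, E1 a with hSg1
  set Sg3 : ℝ := ∑ a ∈ adm w h, E3 a with hSg3
  have dS : |Sg1 - Sg3| ≤ Wn w * trT w N J (ℓ ^ (r + 1)) + eS w N L J k Kc r h := by
    rw [hSg1, hSg3, ← sum_sub_distrib]
    have htr0 : 0 ≤ trT w N J (ℓ ^ (r + 1)) := (abs_nonneg _).trans (d12 0)
    calc |∑ a ∈ adm w h, (E1 a - E3 a)| ≤ ∑ a ∈ adm w h, (|E1 a - E2 a| + |E2 a - E3 a|) :=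
          (abs_sum_le_sum_abs _ _).trans (sum_le_sum fun a _ => abs_sub_le _ _ _)
      _ = ∑ a ∈ adm w h, |E1 a - E2 a| + ∑ a ∈ adm w h, |E2 a - E3 a| := sum_add_distrib
      _ ≤ ((adm w h).card : ℝ) * trT w N J (ℓ ^ (r + 1)) + eS w N L J k Kc r h := by
          refine add_le_add ?_ d23
          rw [← nsmul_eq_mul, ← sum_const]
          exact sum_le_sum fun a _ => d12 a
      _ ≤ _ := by
          have := mul_le_mul_of_nonneg_right hcardA htr0
          linarith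
  have hSg3 : 0 ≤ Sg3 ∧ Sg3 ≤ Wn w * Kc ^ (r + 1) := by
    constructor
    · exact sum_nonneg fun a _ => (hYle a).1
    · calc Sg3 ≤ ∑ _a ∈ adm w h, Kc ^ (r + 1) := sum_le_sum fun a _ => (hYle a).2
        _ = (adm w h).card * Kc ^ (r + 1) := by rw [sum_const, nsmul_eq_mul]
        _ ≤ _ := mul_le_mul_of_nonneg_right hcardA (by positivity)
  have hTN : (T : ℝ) / N ≤ 1 / Wn w := by
    rw [div_le_div_iff₀ hNp hWp, one_mul]
    exact_mod_cast Nat.div_mul_le_self N (Wn w)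
  have hTN2 : 1 / (Wn w : ℝ) - T / N ≤ 1 / N := by
    have h3 : (N : ℝ) ≤ Wn w * T + Wn w := by
      have := Nat.div_add_mod N (Wn w)
      have h4 := Nat.mod_lt N (Wn_pos w)
      have h5 : N ≤ Wn w * T + Wn w := by rw [hTdef]; omega
      exact_mod_cast h5
    have e : 1 / (Wn w : ℝ) - T / N = (N - Wn w * T) / (Wn w * N) := by
      field_simp
    rw [e, div_le_div_iff₀ (by positivity) hNp]
    nlinarith
  -- conclusion
  set v : ℝ := (Vv w)⁻¹ ^ (r + 1) with hv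
  have hv0 : 0 < v := pow_pos (inv_pos.2 hV) _
  set D : ℝ := (Vv w * ℓ) ^ (r + 1) * (Real.sqrt N + 1 + Wn w) with hD
  have hvV : v * (Vv w * ℓ) ^ (r + 1) = ℓ ^ (r + 1) := by
    rw [hv, ← mul_pow, ← mul_assoc, inv_mul_cancel₀ hV.ne', one_mul]
  have f1 : |v * (T * Sg1) / N - ℓ ^ (r + 1) * pT h N / N| ≤ ℓ ^ (r + 1) * (Real.sqrt N + 1 + Wn w) / N := by
    have e : v * (T * Sg1) / N - ℓ ^ (r + 1) * pT h N / N = v * (T * Sg1 - (Vv w * ℓ) ^ (r + 1) * pT h N) / N := by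
      rw [← hvV]
      ring
    rw [e, abs_div, abs_of_pos hNp, abs_mul, abs_of_pos hv0]
    refine div_le_div_of_nonneg_right ?_ hNp.le
    calc v * |T * Sg1 - (Vv w * ℓ) ^ (r + 1) * pT h N| ≤ v * D := mul_le_mul_of_nonneg_left hCTh hv0.le
      _ = ℓ ^ (r + 1) * (Real.sqrt N + 1 + Wn w) := by rw [hD, ← mul_assoc, hvV]
  have f2 : |v * (T * Sg1) / N - v * (1 / Wn w * Sg3)| ≤ v * (trT w N J (ℓ ^ (r + 1)) +
        1 / Wn w * eS w N L J k Kc r h + Wn w * Kc ^ (r + 1) / N) := by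
    have e : v * (T * Sg1) / N - v * (1 / Wn w * Sg3) =
        v * ((T : ℝ) / N * (Sg1 - Sg3) - (1 / (Wn w : ℝ) - T / N) * Sg3) := by
      ring
    rw [e, abs_mul, abs_of_pos hv0]
    refine mul_le_mul_of_nonneg_left ?_ hv0.le
    refine (abs_sub _ _).trans ?_
    have g1 : |(T : ℝ) / N * (Sg1 - Sg3)| ≤ 1 / Wn w * (Wn w * trT w N J (ℓ ^ (r + 1)) + eS w N L J k Kc r h) := by
      rw [abs_mul, abs_of_nonneg (by positivity : (0 : ℝ) ≤ T / N)]
      exact mul_le_mul hTN dS (abs_nonneg _) (by positivity)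
    have g2 : |(1 / (Wn w : ℝ) - T / N) * Sg3| ≤ 1 / N * (Wn w * Kc ^ (r + 1)) := by
      rw [abs_mul, abs_of_nonneg hSg3.1, abs_of_nonneg (by linarith)]
      exact mul_le_mul hTN2 hSg3.2 hSg3.1 (by positivity)
    have e2 : 1 / (Wn w : ℝ) * (Wn w * trT w N J (ℓ ^ (r + 1)) + eS w N L J k Kc r h) =
        trT w N J (ℓ ^ (r + 1)) + 1 / Wn w * eS w N L J k Kc r h := by
      field_simp
    have e3 : 1 / (N : ℝ) * (Wn w * Kc ^ (r + 1)) = Wn w * Kc ^ (r + 1) / N := by ring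
    rw [e2] at g1
    rw [e3] at g2
    linarith
  have f3 := abs_sub_le (ℓ ^ (r + 1) * pT h N / N) (v * (T * Sg1) / N) (v * (1 / Wn w * Sg3))
  rw [abs_sub_comm (ℓ ^ (r + 1) * pT h N / N) (v * (T * Sg1) / N)] at f3
  linarith

/-- the sum of the errors over all shifts -/
theorem sum_eS (hPO : S_PO) {δ : ℝ} (hw : 1 ≤ w) (hL : 1 ≤ L) (hHL : H + Wn w ≤ Wn w * L)
    (hδ : 𝔼 z : Fin (r + 1) → kap w (Wn w) × Fin L, eφ w N L J k Kc r z ≤ δ) :
    ∑ h ∈ Fintype.piFinset (fun _ : Fin (r + 1) => Icc 1 H), (Vv w)⁻¹ ^ (r + 1) * (1 / Wn w * eS w N L J k Kc r h) ≤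
      (Wn w * L : ℝ) ^ (r + 1) * δ := by
  classical
  have hWp : (0 : ℝ) < Wn w := by exact_mod_cast Wn_pos w
  have hLp : (0 : ℝ) < L := by exact_mod_cast hL
  have hV := Vv_pos w
  have h1 := hPO.2.2.2.2 w L H (r + 1) (fun z => eφ w N L J k Kc r z) (fun z => abs_nonneg _) hHL
  have hcard : (Fintype.card (Fin (r + 1) → kap w (Wn w) × Fin L) : ℝ) = (Vv w * Wn w * L) ^ (r + 1) := by
    rw [Fintype.card_fun, Fintype.card_prod, Fintype.card_fin, Fintype.card_fin, Fintype.card_coe]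
    push_cast
    rw [hPO.1 w]
  have h2 : ∑ z : Fin (r + 1) → kap w (Wn w) × Fin L, eφ w N L J k Kc r z ≤ (Vv w * Wn w * L) ^ (r + 1) * δ := by
    rw [Fintype.expect_eq_sum_div_card, hcard, div_le_iff₀ (by positivity)] at hδ
    linarith
  have e : ∑ h ∈ Fintype.piFinset (fun _ : Fin (r + 1) => Icc 1 H), (Vv w)⁻¹ ^ (r + 1) * (1 / Wn w * eS w N L J k Kc r h) =
      (Vv w)⁻¹ ^ (r + 1) * (1 / Wn w * ∑ h ∈ Fintype.piFinset (fun _ : Fin (r + 1) => Icc 1 H), eS w N L J k Kc r h) := by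
    rw [← mul_sum, ← mul_sum]
  rw [e]
  have h3 : ∑ h ∈ Fintype.piFinset (fun _ : Fin (r + 1) => Icc 1 H), eS w N L J k Kc r h ≤
      Wn w * ((Vv w * Wn w * L) ^ (r + 1) * δ) := h1.trans (mul_le_mul_of_nonneg_left h2 hWp.le)
  calc (Vv w)⁻¹ ^ (r + 1) * (1 / Wn w * ∑ h ∈ Fintype.piFinset (fun _ : Fin (r + 1) => Icc 1 H), eS w N L J k Kc r h) ≤
        (Vv w)⁻¹ ^ (r + 1) * (1 / Wn w * (Wn w * ((Vv w * Wn w * L) ^ (r + 1) * δ))) := by
        refine mul_le_mul_of_nonneg_left (mul_le_mul_of_nonneg_left h3 (by positivity)) ?_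
        exact pow_nonneg (inv_nonneg.2 hV.le) _
    _ = ((Vv w)⁻¹ * Vv w) ^ (r + 1) * ((Wn w * L : ℝ) ^ (r + 1) * δ) := by
        rw [mul_assoc (Vv w) _ _, mul_pow (Vv w) _ _, mul_pow (Vv w)⁻¹ _ _]
        field_simp
    _ = _ := by rw [inv_mul_cancel₀ hV.ne', one_pow, one_mul]

end

end Pool.Agent.NH16.BT
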