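import Pool.Agent.NH16.BT.E7

set_option autoImplicit false
set_option linter.unusedSectionVars false
set_option linter.unusedVariables false

/-!
# The factor attached to the types
-/

namespace Pool.Agent.NH16.BT

open Finset Filter Topology
open scoped BigOperators
open Pool.Agent.NH16.DL Pool.Agent.NH16.SM
open Pool.Agent.H386R2.HL (singularSeries)

/-- the factor: the correlation of the functions attached to the types of the components -/
noncomputable def fac {K m H T : ℕ} (w : ℕ) (α : Fin K → ℝ) (X : ℕ × ℕ × (Fin K → ℕ) → ℕ → Fin T → ℝ) {r : ℕ}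
    (h : Fin r → ℕ) : ℝ :=
  (∑ a ∈ adm w h, (∑ t, ∏ i, X (ty K m H α (h i)) a t) / T) / (adm w h).card

lemma sum_div_exp {ι : Type} (s : Finset ι) (f : ι → ℝ) : (∑ a ∈ s, f a) / (s.card : ℝ) = 𝔼 a : s, f a := by
  rw [Fintype.expect_eq_sum_div_card, Fintype.card_coe, Finset.sum_coe_sort s f]

lemma sum_div_fin {T : ℕ} (f : Fin T → ℝ) : (∑ t, f t) / (T : ℝ) = 𝔼 t, f t := by
  rw [Fintype.expect_eq_sum_div_card, Fintype.card_fin]

lemma adm_congr {w r : ℕ} {h h' : Fin r → ℕ} (he : ∀ i, h i % Wn w = h' i % Wn w) : adm w h = adm w h' := by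
  unfold adm
  refine filter_congr fun a _ => forall_congr' fun i => forall₂_congr fun p hp => ?_
  rw [not_iff_not]
  have hd : p ∣ Wn w := (dvd_Wn (mem_PP.1 hp).1).2 (mem_PP.1 hp).2
  have h1 : h i ≡ h' i [MOD p] := (show h i ≡ h' i [MOD Wn w] from he i).of_dvd hd
  exact (Nat.ModEq.add_left a h1).dvd_iff dvd_rfl

section
variable {w N L J H K n M C : ℕ} {Kc β κ ζ η : ℝ} {k : kap w (Wn w) → ℤ → ℝ} {ϑ : kap w (Wn w) → Fin n → ℝ} {α : Fin K → ℝ}

/-- the representative of a type -/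
noncomputable def rep (K m H : ℕ) (α : Fin K → ℝ) (c : ℕ × ℕ × (Fin K → ℕ)) : ℕ :=
  open Classical in if hc : ∃ h ∈ Icc 1 H, ty K m H α h = c then hc.choose else 1

lemma rep_spec {m : ℕ} {h : ℕ} (hh : h ∈ Icc 1 H) : rep K m H α (ty K m H α h) ∈ Icc 1 H ∧
    ty K m H α (rep K m H α (ty K m H α h)) = ty K m H α h := by
  have hc : ∃ h' ∈ Icc 1 H, ty K m H α h' = ty K m H α h := ⟨h, hh, rfl⟩
  have e : rep K m H α (ty K m H α h) = hc.choose := by
    unfold rep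
    rw [dif_pos hc]
  rw [e]
  exact hc.choose_spec

/-- the functions attached to the types -/
noncomputable def XX (w N J K H : ℕ) (α : Fin K → ℝ) (k : kap w (Wn w) → ℤ → ℝ) (Kc : ℝ)
    (c : ℕ × ℕ × (Fin K → ℕ)) (a : ℕ) (t : Fin (N / Wn w)) : ℝ := Yf w N J k Kc (a + rep K (Wn w) H α c) t

/-- two shifts of the same type -/
lemma same_type (h : LI M C (C + 3) w N η) (hη : η ≤ 1 / 2) (hM : 1 ≤ M) (hBD : ∀ c, BD β κ n J (ϑ c) (k c))
    (hβ : 0 < β) (hκ : 0 < κ) (hK : 1 ≤ K) (hH : 1 ≤ H)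
    (hα : ∀ c j, ∃ i, α i = ϑ c j / Wn w) (hKJ : H ≤ K * (2 * J)) {gJ : ℝ} (hgJ : (H : ℝ) ≤ gJ * (Wn w * J))
    (hJ : 1 ≤ J) (hζ : gJ / K + (n / K) / κ ≤ ζ) {h1 h2 : ℕ} (hle : h1 ≤ h2)
    (hty : ty K (Wn w) H α h1 = ty K (Wn w) H α h2) {a : ℕ} (ha : 1 ≤ a) :
    𝔼 t : Fin (N / Wn w), |Yf w N J k Kc (a + h1) t - Yf w N J k Kc (a + h2) t| ≤ 4 * K0c C * (ζ / β) := by
  obtain ⟨⟨d, hd⟩, hKd, hn⟩ := ty_eq hK hH hle hty
  have hWp : (0 : ℝ) < Wn w := by exact_mod_cast Wn_pos w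
  have hKp : (0 : ℝ) < K := by exact_mod_cast hK
  have hJp : (0 : ℝ) < J := by exact_mod_cast hJ
  have e1 : h2 - h1 = Wn w * d := by omega
  have e2 : a + h2 = (a + h1) + Wn w * d := by omega
  have hd2 : d ≤ 2 * J := by
    rw [e1] at hKd
    have h3 : K * d ≤ K * (Wn w * d) := Nat.mul_le_mul_left _ (Nat.le_mul_of_pos_left d (Wn_pos w))
    exact Nat.le_of_mul_le_mul_left (h3.trans (hKd.trans hKJ)) hK
  unfold Yf
  rw [e2, cl_add (by omega)]
  simp_rw [abs_sub_comm (Xm w N J (k (cl w (a + h1))) Kc (a + h1) _)]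
  refine Xm_shift h hη hM (hBD _) hβ hκ (a + h1) d hd2 (le_trans (add_le_add ?_ ?_) hζ)
  · rw [div_le_div_iff₀ hJp hKp]
    rw [e1] at hKd
    have h3 : (K : ℝ) * (Wn w * d) ≤ H := by exact_mod_cast hKd
    have h4 : (Wn w : ℝ) * (d * K) ≤ Wn w * (gJ * J) := by nlinarith
    exact le_of_mul_le_mul_left h4 hWp
  · refine div_le_div_of_nonneg_right ?_ hκ.le
    have h3 : ∀ j, nrm ((d : ℝ) * ϑ (cl w (a + h1)) j) ≤ 1 / K := by
      intro j
      obtain ⟨i, hi⟩ := hα (cl w (a + h1)) j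
      have h4 := hn i
      rw [e1, hi] at h4
      have e3 : ((Wn w * d : ℕ) : ℝ) * (ϑ (cl w (a + h1)) j / Wn w) = (d : ℝ) * ϑ (cl w (a + h1)) j := by
        push_cast
        field_simp
      rwa [e3] at h4
    calc ∑ j, nrm ((d : ℝ) * ϑ (cl w (a + h1)) j) ≤ ∑ _j : Fin n, 1 / (K : ℝ) := sum_le_sum fun j _ => h3 j
      _ = n / K := by rw [sum_const, card_univ, Fintype.card_fin, nsmul_eq_mul, mul_one_div]

/-- replacing the shifts by the representatives of their types -/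
lemma rep_vec (hLI : LI M C (C + 3) w N η) (hη : η ≤ 1 / 2) (hM : 1 ≤ M) (hBD : ∀ c, BD β κ n J (ϑ c) (k c))
    (hβ : 0 < β) (hκ : 0 < κ) (hK : 1 ≤ K) (hH : 1 ≤ H)
    (hα : ∀ c j, ∃ i, α i = ϑ c j / Wn w) (hKJ : H ≤ K * (2 * J)) {gJ : ℝ} (hgJ : (H : ℝ) ≤ gJ * (Wn w * J))
    (hJ : 1 ≤ J) (hζ : gJ / K + (n / K) / κ ≤ ζ) (hKc : 1 ≤ Kc) {r : ℕ} (h : Fin (r + 1) → ℕ)
    (hh : ∀ i, h i ∈ Icc 1 H) {a : ℕ} (ha : 1 ≤ a) :
    |𝔼 t : Fin (N / Wn w), ∏ i, Yf w N J k Kc (a + h i) t -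
      𝔼 t : Fin (N / Wn w), ∏ i, XX w N J K H α k Kc (ty K (Wn w) H α (h i)) a t| ≤
      Kc ^ r * ((r + 1) * (4 * K0c C * (ζ / β))) := by
  have hT := Wn_le_nonempty hLI.wn
  have hX0 : ∀ u (t : Fin (N / Wn w)), 0 ≤ Yf w N J k Kc u t ∧ Yf w N J k Kc u t ≤ Kc := fun u t =>
    ⟨le_min (PsB_nonneg (hBD _) _ _ _ _) (by linarith), min_le_right _ _⟩
  rw [← expect_sub_distrib]
  refine (abs_expect_le _ _).trans ?_
  have h1 : ∀ t : Fin (N / Wn w), |∏ i, Yf w N J k Kc (a + h i) t -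
      ∏ i, XX w N J K H α k Kc (ty K (Wn w) H α (h i)) a t| ≤
      Kc ^ r * ∑ i, |Yf w N J k Kc (a + h i) t - XX w N J K H α k Kc (ty K (Wn w) H α (h i)) a t| := fun t =>
    prod_diff hKc _ _ (fun i => hX0 _ _) (fun i => hX0 _ _)
  refine (expect_le_expect fun t _ => h1 t).trans ?_
  rw [← mul_expect, expect_sum_comm]
  refine mul_le_mul_of_nonneg_left ?_ (by positivity)
  calc _ ≤ ∑ _i : Fin (r + 1), 4 * K0c C * (ζ / β) := by
        refine sum_le_sum fun i _ => ?_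
        obtain ⟨r1, r2⟩ := rep_spec (K := K) (m := Wn w) (α := α) (hh i)
        unfold XX
        rcases le_total (h i) (rep K (Wn w) H α (ty K (Wn w) H α (h i))) with hle | hle
        · exact same_type hLI hη hM hBD hβ hκ hK hH hα hKJ hgJ hJ hζ hle r2.symm ha
        · simp_rw [abs_sub_comm (Yf w N J k Kc (a + h i) _)]
          exact same_type hLI hη hM hBD hβ hκ hK hH hα hKJ hgJ hJ hζ hle r2 ha
    _ = _ := by
        rw [sum_const, card_univ, Fintype.card_fin, nsmul_eq_mul]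
        push_cast
        ring

/-- residues for the representative -/
lemma adm_rep {h : ℕ} (hh : h ∈ Icc 1 H) : adm w (fun _ : Fin 1 => h) =
    adm w (fun _ : Fin 1 => rep K (Wn w) H α (ty K (Wn w) H α h)) := by
  refine adm_congr fun _ => ?_
  have h2 := (rep_spec (K := K) (m := Wn w) (α := α) hh).2
  unfold ty at h2
  rw [Prod.mk.injEq] at h2
  exact h2.1.symm

/-- the average of the function attached to a type -/
lemma fac_mean {h : ℕ} (hh : h ∈ Icc 1 H) (hHL : H + Wn w ≤ Wn w * L) {δ : ℝ}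
    (hmean : ∀ o : kap w (Wn w) → ℕ, (∀ c, o c ≤ L) →
          |𝔼 c : kap w (Wn w), 𝔼 t : Fin (N / Wn w), Xm w N J (k c) Kc ((c : ℕ) + Wn w * o c) t - 1| ≤ δ) :
    |𝔼 a : adm w (fun _ : Fin 1 => h), 𝔼 t : Fin (N / Wn w), XX w N J K H α k Kc (ty K (Wn w) H α h) a t - 1| ≤ δ := by
  set h' : ℕ := rep K (Wn w) H α (ty K (Wn w) H α h) with hh'
  have hr := (rep_spec (K := K) (m := Wn w) (α := α) hh).1
  rw [← hh', mem_Icc] at hr
  have hadm : adm w (fun _ : Fin 1 => h) = adm w (fun _ : Fin 1 => h') := adm_rep hh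
  have e1 : 𝔼 a : adm w (fun _ : Fin 1 => h), 𝔼 t : Fin (N / Wn w), XX w N J K H α k Kc (ty K (Wn w) H α h) a t =
      𝔼 c : kap w (Wn w), 𝔼 t : Fin (N / Wn w), Xm w N J (k c) Kc ((c : ℕ) + Wn w * oo w h' c) t := by
    rw [← sum_div_exp (adm w (fun _ : Fin 1 => h)) (fun a => 𝔼 t : Fin (N / Wn w),
      XX w N J K H α k Kc (ty K (Wn w) H α h) a t), hadm]
    have e2 : ∑ a ∈ adm w (fun _ : Fin 1 => h'), 𝔼 t : Fin (N / Wn w), XX w N J K H α k Kc (ty K (Wn w) H α h) a t =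
        ∑ a ∈ adm w (fun _ : Fin 1 => h'), (fun u => 𝔼 t : Fin (N / Wn w), Yf w N J k Kc u t) (a + h') := rfl
    rw [e2, sum_adm w h' (fun u => 𝔼 t : Fin (N / Wn w), Yf w N J k Kc u t), card_adm, Fintype.expect_eq_sum_div_card]
    congr 1
    refine sum_congr rfl fun c _ => expect_congr rfl fun t _ => ?_
    have hc := kap_iff.1 c.2
    have e3 : cl w ((c : ℕ) + Wn w * oo w h' c) = c := by
      rw [cl_add hc.1.1]
      unfold cl
      have e4 : ((c : ℕ) - 1) % Wn w + 1 = c := by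
        rw [Nat.mod_eq_of_lt (by omega)]
        omega
      rw [dif_pos (by rw [e4]; exact c.2)]
      exact Subtype.ext e4
    unfold Yf
    rw [e3]
  rw [e1]
  refine hmean (fun c => oo w h' c) fun c => ?_
  have hc := kap_iff.1 c.2
  have h3 := (oo_spec (h := h') hc.1.1 hc.1.2).2
  have h4 : Wn w * oo w h' c ≤ Wn w * L := by omega
  exact Nat.le_of_mul_le_mul_left h4 (Wn_pos w)

end

end Pool.Agent.NH16.BT
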