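import Pool.Agent.NH16.BT.E8

set_option autoImplicit false
set_option linter.unusedSectionVars false
set_option linter.unusedVariables false

/-!
# The final statement
-/

namespace Pool.Agent.NH16.BT

open Finset Filter Topology
open scoped BigOperators
open Pool.Agent.NH16.DL Pool.Agent.NH16.SM
open Pool.Agent.H386R2.HL (singularSeries)

/-- the conclusion of `coreB` -/
def CoreHyp (R C : ℕ) : Prop := ∀ δ : ℝ, 0 < δ → ∃ Kc : ℝ, 1 ≤ Kc ∧ ∃ (g n : ℕ) (β κ : ℝ), 1 ≤ g ∧ 0 < β ∧ 0 < κ ∧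
    ∃ lam0 : ℝ, 0 < lam0 ∧ lam0 ≤ 1 ∧ ∃ w0 : ℕ, ∀ w : ℕ, w0 ≤ w → ∀ ε' : ℝ, 0 < ε' → ∀ᶠ N : ℕ in atTop,
      ∀ L J : ℕ, 1 ≤ J → g * J ≤ L → 4 * Real.log N ≤ lam0 * J → (L : ℝ) ≤ (N : ℝ) ^ (1 - ε') →
      ∃ (θ : kap w (Wn w) → Fin n → ℝ) (k : kap w (Wn w) → ℤ → ℝ), (∀ c, BD β κ n J (θ c) (k c)) ∧
        (∀ o : kap w (Wn w) → ℕ, (∀ c, o c ≤ L) →
          |𝔼 c : kap w (Wn w), 𝔼 t : Fin (N / Wn w), Xm w N J (k c) Kc ((c : ℕ) + Wn w * o c) t - 1| ≤ δ) ∧
        ∀ n' ≤ R, (∀ (c : kap w (Wn w)) (u : ℕ),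
          𝔼 t : Fin (N / Wn w), Xm w N J (k c) Kc u t ^ (n' + 1) ≤ 3 * K0c C ^ (n' + 1)) ∧
          𝔼 r : Fin (n' + 1) → kap w (Wn w) × Fin L,
            |𝔼 t : Fin (N / Wn w), ∏ i, Fp w N (po (r i) + Wn w * J + Wn w * t) -
              𝔼 t : Fin (N / Wn w), ∏ i, Xm w N J (k (r i).1) Kc (po (r i)) t| ≤ δ

/-- Markov's inequality for sums -/
lemma markovS {ι : Type} (s : Finset ι) (φ : ι → ℝ) (h0 : ∀ r ∈ s, 0 ≤ φ r) {t E : ℝ} (ht : 0 < t)
    (hE : ∑ r ∈ s, φ r ≤ E) : ((s.filter (fun r => t < φ r)).card : ℝ) ≤ E / t := by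
  rw [le_div_iff₀ ht]
  refine le_trans ?_ hE
  calc ((s.filter (fun r => t < φ r)).card : ℝ) * t =
        ∑ r ∈ s.filter (fun r => t < φ r), t := by rw [sum_const, nsmul_eq_mul]
    _ ≤ ∑ r ∈ s.filter (fun r => t < φ r), φ r := sum_le_sum fun r hr => (mem_filter.1 hr).2.le
    _ ≤ ∑ r ∈ s, φ r := sum_le_sum_of_subset_of_nonneg (filter_subset _ _) fun r hr _ => h0 r hr

/-- the bound for the factor -/
lemma fac_bound {w N J K H : ℕ} {α : Fin K → ℝ} {k : kap w (Wn w) → ℤ → ℝ} {Kc B3 : ℝ} (hT : Nonempty (Fin (N / Wn w)))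
    (hX0 : ∀ u (t : Fin (N / Wn w)), 0 ≤ Yf w N J k Kc u t) {r : ℕ}
    (hmom : ∀ (c : kap w (Wn w)) (u : ℕ), 𝔼 t : Fin (N / Wn w), Xm w N J (k c) Kc u t ^ (r + 1) ≤ B3) (hB3 : 0 ≤ B3)
    (h : Fin (r + 1) → ℕ) :
    0 ≤ fac (m := Wn w) (H := H) w α (XX w N J K H α k Kc) h ∧
      fac (m := Wn w) (H := H) w α (XX w N J K H α k Kc) h ≤ (r + 1) * B3 := by
  unfold fac
  simp_rw [sum_div_fin]
  constructor
  · exact div_nonneg (sum_nonneg fun a _ => expect_nonneg fun t _ => prod_nonneg fun i _ => hX0 _ _) (Nat.cast_nonneg _)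
  · refine div_le_of_le_mul₀ (Nat.cast_nonneg _) (by positivity) ?_
    rw [mul_comm, ← nsmul_eq_mul, ← sum_const]
    refine sum_le_sum fun a _ => ?_
    calc 𝔼 t : Fin (N / Wn w), ∏ i, XX w N J K H α k Kc (ty K (Wn w) H α (h i)) a t ≤
          𝔼 t : Fin (N / Wn w), ∑ i, XX w N J K H α k Kc (ty K (Wn w) H α (h i)) a t ^ (r + 1) :=
          expect_le_expect fun t _ => prod_le_sum _ fun i => hX0 _ _
      _ = ∑ i, 𝔼 t : Fin (N / Wn w), XX w N J K H α k Kc (ty K (Wn w) H α (h i)) a t ^ (r + 1) := expect_sum_comm _ _ _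
      _ ≤ ∑ _i : Fin (r + 1), B3 := sum_le_sum fun i _ => hmom _ _
      _ = _ := by
          rw [sum_const, card_univ, Fintype.card_fin, nsmul_eq_mul]
          push_cast
          ring

/-- the factor is at least nearly one if all types are equal -/
lemma fac_diag {w N J K H L : ℕ} {α : Fin K → ℝ} {k : kap w (Wn w) → ℤ → ℝ} {Kc δ1 : ℝ} (hT : Nonempty (Fin (N / Wn w)))
    (hX0 : ∀ u (t : Fin (N / Wn w)), 0 ≤ Yf w N J k Kc u t) (hHL : H + Wn w ≤ Wn w * L)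
    (hmean : ∀ o : kap w (Wn w) → ℕ, (∀ c, o c ≤ L) →
          |𝔼 c : kap w (Wn w), 𝔼 t : Fin (N / Wn w), Xm w N J (k c) Kc ((c : ℕ) + Wn w * o c) t - 1| ≤ δ1)
    (hδ1 : δ1 ≤ 1) {r : ℕ} (h : Fin (r + 1) → ℕ) (hh : ∀ i, h i ∈ Icc 1 H)
    (hty : ∀ i j, ty K (Wn w) H α (h i) = ty K (Wn w) H α (h j)) :
    1 - (r + 1) * δ1 ≤ fac (m := Wn w) (H := H) w α (XX w N J K H α k Kc) h := by
  have hne : Nonempty (adm w (fun _ : Fin 1 => h 0)) := by
    have h1 := card_adm w (h 0)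
    have h2 : 1 ≤ Fintype.card (kap w (Wn w)) := by
      have := kap_nonempty (w := w) (Wn_pos w)
      exact Fintype.card_pos
    have h3 : (adm w (fun _ : Fin 1 => h 0)).card ≠ 0 := by
      intro h4
      rw [h4] at h1
      have : Fintype.card (kap w (Wn w)) = 0 := by exact_mod_cast h1.symm
      omega
    obtain ⟨a, ha⟩ := Finset.card_ne_zero.1 h3
    exact ⟨⟨a, ha⟩⟩
  have hm := fac_mean (α := α) (K := K) (hh 0) hHL hmean
  have e0 : adm w h = adm w (fun _ : Fin 1 => h 0) := by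
    rw [← adm_const w (h 0) r]
    refine adm_congr fun i => ?_
    have := hty i 0
    unfold ty at this
    rw [Prod.mk.injEq] at this
    exact this.1
  have e1 : fac (m := Wn w) (H := H) w α (XX w N J K H α k Kc) h =
      𝔼 z : adm w (fun _ : Fin 1 => h 0) × Fin (N / Wn w), XX w N J K H α k Kc (ty K (Wn w) H α (h 0)) z.1 z.2 ^ (r + 1) := by
    unfold fac
    simp_rw [sum_div_fin]
    rw [e0, exp_prod, ← sum_div_exp (adm w (fun _ : Fin 1 => h 0)) (fun a => 𝔼 t : Fin (N / Wn w),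
      XX w N J K H α k Kc (ty K (Wn w) H α (h 0)) a t ^ (r + 1))]
    congr 1
    refine sum_congr rfl fun a _ => expect_congr rfl fun t _ => ?_
    rw [prod_congr rfl fun i _ => by rw [hty i 0], prod_const, card_univ, Fintype.card_fin]
  rw [e1]
  have hj := jensen (κ := adm w (fun _ : Fin 1 => h 0) × Fin (N / Wn w))
    (x := fun z => XX w N J K H α k Kc (ty K (Wn w) H α (h 0)) z.1 z.2) (fun z => hX0 _ _) (r + 1)
  refine le_trans ?_ hj
  rw [exp_prod]
  set x : ℝ := 𝔼 a : adm w (fun _ : Fin 1 => h 0), 𝔼 t : Fin (N / Wn w), XX w N J K H α k Kc (ty K (Wn w) H α (h 0)) a t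
    with hx
  have h1 := (abs_le.1 hm).1
  have h2 : 1 - δ1 ≤ x := by linarith
  have h3 : (1 - δ1) ^ (r + 1) ≤ x ^ (r + 1) := pow_le_pow_left₀ (by linarith) h2 _
  have h4 := one_add_mul_le_pow (a := -δ1) (by linarith) (r + 1)
  have e5 : (1 : ℝ) + ((r + 1 : ℕ) : ℝ) * -δ1 = 1 - (r + 1) * δ1 := by push_cast; ring
  have e6 : (1 : ℝ) + -δ1 = 1 - δ1 := by ring
  rw [e5, e6] at h4
  exact h4.trans h3

theorem finalB (hCT : S_CT) (hSG : S_SG) (hXV : S_XV) (hPO : S_PO) {R C : ℕ} (hC : 1 ≤ C)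
    (hLI : ∀ b : ℕ, C ≤ b → ∀ η : ℝ, 0 < η → ∀ w : ℕ, 1 ≤ w → ∀ᶠ N : ℕ in atTop, LI (2 * R + 6) C b w N η)
    (hCore : CoreHyp R C) : ∃ Cs : ℝ, 0 ≤ Cs ∧ ∀ δ : ℝ, 0 < δ → ∃ (w K : ℕ) (b : ℝ), 1 ≤ K ∧ Wn w ≤ K ∧
      ∀ ε : ℝ, 0 < ε → ∀ᶠ N : ℕ in atTop, ∀ H : ℕ, b * Real.log N ≤ H → (H : ℝ) ≤ (N : ℝ) ^ (1 - ε) →
      ∃ (T : ℕ) (α : Fin K → ℝ) (X : ℕ × ℕ × (Fin K → ℕ) → ℕ → Fin T → ℝ), 1 ≤ T ∧ (∀ c a t, 0 ≤ X c a t) ∧
        (∀ h ∈ Icc 1 H, |fac (m := Wn w) (H := H) w α X (fun _ : Fin 1 => h) - 1| ≤ δ) ∧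
        ∀ r ≤ R, (∀ h : Fin (r + 1) → ℕ, (∀ i, h i ∈ Icc 1 H) → fac (m := Wn w) (H := H) w α X h ≤ Cs) ∧
          (∀ h : Fin (r + 1) → ℕ, (∀ i, h i ∈ Icc 1 H) →
            (∀ i j, ty K (Wn w) H α (h i) = ty K (Wn w) H α (h j)) →
            1 - δ ≤ fac (m := Wn w) (H := H) w α X h) ∧
          (((Fintype.piFinset (fun _ : Fin (r + 1) => Icc 1 H)).filter (fun h =>
            δ * (N / Real.log N ^ (r + 1)) < |(pT h N : ℝ) -
              fac (m := Wn w) (H := H) w α X h * singularSeries h * (N / Real.log N ^ (r + 1))|)).card : ℝ) ≤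
            δ * (H : ℝ) ^ (r + 1) := by
  classical
  have hK02 : 2 ≤ K0c C := two_le_K C (C + 3)
  set Cs : ℝ := ∑ n ∈ range (R + 1), ((n : ℝ) + 1) * (3 * K0c C ^ (n + 1)) with hCs
  have hterm0 : ∀ n : ℕ, 0 ≤ ((n : ℝ) + 1) * (3 * K0c C ^ (n + 1)) := fun n => by positivity
  have hCs0 : 0 ≤ Cs := sum_nonneg fun n _ => hterm0 n
  have hCsn : ∀ n : ℕ, n ≤ R → ((n : ℝ) + 1) * (3 * K0c C ^ (n + 1)) ≤ Cs := fun n hn =>
    single_le_sum (f := fun n : ℕ => ((n : ℝ) + 1) * (3 * K0c C ^ (n + 1))) (fun i _ => hterm0 i)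
      (mem_range.2 (by omega))
  refine ⟨Cs, hCs0, fun δ hδ => ?_⟩
  set δ0 : ℝ := min δ 1 with hδ0
  have hδ0p : 0 < δ0 := lt_min hδ one_pos
  have hδ01 : δ0 ≤ 1 := min_le_right _ _
  have hδ0δ : δ0 ≤ δ := min_le_left _ _
  set P : ℝ := (R : ℝ) + 1 with hP
  have hP1 : 1 ≤ P := by rw [hP]; have := Nat.cast_nonneg (α := ℝ) R; linarith
  set δ1 : ℝ := min (δ0 / P) (δ0 ^ 2 / (16 * 3 ^ (R + 1))) with hδ1
  have hδ1p : 0 < δ1 := lt_min (by positivity) (by positivity)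
  have hδ1a : P * δ1 ≤ δ0 := by
    have : δ1 ≤ δ0 / P := min_le_left _ _
    rw [le_div_iff₀ (by positivity)] at this
    linarith
  have hδ1b : 3 ^ (R + 1) * δ1 ≤ δ0 ^ 2 / 16 := by
    have : δ1 ≤ δ0 ^ 2 / (16 * 3 ^ (R + 1)) := min_le_right _ _
    rw [le_div_iff₀ (by positivity)] at this
    linarith
  have hδ1c : δ1 ≤ 1 := by nlinarith
  obtain ⟨Kc, hKc, g, n, β, κ, hg, hβ, hκ, lam0, hlam0, hlam1, w0, hw0⟩ := hCore δ1 hδ1p
  set t : ℝ := δ0 ^ 2 / (32 * (1 + Cs)) with ht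
  have ht0 : 0 < t := by positivity
  have htCs : Cs * (2 * t) ≤ δ0 ^ 2 / 16 := by
    rw [ht]
    have : Cs * (2 * (δ0 ^ 2 / (32 * (1 + Cs)))) = δ0 ^ 2 / 16 * (Cs / (1 + Cs)) := by
      field_simp
      ring
    rw [this]
    refine mul_le_of_le_one_right (by positivity) ?_
    rw [div_le_one (by positivity)]
    linarith
  -- choice of w
  have e3 : ∀ᶠ w : ℕ in atTop, ∀ i ∈ range (R + 1), (Vv w)⁻¹ ^ (i + 1) * XA (i + 1) w ≤ t :=
    (eventually_all_finset _).2 fun i _ => le_of_ev (hXV (i + 1)).1 ht0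
  have e4 : ∀ᶠ w : ℕ in atTop, ∀ i ∈ range (R + 1), (Vv w)⁻¹ ^ (i + 1) * (((i + 1 : ℕ) : ℝ) ^ 2 / w) ≤ t :=
    (eventually_all_finset _).2 fun i _ => le_of_ev (hXV (i + 1)).2 ht0
  obtain ⟨w, g3, g4, g5, g6, g7⟩ := (e3.and (e4.and ((eventually_ge_atTop (R + 1)).and
    ((eventually_ge_atTop 2).and (eventually_ge_atTop w0))))).exists
  have hV := Vv_pos w
  have hVi : 1 ≤ (Vv w)⁻¹ := (one_le_inv₀ hV).2 (Vv_le_one w)
  set v : ℝ := (Vv w)⁻¹ ^ (R + 1) with hv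
  have hv1 : 1 ≤ v := one_le_pow₀ hVi
  have hvr : ∀ r ≤ R, (Vv w)⁻¹ ^ (r + 1) ≤ v := fun r hr => pow_le_pow_right₀ hVi (by omega)
  have hW := Wn_pos w
  have hWp : (0 : ℝ) < Wn w := by exact_mod_cast hW
  have hW2 : 2 ≤ Wn w := Nat.le_of_dvd hW ((dvd_Wn Nat.prime_two).2 g6)
  have hgp : (1 : ℝ) ≤ g := by exact_mod_cast hg
  -- the number of types
  set Qc : ℝ := v * (Kc ^ R * (P * (4 * K0c C * ((2 * g + n / κ) / β)))) with hQc
  have hQc0 : 0 ≤ Qc := by positivity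
  obtain ⟨K1, hK1⟩ := exists_nat_ge (8 * Qc / δ0)
  set K : ℕ := Wn w * n + Wn w * g + K1 + 1 with hK
  have hKn : Wn w * n ≤ K := by omega
  have hKg : Wn w * g ≤ K := by omega
  have hKW : Wn w ≤ K := (Nat.le_mul_of_pos_right _ hg).trans hKg
  have hK1' : 1 ≤ K := by omega
  have hKp : (0 : ℝ) < K := by exact_mod_cast hK1'
  have hQK : Qc / K ≤ δ0 / 8 := by
    rw [div_le_div_iff₀ hKp (by norm_num)]
    have h1 : 8 * Qc / δ0 ≤ K := hK1.trans (by exact_mod_cast (by omega : K1 ≤ K))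
    rw [div_le_iff₀ hδ0p] at h1
    linarith
  refine ⟨w, K, 8 * g * Wn w / lam0 + 4 * P ^ 2 / δ0 + g * Wn w + 4, hK1', hKW, fun ε hε => ?_⟩
  have eA1 : ∀ᶠ N : ℕ in atTop, ∀ i ∈ range (R + 1), (2 + Wn w : ℝ) * (Real.log N ^ (i + 1) * (N : ℝ) ^ (-(1 / 2 : ℝ))) ≤ δ0 / 16 :=
    (eventually_all_finset _).2 fun i _ => le_of_ev (log_pow_rpow (i + 1) (by norm_num) (2 + Wn w)) (by positivity)
  have eA2 : ∀ᶠ N : ℕ in atTop, ∀ i ∈ range (R + 1), ∀ x : ℕ, (x : ℝ) ≤ (1 : ℕ) * (N : ℝ) ^ (1 - ε) →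
      trT w N x (Real.log N ^ (i + 1)) ≤ δ0 / (16 * v) :=
    (eventually_all_finset _).2 fun i _ => trT_small w hε 1 (i + 1) (by positivity)
  have eA3 : ∀ᶠ N : ℕ in atTop, (v * (Wn w * Kc ^ (R + 1))) / N ≤ δ0 / 16 :=
    le_of_ev (tendsto_const_div_atTop_nhds_zero_nat _) (by positivity)
  filter_upwards [hw0 w g7 ε hε, hLI (C + 3) (by omega) (1 / 2) (by norm_num) w (by omega), eA1, eA2, eA3,
    eventually_ge_atTop 3, eventually_ge_atTop (w * w)] with N hN hLIN hA1 hA2 hA3 hN3 hww H hH hHN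
  have hlogN : 1 ≤ Real.log N := by
    rw [Real.le_log_iff_exp_le (by positivity)]
    have h3 : (3 : ℝ) ≤ N := by exact_mod_cast hN3
    linarith [Real.exp_one_lt_d9]
  have hNp : (0 : ℝ) < N := by
    have : (3 : ℝ) ≤ N := by exact_mod_cast hN3
    linarith
  -- sizes
  have z1 : (0 : ℝ) ≤ 8 * g * Wn w / lam0 := by positivity
  have z2 : (0 : ℝ) ≤ 4 * P ^ 2 / δ0 := by positivity
  have z3 : (0 : ℝ) ≤ g * Wn w := by positivity
  have hb1 : 8 * g * Wn w * Real.log N ≤ lam0 * H := by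
    have h1 : 8 * g * Wn w / lam0 * Real.log N ≤ H := by
      refine le_trans (mul_le_mul_of_nonneg_right ?_ (by linarith)) hH
      linarith
    rw [div_mul_eq_mul_div, div_le_iff₀ hlam0] at h1
    linarith
  have hbb : 8 * g * Wn w / lam0 + 4 * P ^ 2 / δ0 + g * Wn w + 4 ≤ H := by
    refine le_trans ?_ hH
    nlinarith
  have hb2 : 4 * P ^ 2 / δ0 ≤ H := by linarith
  have hb3 : g * Wn w ≤ H := by
    have : (g : ℝ) * Wn w ≤ H := by linarith
    exact_mod_cast this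
  have hb4 : 4 ≤ H := by
    have : (4 : ℝ) ≤ H := by linarith
    exact_mod_cast this
  have hH1 : 1 ≤ H := by omega
  have hHp : (0 : ℝ) < H := by exact_mod_cast hH1
  have hWH : Wn w ≤ H := (Nat.le_mul_of_pos_left _ hg).trans hb3
  set L : ℕ := H / Wn w + 2 with hL
  set J : ℕ := L / g with hJ
  have hdm := Nat.div_add_mod H (Wn w)
  have hml := Nat.mod_lt H hW
  have hLg : g ≤ L := by
    have : g ≤ H / Wn w := (Nat.le_div_iff_mul_le hW).2 hb3
    omega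
  have hJ1 : 1 ≤ J := Nat.div_pos hLg hg
  have hgJ : g * J ≤ L := Nat.mul_div_le L g
  have hL2 : L ≤ 2 * g * J := by
    have h1 := Nat.div_add_mod L g
    have h2 := Nat.mod_lt L hg
    have h3 : g * 1 ≤ g * J := Nat.mul_le_mul_left _ hJ1
    have h4 : 2 * g * J = g * J + g * J := by ring
    have h5 : g * (L / g) = g * J := rfl
    omega
  have hWL : Wn w * L = Wn w * (H / Wn w) + 2 * Wn w := by rw [hL]; ring
  have hHL : H + Wn w ≤ Wn w * L := by omega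
  have hWL3 : Wn w * L ≤ 3 * H := by omega
  have hLH : L ≤ H := by
    have h1 : 2 * (H / Wn w) ≤ Wn w * (H / Wn w) := Nat.mul_le_mul_right _ hW2
    omega
  have hLN : (L : ℝ) ≤ (N : ℝ) ^ (1 - ε) := le_trans (by exact_mod_cast hLH) hHN
  have hJL : J ≤ L := Nat.div_le_self _ _
  have hHJ : H ≤ 2 * g * (Wn w * J) := by
    have h1 : Wn w * L ≤ Wn w * (2 * g * J) := Nat.mul_le_mul_left _ hL2
    have h2 : Wn w * (2 * g * J) = 2 * g * (Wn w * J) := by ring
    omega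
  have hHJr : (H : ℝ) ≤ (2 * g) * (Wn w * J) := by exact_mod_cast hHJ
  have hKJ : H ≤ K * (2 * J) := by
    have h1 : Wn w * g * (2 * J) ≤ K * (2 * J) := Nat.mul_le_mul_right _ hKg
    have h2 : 2 * g * (Wn w * J) = Wn w * g * (2 * J) := by ring
    omega
  have hJlog : 4 * Real.log N ≤ lam0 * J := by
    have h1 : 8 * g * Wn w * Real.log N ≤ lam0 * ((2 * g) * (Wn w * J)) :=
      hb1.trans (mul_le_mul_of_nonneg_left hHJr hlam0.le)
    have h2 : (2 * g * Wn w : ℝ) * (4 * Real.log N) ≤ (2 * g * Wn w) * (lam0 * J) := by nlinarith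
    exact le_of_mul_le_mul_left h2 (by positivity)
  obtain ⟨ϑ, k, hBD, hmean, hall⟩ := hN L J hJ1 hgJ hJlog hLN
  have hT := Wn_le_nonempty hLIN.wn
  -- the frequencies
  have hcardU : Fintype.card (kap w (Wn w) × Fin n) ≤ Fintype.card (Fin K) := by
    rw [Fintype.card_prod, Fintype.card_fin, Fintype.card_fin, Fintype.card_coe]
    refine le_trans (Nat.mul_le_mul_right _ ?_) hKn
    unfold kap
    refine (card_filter_le _ _).trans ?_
    rw [Nat.card_Icc]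
    omega
  obtain ⟨emb⟩ := Function.Embedding.nonempty_of_card_le hcardU
  set α : Fin K → ℝ := Function.extend emb (fun z => ϑ z.1 z.2 / Wn w) (fun _ => 0) with hαdef
  have hα : ∀ c j, ∃ i, α i = ϑ c j / Wn w := fun c j =>
    ⟨emb (c, j), by rw [hαdef, emb.injective.extend_apply]⟩
  have hX0 : ∀ u (t : Fin (N / Wn w)), 0 ≤ Yf w N J k Kc u t := fun u t =>
    le_min (PsB_nonneg (hBD _) _ _ _ _) (by linarith)
  refine ⟨N / Wn w, α, XX w N J K H α k Kc, Nat.div_pos hLIN.wn hW, fun c a t => hX0 _ _, fun h hh => ?_,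
    fun r hr => ⟨fun h hh => ?_, fun h hh hty => ?_, ?_⟩⟩
  · have h1 := fac_mean (α := α) (K := K) hh hHL hmean
    have e : fac (m := Wn w) (H := H) w α (XX w N J K H α k Kc) (fun _ : Fin 1 => h) =
        𝔼 a : adm w (fun _ : Fin 1 => h), 𝔼 t : Fin (N / Wn w), XX w N J K H α k Kc (ty K (Wn w) H α h) a t := by
      unfold fac
      simp_rw [sum_div_fin]
      rw [← sum_div_exp (adm w (fun _ : Fin 1 => h)) (fun a => 𝔼 t : Fin (N / Wn w),
        XX w N J K H α k Kc (ty K (Wn w) H α h) a t)]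
      simp
    rw [e]
    refine h1.trans ?_
    nlinarith
  · exact (fac_bound hT hX0 (hall r hr).1 (by positivity) h).2.trans (hCsn r hr)
  · have h1 := fac_diag (α := α) hT hX0 hHL hmean hδ1c h hh hty
    have h2 : ((r : ℝ) + 1) * δ1 ≤ P * δ1 := by
      refine mul_le_mul_of_nonneg_right ?_ hδ1p.le
      rw [hP]
      have : (r : ℝ) ≤ R := by exact_mod_cast hr
      linarith
    linarith
  -- the main part
  obtain ⟨hmom, hcount⟩ := hall r hr
  have hrR : r ∈ range (R + 1) := mem_range.2 (by omega)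
  set box := Fintype.piFinset (fun _ : Fin (r + 1) => Icc 1 H) with hbox
  set ℓ : ℝ := Real.log N with hℓ
  have hℓ0 : 0 < ℓ := by linarith
  set F : (Fin (r + 1) → ℕ) → ℝ := fun h => fac (m := Wn w) (H := H) w α (XX w N J K H α k Kc) h with hF
  set φ1 : (Fin (r + 1) → ℕ) → ℝ := fun h => (Vv w)⁻¹ ^ (r + 1) * (1 / Wn w * eS w N L J k Kc r h) with hφ1
  set φ2 : (Fin (r + 1) → ℕ) → ℝ := fun h => Cs * ((Vv w)⁻¹ ^ (r + 1) * ((sg w (3 ^ (r + 1)) (dsc h) - 1) +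
    ((r : ℝ) + 1) ^ 2 / w)) with hφ2
  have hVr0 : 0 < (Vv w)⁻¹ ^ (r + 1) := pow_pos (inv_pos.2 hV) _
  have hφ10 : ∀ h, 0 ≤ φ1 h := fun h => by
    have : 0 ≤ eS w N L J k Kc r h := sum_nonneg fun a _ => sum_nonneg fun z _ => abs_nonneg _
    positivity
  -- the estimate for one vector
  have hone : ∀ h ∈ box, φ1 h ≤ δ0 / 4 → φ2 h ≤ δ0 / 4 → Function.Injective h →
      |ℓ ^ (r + 1) * pT h N / N - F h * singularSeries h| ≤ δ0 := by
    intro h hh c1' c2' c3'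
    rw [hbox, Fintype.mem_piFinset] at hh
    have hps := prime_side (w := w) (N := N) (L := L) (J := J) (H := H) (r := r) (Kc := Kc) (k := k) hCT hPO
      hLIN.wn hww hHL hKc (fun c u x => le_min (PsB_nonneg (hBD _) _ _ _ _) (by linarith)) h
      (fun i => (mem_Icc.1 (hh i)).1) (fun i => (mem_Icc.1 (hh i)).2)
    set S3 : ℝ := (Vv w)⁻¹ ^ (r + 1) * (1 / Wn w * ∑ a ∈ adm w h, 𝔼 t : Fin (N / Wn w), ∏ i, Yf w N J k Kc (a + h i) t)
      with hS3
    set S4 : ℝ := (Vv w)⁻¹ ^ (r + 1) * (1 / Wn w * ∑ a ∈ adm w h, 𝔼 t : Fin (N / Wn w),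
      ∏ i, XX w N J K H α k Kc (ty K (Wn w) H α (h i)) a t) with hS4
    -- small terms
    have a1 : ℓ ^ (r + 1) * (Real.sqrt N + 1 + Wn w) / N ≤ δ0 / 16 := by
      refine le_trans ?_ (hA1 r hrR)
      have hsN : 1 ≤ Real.sqrt N := by
        rw [Real.one_le_sqrt]
        have : (3 : ℝ) ≤ N := by exact_mod_cast hN3
        linarith
      have e1 : (N : ℝ) ^ (-(1 / 2 : ℝ)) = Real.sqrt N / N := by
        rw [Real.rpow_neg hNp.le, ← Real.sqrt_eq_rpow, inv_eq_one_div, div_eq_div_iff (by positivity) (by positivity),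
          one_mul, Real.mul_self_sqrt hNp.le]
      rw [e1]
      have e2 : (2 + Wn w : ℝ) * (ℓ ^ (r + 1) * (Real.sqrt N / N)) = ℓ ^ (r + 1) * ((2 + Wn w) * Real.sqrt N) / N := by
        ring
      rw [e2]
      refine div_le_div_of_nonneg_right (mul_le_mul_of_nonneg_left ?_ (by positivity)) hNp.le
      nlinarith
    have a2 : (Vv w)⁻¹ ^ (r + 1) * trT w N J (ℓ ^ (r + 1)) ≤ δ0 / 16 := by
      have h1 := hA2 r hrR J (by
        rw [Nat.cast_one, one_mul]
        exact le_trans (by exact_mod_cast hJL) hLN)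
      calc _ ≤ v * (δ0 / (16 * v)) := by
            refine mul_le_mul (hvr r hr) h1 ?_ (by linarith)
            unfold trT
            positivity
        _ = δ0 / 16 := by field_simp
    have a3 : (Vv w)⁻¹ ^ (r + 1) * (Wn w * Kc ^ (r + 1) / N) ≤ δ0 / 16 := by
      refine le_trans ?_ hA3
      have e1 : (Vv w)⁻¹ ^ (r + 1) * (Wn w * Kc ^ (r + 1) / N) = (Vv w)⁻¹ ^ (r + 1) * (Wn w * Kc ^ (r + 1)) / N := by ring
      rw [e1]
      refine div_le_div_of_nonneg_right ?_ hNp.le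
      exact mul_le_mul (hvr r hr) (mul_le_mul_of_nonneg_left (pow_le_pow_right₀ hKc (by omega)) hWp.le)
        (by positivity) (by linarith)
    have hps' : |ℓ ^ (r + 1) * pT h N / N - S3| ≤ δ0 / 16 + δ0 / 16 + δ0 / 16 + δ0 / 4 := by
      refine hps.trans ?_
      have e1 : (Vv w)⁻¹ ^ (r + 1) * (trT w N J (ℓ ^ (r + 1)) + 1 / Wn w * eS w N L J k Kc r h + Wn w * Kc ^ (r + 1) / N) =
          (Vv w)⁻¹ ^ (r + 1) * trT w N J (ℓ ^ (r + 1)) + φ1 h + (Vv w)⁻¹ ^ (r + 1) * (Wn w * Kc ^ (r + 1) / N) := by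
        rw [hφ1]
        ring
      rw [e1]
      linarith
    -- representatives
    have hS34 : |S3 - S4| ≤ δ0 / 8 := by
      have e1 : S3 - S4 = (Vv w)⁻¹ ^ (r + 1) * (1 / Wn w * ∑ a ∈ adm w h,
          (𝔼 t : Fin (N / Wn w), ∏ i, Yf w N J k Kc (a + h i) t - 𝔼 t : Fin (N / Wn w),
            ∏ i, XX w N J K H α k Kc (ty K (Wn w) H α (h i)) a t)) := by
        rw [hS3, hS4, sum_sub_distrib]
        ring
      rw [e1, abs_mul, abs_mul, abs_of_pos hVr0, abs_of_pos (by positivity : (0 : ℝ) < 1 / Wn w)]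
      set ζ : ℝ := (2 * g) / K + (n / K) / κ with hζ
      have h1 : ∀ a ∈ adm w h, |𝔼 t : Fin (N / Wn w), ∏ i, Yf w N J k Kc (a + h i) t - 𝔼 t : Fin (N / Wn w),
            ∏ i, XX w N J K H α k Kc (ty K (Wn w) H α (h i)) a t| ≤ Kc ^ r * ((r + 1) * (4 * K0c C * (ζ / β))) := by
        intro a ha
        unfold adm at ha
        rw [mem_filter, mem_Icc] at ha
        exact rep_vec hLIN (by norm_num) (by omega) hBD hβ hκ hK1' hH1 hα hKJ hHJr hJ1 le_rfl hKc h hh ha.1.1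
      have h2 : |∑ a ∈ adm w h, (𝔼 t : Fin (N / Wn w), ∏ i, Yf w N J k Kc (a + h i) t - 𝔼 t : Fin (N / Wn w),
            ∏ i, XX w N J K H α k Kc (ty K (Wn w) H α (h i)) a t)| ≤ Wn w * (Kc ^ r * ((r + 1) * (4 * K0c C * (ζ / β)))) := by
        refine (abs_sum_le_sum_abs _ _).trans ((sum_le_sum h1).trans ?_)
        rw [sum_const, nsmul_eq_mul]
        refine mul_le_mul_of_nonneg_right ?_ ?_
        · have : (adm w h).card ≤ (Icc 1 (Wn w)).card := card_filter_le _ _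
          rw [Nat.card_Icc] at this
          exact_mod_cast (by omega : (adm w h).card ≤ Wn w)
        · have : 0 ≤ ζ := by positivity
          positivity
      have hζ0 : 0 ≤ ζ := by positivity
      calc (Vv w)⁻¹ ^ (r + 1) * (1 / Wn w * |∑ a ∈ adm w h, (𝔼 t : Fin (N / Wn w), ∏ i, Yf w N J k Kc (a + h i) t -
            𝔼 t : Fin (N / Wn w), ∏ i, XX w N J K H α k Kc (ty K (Wn w) H α (h i)) a t)|) ≤
            (Vv w)⁻¹ ^ (r + 1) * (1 / Wn w * (Wn w * (Kc ^ r * ((r + 1) * (4 * K0c C * (ζ / β)))))) :=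
            mul_le_mul_of_nonneg_left (mul_le_mul_of_nonneg_left h2 (by positivity)) hVr0.le
        _ = (Vv w)⁻¹ ^ (r + 1) * (Kc ^ r * ((r + 1) * (4 * K0c C * (ζ / β)))) := by
            field_simp
        _ ≤ v * (Kc ^ R * (P * (4 * K0c C * (ζ / β)))) := by
            have i1 : Kc ^ r ≤ Kc ^ R := pow_le_pow_right₀ hKc hr
            have i2 : (r : ℝ) + 1 ≤ P := by
              rw [hP]
              have : (r : ℝ) ≤ R := by exact_mod_cast hr
              linarith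
            have i3 : 0 ≤ 4 * K0c C * (ζ / β) := by positivity
            exact mul_le_mul (hvr r hr) (mul_le_mul i1 (mul_le_mul_of_nonneg_right i2 i3) (by positivity)
              (by positivity)) (by positivity) (by linarith)
        _ = Qc / K := by
            rw [hQc, hζ]
            field_simp
        _ ≤ δ0 / 8 := hQK
    -- the singular series
    obtain ⟨hF0, hFle⟩ := fac_bound (α := α) (K := K) (H := H) hT hX0 hmom (by positivity) h
    have hFCs : F h ≤ Cs := hFle.trans (hCsn r hr)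
    have hS4F : S4 = F h * ((Vv w)⁻¹ ^ (r + 1) * ((adm w h).card / Wn w : ℝ)) := by
      rw [hS4, hF]
      show _ = fac (m := Wn w) (H := H) w α (XX w N J K H α k Kc) h * _
      unfold fac
      simp_rw [sum_div_fin]
      rcases Nat.eq_zero_or_pos (adm w h).card with h0 | h0
      · rw [Finset.card_eq_zero.1 h0]
        simp
      · have : (0 : ℝ) < (adm w h).card := by exact_mod_cast h0
        field_simp
    have hsg := hSG w r h (by omega) c3'
    have hFS : |S4 - F h * singularSeries h| ≤ δ0 / 4 := by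
      rw [hS4F, ← mul_sub, abs_mul, abs_of_nonneg hF0, abs_sub_comm]
      refine le_trans (mul_le_mul hFCs hsg (abs_nonneg _) hCs0) ?_
      exact c2'
    have t1 := abs_sub_le (ℓ ^ (r + 1) * pT h N / N) S3 S4
    have t2 := abs_sub_le (ℓ ^ (r + 1) * pT h N / N) S4 (F h * singularSeries h)
    linarith
  -- the exceptional sets
  have hbad1 : ((box.filter (fun h => δ0 / 4 < φ1 h)).card : ℝ) ≤ δ0 / 4 * (H : ℝ) ^ (r + 1) := by
    have h1 := sum_eS (w := w) (N := N) (L := L) (J := J) (H := H) (r := r) (Kc := Kc) (k := k) hPO (by omega)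
      (by omega) hHL hcount
    refine (markovS box φ1 (fun h _ => hφ10 h) (by positivity) h1).trans ?_
    rw [div_le_iff₀ (by positivity)]
    have h2 : ((Wn w : ℝ) * L) ^ (r + 1) ≤ 3 ^ (R + 1) * (H : ℝ) ^ (r + 1) := by
      have h3 : (Wn w : ℝ) * L ≤ 3 * H := by exact_mod_cast hWL3
      calc ((Wn w : ℝ) * L) ^ (r + 1) ≤ (3 * (H : ℝ)) ^ (r + 1) := pow_le_pow_left₀ (by positivity) h3 _
        _ = 3 ^ (r + 1) * (H : ℝ) ^ (r + 1) := mul_pow _ _ _
        _ ≤ _ := mul_le_mul_of_nonneg_right (pow_le_pow_right₀ (by norm_num) (by omega)) (by positivity)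
    calc ((Wn w : ℝ) * L) ^ (r + 1) * δ1 ≤ (3 ^ (R + 1) * (H : ℝ) ^ (r + 1)) * δ1 :=
          mul_le_mul_of_nonneg_right h2 hδ1p.le
      _ = (3 ^ (R + 1) * δ1) * (H : ℝ) ^ (r + 1) := by ring
      _ ≤ (δ0 ^ 2 / 16) * (H : ℝ) ^ (r + 1) := mul_le_mul_of_nonneg_right hδ1b (by positivity)
      _ = _ := by ring
  have hHe : Nonempty (Fin H) := ⟨⟨0, hH1⟩⟩
  have hcardF : (Fintype.card (Fin (r + 1) → Fin H) : ℝ) = (H : ℝ) ^ (r + 1) := by
    rw [Fintype.card_fun, Fintype.card_fin, Fintype.card_fin]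
    push_cast
    rfl
  have hbad2 : ((box.filter (fun h => δ0 / 4 < φ2 h)).card : ℝ) ≤ δ0 / 4 * (H : ℝ) ^ (r + 1) := by
    have h1 := card_bad (H := H) (n := r) (fun h => δ0 / 4 < φ2 h)
    have hE : 𝔼 r' : Fin (r + 1) → Fin H, φ2 (fun i => vl (r' i)) ≤ δ0 ^ 2 / 16 := by
      rw [hφ2]
      simp only
      rw [← mul_expect, ← mul_expect, expect_add_distrib, Fintype.expect_const]
      refine le_trans (mul_le_mul_of_nonneg_left ?_ hCs0) htCs
      rw [mul_add]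
      have a1 := PS.exp_sg_dsc (R := H) (m := r + 1) (w := w) hH1 (by omega)
      have a2 := g3 r hrR
      have a3 := g4 r hrR
      have a4 := mul_le_mul_of_nonneg_left a1 hVr0.le
      push_cast at a3
      linarith
    have h2 := markov (fun r' : Fin (r + 1) → Fin H => φ2 (fun i => vl (r' i))) (fun r' => by
      have := sg_one_le (w := w) (c := 3 ^ (r + 1)) (by positivity) (dsc (fun i => vl (r' i)))
      have h2 : (0 : ℝ) ≤ ((r : ℝ) + 1) ^ 2 / w := by positivity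
      have h3 : 0 ≤ (sg w (3 ^ (r + 1)) (dsc (fun i => vl (r' i))) - 1) + ((r : ℝ) + 1) ^ 2 / w := by linarith
      rw [hφ2]
      positivity) (t := δ0 / 4) (by positivity) hE
    rw [hcardF] at h2
    have h3 : ((box.filter (fun h => δ0 / 4 < φ2 h)).card : ℝ) ≤
        (((univ : Finset (Fin (r + 1) → Fin H)).filter (fun r' => δ0 / 4 < φ2 (fun i => vl (r' i)))).card : ℝ) := by
      exact_mod_cast h1
    refine h3.trans (h2.trans (le_of_eq ?_))
    field_simp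
    norm_num
  have hbad3 : ((box.filter (fun h => ¬ Function.Injective h)).card : ℝ) ≤ δ0 / 4 * (H : ℝ) ^ (r + 1) := by
    have h1 := card_bad (H := H) (n := r) (fun h => ¬ Function.Injective h)
    have m3 := noninj (n := r) hH1
    have h3 : ((box.filter (fun h => ¬ Function.Injective h)).card : ℝ) ≤
        (((univ : Finset (Fin (r + 1) → Fin H)).filter (fun r' => ¬ Function.Injective (fun i => vl (r' i)))).card : ℝ) := by
      exact_mod_cast h1
    have h4 : (univ : Finset (Fin (r + 1) → Fin H)).filter (fun r' => ¬ Function.Injective (fun i => vl (r' i))) ⊆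
        univ.filter (fun r' => ¬ Function.Injective r') := by
      intro r' hr'
      rw [mem_filter] at hr' ⊢
      exact ⟨hr'.1, fun hinj => hr'.2 (vl_inj.comp hinj)⟩
    have h5 : (((univ : Finset (Fin (r + 1) → Fin H)).filter (fun r' => ¬ Function.Injective (fun i => vl (r' i)))).card : ℝ) ≤
        (((univ : Finset (Fin (r + 1) → Fin H)).filter (fun r' => ¬ Function.Injective r')).card : ℝ) := by
      exact_mod_cast card_le_card h4
    refine h3.trans (h5.trans (m3.trans (mul_le_mul_of_nonneg_right ?_ (by positivity))))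
    rw [div_le_iff₀ hHp]
    have h6 : ((r : ℝ) + 1) ^ 2 ≤ P ^ 2 := by
      rw [hP]
      have : (r : ℝ) ≤ R := by exact_mod_cast hr
      exact pow_le_pow_left₀ (by positivity) (by linarith) 2
    rw [div_le_iff₀ hδ0p] at hb2
    linarith
  -- conclusion
  have hsub : box.filter (fun h => δ * (N / ℓ ^ (r + 1)) < |(pT h N : ℝ) - F h * singularSeries h * (N / ℓ ^ (r + 1))|) ⊆
      (box.filter (fun h => δ0 / 4 < φ1 h) ∪ box.filter (fun h => δ0 / 4 < φ2 h)) ∪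
        box.filter (fun h => ¬ Function.Injective h) := by
    intro h hh
    rw [mem_filter] at hh
    by_contra hcon
    rw [mem_union, mem_union, mem_filter, mem_filter, mem_filter] at hcon
    push Not at hcon
    obtain ⟨⟨c1', c2'⟩, c3'⟩ := hcon
    have h1 := hone h hh.1 (c1' hh.1) (c2' hh.1) (c3' hh.1)
    have h2 : (pT h N : ℝ) - F h * singularSeries h * (N / ℓ ^ (r + 1)) =
        (N / ℓ ^ (r + 1)) * (ℓ ^ (r + 1) * pT h N / N - F h * singularSeries h) := by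
      field_simp
    have h3 : |(pT h N : ℝ) - F h * singularSeries h * (N / ℓ ^ (r + 1))| ≤ δ * (N / ℓ ^ (r + 1)) := by
      rw [h2, abs_mul, abs_of_nonneg (by positivity), mul_comm]
      exact mul_le_mul_of_nonneg_right (h1.trans hδ0δ) (by positivity)
    exact absurd h3 (not_le.2 hh.2)
  have hfin : ((box.filter (fun h => δ * (N / ℓ ^ (r + 1)) <
      |(pT h N : ℝ) - F h * singularSeries h * (N / ℓ ^ (r + 1))|)).card : ℝ) ≤
      (((box.filter (fun h => δ0 / 4 < φ1 h)).card + (box.filter (fun h => δ0 / 4 < φ2 h)).card +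
        (box.filter (fun h => ¬ Function.Injective h)).card : ℕ) : ℝ) := by
    exact_mod_cast (card_le_card hsub).trans ((card_union_le _ _).trans (Nat.add_le_add_right (card_union_le _ _) _))
  refine hfin.trans ?_
  push_cast
  have hHr : 0 ≤ (H : ℝ) ^ (r + 1) := by positivity
  have : δ0 * (H : ℝ) ^ (r + 1) ≤ δ * (H : ℝ) ^ (r + 1) := mul_le_mul_of_nonneg_right hδ0δ hHr
  nlinarith

end Pool.Agent.NH16.BT
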