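import Pool.Agent.NH16.BT.Stm
import Pool.Agent.Helper602.MK.J5b

set_option autoImplicit false

/-! Task BT4 (job 501, helper59): heavy arcs. -/

namespace Pool.Agent.NH16.BT.HA

open Finset
open scoped BigOperators
open Pool.Agent.Helper602.MK (ee)
open Pool.Agent.Helper602.MK.N_J5b (KD KD_le KD_far normsq_sum ee_conj ee_add)

/-! ### the distance to the nearest integer -/

theorem nrm_le (x : ℝ) (n : ℤ) : nrm x ≤ |x - n| := round_le x n

theorem nrm_zero : nrm 0 = 0 := by simp [nrm]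

theorem nrm_neg_le (x : ℝ) : nrm (-x) ≤ nrm x := by
  have h := nrm_le (-x) (-round x)
  have e : |(-x) - ((-round x : ℤ) : ℝ)| = nrm x := by
    unfold nrm
    rw [← abs_neg]
    congr 1
    push_cast
    ring
  rw [e] at h
  exact h

theorem nrm_symm (x y : ℝ) : nrm (x - y) = nrm (y - x) := by
  apply le_antisymm
  · have := nrm_neg_le (y - x)
    rwa [neg_sub] at this
  · have := nrm_neg_le (x - y)
    rwa [neg_sub] at this

theorem nrm_add_le (x y : ℝ) : nrm (x + y) ≤ nrm x + nrm y := by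
  have h := nrm_le (x + y) (round x + round y)
  refine h.trans ?_
  unfold nrm
  have e : x + y - ((round x + round y : ℤ) : ℝ) = (x - round x) + (y - round y) := by
    push_cast; ring
  rw [e]
  exact abs_add_le _ _

theorem nrm_tri (x y z : ℝ) : nrm (x - z) ≤ nrm (x - y) + nrm (y - z) := by
  have e : x - z = (x - y) + (y - z) := by ring
  rw [e]
  exact nrm_add_le _ _

/-! ### the sum of the weights -/

noncomputable def wt (k : ℕ) : ℝ := if k = 0 then 1 else 1 / (k : ℝ) ^ 2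

theorem wt_nonneg (k : ℕ) : 0 ≤ wt k := by
  unfold wt; split_ifs <;> positivity

theorem sum_wt (L : ℕ) : ∑ k ∈ range (L + 1 + 1), wt k ≤ 3 - 1 / ((L : ℝ) + 1) := by
  induction L with
  | zero => simp [wt, Finset.sum_range_succ]; norm_num
  | succ L ih =>
    rw [Finset.sum_range_succ]
    have h1 : wt (L + 1 + 1) = 1 / ((L : ℝ) + 1 + 1) ^ 2 := by
      unfold wt; rw [if_neg (by omega)]; push_cast; rfl
    rw [h1]
    push_cast
    have h2 : 1 / ((L : ℝ) + 1 + 1) ^ 2 ≤ 1 / ((L : ℝ) + 1) - 1 / ((L : ℝ) + 1 + 1) := by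
      rw [div_sub_div _ _ (by positivity) (by positivity), div_le_div_iff₀ (by positivity) (by positivity)]
      nlinarith [(Nat.cast_nonneg L : (0 : ℝ) ≤ L)]
    linarith

theorem sum_wt' (L : ℕ) (hL : 1 ≤ L) : ∑ k ∈ range (L + 1), wt k ≤ 3 := by
  obtain ⟨M, rfl⟩ : ∃ M, L = M + 1 := ⟨L - 1, by omega⟩
  have := sum_wt M
  have h2 : 0 ≤ 1 / ((M : ℝ) + 1) := by positivity
  linarith

/-! ### duality -/

theorem dual {Ξ : Type} (B : Finset Ξ) (E : Ξ → ℝ) (hE : ∀ ξ, 0 ≤ E ξ) (L : ℕ)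
    (G : Ξ → Fin L → ℂ) (b : Fin L → ℝ) (hb : ∀ s, |b s| ≤ 1) :
    (∑ ξ ∈ B, E ξ * ‖∑ s, (b s : ℂ) * G ξ s‖ ^ 2) ^ 2 ≤
      (L : ℝ) ^ 2 * ∑ ξ ∈ B, ∑ ξ' ∈ B, E ξ * E ξ' *
        ‖∑ s, G ξ s * (starRingEnd ℂ) (G ξ' s)‖ ^ 2 := by
  set R : Fin L × Fin L → ℂ := fun p => ∑ ξ ∈ B, (E ξ : ℂ) * (G ξ p.1 * (starRingEnd ℂ) (G ξ p.2))
    with hR
  set W : ℝ := ∑ ξ ∈ B, E ξ * ‖∑ s, (b s : ℂ) * G ξ s‖ ^ 2 with hW
  have hW0 : 0 ≤ W := Finset.sum_nonneg fun ξ _ => mul_nonneg (hE ξ) (by positivity)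
  have h1 : (W : ℂ) = ∑ p : Fin L × Fin L, ((b p.1 : ℂ) * (b p.2 : ℂ)) * R p := by
    simp only [hR, Finset.mul_sum]
    rw [Finset.sum_comm, hW]
    push_cast
    refine Finset.sum_congr rfl fun ξ _ => ?_
    have h := normsq_sum (univ : Finset (Fin L)) (fun s => (b s : ℂ) * G ξ s)
    push_cast at h
    rw [h, Finset.mul_sum, Fintype.sum_prod_type]
    refine Finset.sum_congr rfl fun s _ => ?_
    rw [Finset.mul_sum]
    refine Finset.sum_congr rfl fun s' _ => ?_
    rw [map_mul, Complex.conj_ofReal]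
    ring
  have h2 : W ≤ ∑ p : Fin L × Fin L, ‖R p‖ := by
    have e : W = ‖(W : ℂ)‖ := by
      rw [Complex.norm_real, Real.norm_of_nonneg hW0]
    rw [e, h1]
    refine (norm_sum_le _ _).trans (Finset.sum_le_sum fun p _ => ?_)
    rw [norm_mul, norm_mul, Complex.norm_real, Complex.norm_real, Real.norm_eq_abs,
      Real.norm_eq_abs]
    have h3 : |b p.1| * |b p.2| ≤ 1 := mul_le_one₀ (hb _) (abs_nonneg _) (hb _)
    exact mul_le_of_le_one_left (norm_nonneg _) h3
  have h3 : W ^ 2 ≤ (L : ℝ) ^ 2 * ∑ p : Fin L × Fin L, ‖R p‖ ^ 2 := by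
    have h4 := sq_sum_le_card_mul_sum_sq (s := (univ : Finset (Fin L × Fin L)))
      (f := fun p => ‖R p‖)
    have hc : ((univ : Finset (Fin L × Fin L)).card : ℝ) = (L : ℝ) ^ 2 := by
      rw [Finset.card_univ, Fintype.card_prod, Fintype.card_fin]; push_cast; ring
    rw [hc] at h4
    exact (pow_le_pow_left₀ hW0 h2 2).trans h4
  have h4 : ∑ p : Fin L × Fin L, ‖R p‖ ^ 2 = ∑ ξ ∈ B, ∑ ξ' ∈ B, E ξ * E ξ' *
        ‖∑ s, G ξ s * (starRingEnd ℂ) (G ξ' s)‖ ^ 2 := by
    have hc : ((∑ p : Fin L × Fin L, ‖R p‖ ^ 2 : ℝ) : ℂ) = ((∑ ξ ∈ B, ∑ ξ' ∈ B, E ξ * E ξ' *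
        ‖∑ s, G ξ s * (starRingEnd ℂ) (G ξ' s)‖ ^ 2 : ℝ) : ℂ) := by
      push_cast
      have e1 : ∀ p : Fin L × Fin L, ((‖R p‖ : ℂ)) ^ 2 = ∑ ξ ∈ B, ∑ ξ' ∈ B,
          ((E ξ : ℂ) * (G ξ p.1 * (starRingEnd ℂ) (G ξ p.2))) *
            (starRingEnd ℂ) ((E ξ' : ℂ) * (G ξ' p.1 * (starRingEnd ℂ) (G ξ' p.2))) := by
        intro p
        have h := normsq_sum B (fun ξ => (E ξ : ℂ) * (G ξ p.1 * (starRingEnd ℂ) (G ξ p.2)))
        push_cast at h
        exact h
      simp only [e1]
      rw [Finset.sum_comm]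
      refine Finset.sum_congr rfl fun ξ _ => ?_
      rw [Finset.sum_comm]
      refine Finset.sum_congr rfl fun ξ' _ => ?_
      have h := normsq_sum (univ : Finset (Fin L)) (fun s => G ξ s * (starRingEnd ℂ) (G ξ' s))
      push_cast at h
      rw [h, Finset.mul_sum, Fintype.sum_prod_type]
      refine Finset.sum_congr rfl fun s _ => ?_
      rw [Finset.mul_sum]
      refine Finset.sum_congr rfl fun s' _ => ?_
      simp only [map_mul, Complex.conj_ofReal, Complex.conj_conj]
      ring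
    exact_mod_cast hc
  rw [h4] at h3
  exact h3

/-! ### the kernel -/

theorem KD_wt (L : ℕ) (hL : 1 ≤ L) (t : ℝ) : KD L t ≤ (L : ℝ) ^ 2 * wt ⌊2 * L * nrm t⌋₊ := by
  have hL' : (0 : ℝ) < L := by exact_mod_cast hL
  unfold wt
  split_ifs with h
  · rw [mul_one]; exact KD_le L t
  · set k := ⌊2 * L * nrm t⌋₊ with hk
    have hk0 : (0 : ℝ) < k := by exact_mod_cast Nat.pos_of_ne_zero h
    have hn : 0 ≤ nrm t := abs_nonneg _
    have h1 : (k : ℝ) ≤ 2 * L * nrm t := Nat.floor_le (by positivity)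
    have h2 := KD_far L t (k / (2 * L)) (by positivity) (fun n => by
      refine le_trans ?_ (nrm_le t n)
      rw [div_le_iff₀ (by positivity)]
      linarith)
    refine h2.trans (le_of_eq ?_)
    field_simp
    ring

theorem kern (L : ℕ) (x y : ℝ) : ‖∑ s : Fin L, ee ((s.val : ℝ) * x) *
    (starRingEnd ℂ) (ee ((s.val : ℝ) * y))‖ ^ 2 = KD L (x - y) := by
  unfold KD
  rw [← Fin.sum_univ_eq_sum_range (fun j => ee ((j : ℝ) * (x - y))) L]
  congr 2
  refine Finset.sum_congr rfl fun s _ => ?_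
  rw [ee_conj, ← ee_add]
  congr 1
  ring

/-! ### the main theorem -/

theorem main : S_HA := by
  intro Ξ _ x E A τ L hL hτ hA hE hEA
  classical
  have hL' : (0 : ℝ) < L := by exact_mod_cast hL
  set h : Ξ → ℝ := fun ξ => ∑ ξ' ∈ univ.filter (fun ξ' => nrm (x ξ - x ξ') < 1 / (2 * L)), E ξ'
    with hh
  -- the maximal separated set of heavy elements
  set F : Finset (Finset Ξ) := univ.filter (fun T => (∀ ξ ∈ T, τ ≤ h ξ) ∧
    ∀ i ∈ T, ∀ j ∈ T, i ≠ j → 1 / (L : ℝ) ≤ nrm (x i - x j)) with hF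
  have hne : F.Nonempty := ⟨∅, by rw [hF, mem_filter]; simp⟩
  obtain ⟨S, hS, hmax⟩ := Finset.exists_max_image F Finset.card hne
  rw [hF, mem_filter] at hS
  obtain ⟨-, hS1, hS2⟩ := hS
  refine ⟨S, ?_, ?_⟩
  · rw [le_div_iff₀ hτ]
    calc (S.card : ℝ) * τ = ∑ ξ ∈ S, τ := by rw [Finset.sum_const, nsmul_eq_mul]
      _ ≤ ∑ ξ ∈ S, h ξ := Finset.sum_le_sum hS1
      _ = ∑ ξ' : Ξ, ∑ ξ ∈ S, if nrm (x ξ - x ξ') < 1 / (2 * L) then E ξ' else 0 := by
          rw [Finset.sum_comm]
          refine Finset.sum_congr rfl fun ξ _ => ?_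
          rw [hh]
          simp only [Finset.sum_filter]
      _ ≤ ∑ ξ' : Ξ, E ξ' := by
          refine Finset.sum_le_sum fun ξ' _ => ?_
          rw [← Finset.sum_filter, Finset.sum_const, nsmul_eq_mul]
          refine mul_le_of_le_one_left (hE ξ') ?_
          have hc : (S.filter (fun ξ => nrm (x ξ - x ξ') < 1 / (2 * L))).card ≤ 1 := by
            rw [Finset.card_le_one]
            intro i hi j hj
            rw [mem_filter] at hi hj
            by_contra hij
            have h1 := hS2 i hi.1 j hj.1 hij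
            have h2 := nrm_tri (x i) (x ξ') (x j)
            have h3 := hj.2
            rw [nrm_symm] at h3
            have h4 := hi.2
            have h5 : 1 / (2 * (L : ℝ)) + 1 / (2 * L) = 1 / L := by field_simp; norm_num
            linarith
          exact_mod_cast hc
      _ ≤ A := hEA
  · intro b hb B hB
    -- no element of `B` is heavy
    have hlight : ∀ ξ ∈ B, h ξ < τ := by
      intro ξ hξ
      by_contra hcon
      push Not at hcon
      have hnS : ξ ∉ S := by
        intro hS'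
        have := hB ξ hξ ξ hS'
        rw [sub_self, nrm_zero] at this
        have h2 : 0 < 1 / (L : ℝ) := by positivity
        linarith
      have hT : insert ξ S ∈ F := by
        rw [hF, mem_filter]
        refine ⟨mem_univ _, ?_, ?_⟩
        · intro i hi
          rcases Finset.mem_insert.mp hi with rfl | hi
          · exact hcon
          · exact hS1 i hi
        · intro i hi j hj hij
          rcases Finset.mem_insert.mp hi with hi' | hi'
          · rcases Finset.mem_insert.mp hj with hj' | hj'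
            · exact absurd (hi'.trans hj'.symm) hij
            · rw [hi']; exact hB _ hξ j hj'
          · rcases Finset.mem_insert.mp hj with hj' | hj'
            · rw [nrm_symm, hj']; exact hB _ hξ i hi'
            · exact hS2 i hi' j hj' hij
      have := hmax _ hT
      rw [Finset.card_insert_of_notMem hnS] at this
      omega
    -- the row sums
    have hrow : ∀ ξ ∈ B, ∑ ξ' ∈ B, E ξ' * KD L (x ξ - x ξ') ≤ 6 * τ * (L : ℝ) ^ 2 := by
      intro ξ hξ
      set t : Ξ → ℝ := fun ξ' => (x ξ - x ξ') - round (x ξ - x ξ') with ht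
      set c : Ξ → Bool × ℕ := fun ξ' => (decide (0 ≤ t ξ'), ⌊2 * L * nrm (x ξ - x ξ')⌋₊) with hc
      have hmaps : ∀ ξ' ∈ B, c ξ' ∈ (univ : Finset Bool) ×ˢ range (L + 1) := by
        intro ξ' _
        rw [Finset.mem_product]
        refine ⟨mem_univ _, ?_⟩
        rw [Finset.mem_range, Nat.lt_succ_iff]
        apply Nat.floor_le_of_le
        have : nrm (x ξ - x ξ') ≤ 1 / 2 := abs_sub_round _
        nlinarith
      have hcl : ∀ d : Bool × ℕ, ∑ ξ' ∈ B.filter (fun ξ' => c ξ' = d), E ξ' ≤ τ := by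
        intro d
        rcases (B.filter (fun ξ' => c ξ' = d)).eq_empty_or_nonempty with he | ⟨ξ0, h0⟩
        · rw [he, Finset.sum_empty]; exact hτ.le
        · rw [mem_filter] at h0
          refine le_trans ?_ (hlight ξ0 h0.1).le
          refine Finset.sum_le_sum_of_subset_of_nonneg ?_ (fun i _ _ => hE i)
          intro ξ1 h1
          rw [mem_filter] at h1 ⊢
          refine ⟨mem_univ _, ?_⟩
          have hcc : c ξ0 = c ξ1 := h0.2.trans h1.2.symm
          simp only [hc, Prod.mk.injEq, decide_eq_decide] at hcc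
          obtain ⟨c1, c2⟩ := hcc
          have hn : nrm (x ξ0 - x ξ1) ≤ |t ξ1 - t ξ0| := by
            have h3 := nrm_le (x ξ0 - x ξ1) (round (x ξ - x ξ1) - round (x ξ - x ξ0))
            refine h3.trans (le_of_eq ?_)
            congr 1
            simp only [ht]
            push_cast
            ring
          refine lt_of_le_of_lt hn ?_
          have f0 : (⌊2 * L * nrm (x ξ - x ξ0)⌋₊ : ℝ) ≤ 2 * L * nrm (x ξ - x ξ0) :=
            Nat.floor_le (by have : 0 ≤ nrm (x ξ - x ξ0) := abs_nonneg _; positivity)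
          have f1 : (⌊2 * L * nrm (x ξ - x ξ1)⌋₊ : ℝ) ≤ 2 * L * nrm (x ξ - x ξ1) :=
            Nat.floor_le (by have : 0 ≤ nrm (x ξ - x ξ1) := abs_nonneg _; positivity)
          have g0 := Nat.lt_floor_add_one (2 * L * nrm (x ξ - x ξ0))
          have g1 := Nat.lt_floor_add_one (2 * L * nrm (x ξ - x ξ1))
          rw [← c2] at f1 g1
          have n0 : nrm (x ξ - x ξ0) = |t ξ0| := rfl
          have n1 : nrm (x ξ - x ξ1) = |t ξ1| := rfl
          rw [n0] at f0 g0 f1 g1
          rw [n1] at f1 g1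
          rw [lt_div_iff₀ (by positivity)]
          have hd : |t ξ1 - t ξ0| * (2 * (L : ℝ)) = abs (2 * L * |t ξ1| - 2 * L * |t ξ0|) := by
            have e1 : 2 * (L : ℝ) * |t ξ1| - 2 * L * |t ξ0| = (2 * L) * (|t ξ1| - |t ξ0|) := by ring
            rw [e1, abs_mul, abs_of_pos (by positivity : (0 : ℝ) < 2 * L), mul_comm]
            congr 1
            by_cases hs : 0 ≤ t ξ0
            · rw [abs_of_nonneg hs, abs_of_nonneg (c1.mp hs)]
            · have hs1 : ¬ 0 ≤ t ξ1 := fun hh' => hs (c1.mpr hh')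
              push Not at hs hs1
              rw [abs_of_neg hs, abs_of_neg hs1, ← abs_neg]
              congr 1; ring
          rw [hd, abs_lt]
          constructor <;> linarith
      calc ∑ ξ' ∈ B, E ξ' * KD L (x ξ - x ξ')
          ≤ ∑ ξ' ∈ B, (L : ℝ) ^ 2 * (E ξ' * wt (c ξ').2) := by
            refine Finset.sum_le_sum fun ξ' _ => ?_
            have := mul_le_mul_of_nonneg_left (KD_wt L hL (x ξ - x ξ')) (hE ξ')
            refine this.trans (le_of_eq ?_)
            simp only [hc]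
            ring
        _ = (L : ℝ) ^ 2 * ∑ d ∈ (univ : Finset Bool) ×ˢ range (L + 1),
              ∑ ξ' ∈ B.filter (fun ξ' => c ξ' = d), E ξ' * wt (c ξ').2 := by
            rw [Finset.sum_fiberwise_of_maps_to hmaps, Finset.mul_sum]
        _ ≤ (L : ℝ) ^ 2 * ∑ d ∈ (univ : Finset Bool) ×ˢ range (L + 1), τ * wt d.2 := by
            refine mul_le_mul_of_nonneg_left (Finset.sum_le_sum fun d _ => ?_) (by positivity)
            have e : ∑ ξ' ∈ B.filter (fun ξ' => c ξ' = d), E ξ' * wt (c ξ').2 =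
                (∑ ξ' ∈ B.filter (fun ξ' => c ξ' = d), E ξ') * wt d.2 := by
              rw [Finset.sum_mul]
              refine Finset.sum_congr rfl fun ξ' h' => ?_
              rw [(mem_filter.mp h').2]
            rw [e]
            exact mul_le_mul_of_nonneg_right (hcl d) (wt_nonneg _)
        _ ≤ 6 * τ * (L : ℝ) ^ 2 := by
            rw [Finset.sum_product]
            simp only [← Finset.mul_sum, Finset.sum_const, Finset.card_univ, Fintype.card_bool,
              nsmul_eq_mul]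
            have := sum_wt' L hL
            push_cast
            have h3 : τ * ∑ k ∈ range (L + 1), wt k ≤ τ * 3 := mul_le_mul_of_nonneg_left this hτ.le
            have h4 : (0 : ℝ) ≤ (L : ℝ) ^ 2 := by positivity
            nlinarith
    have hdual := dual B E hE L (fun ξ s => ee ((s.val : ℝ) * x ξ)) b hb
    simp only [kern] at hdual
    have hsum : ∑ ξ ∈ B, ∑ ξ' ∈ B, E ξ * E ξ' * KD L (x ξ - x ξ') ≤ A * (6 * τ * (L : ℝ) ^ 2) := by
      calc ∑ ξ ∈ B, ∑ ξ' ∈ B, E ξ * E ξ' * KD L (x ξ - x ξ')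
          = ∑ ξ ∈ B, E ξ * ∑ ξ' ∈ B, E ξ' * KD L (x ξ - x ξ') := by
            refine Finset.sum_congr rfl fun ξ _ => ?_
            rw [Finset.mul_sum]
            exact Finset.sum_congr rfl fun ξ' _ => by ring
        _ ≤ ∑ ξ ∈ B, E ξ * (6 * τ * (L : ℝ) ^ 2) :=
            Finset.sum_le_sum fun ξ hξ => mul_le_mul_of_nonneg_left (hrow ξ hξ) (hE ξ)
        _ = (∑ ξ ∈ B, E ξ) * (6 * τ * (L : ℝ) ^ 2) := by rw [Finset.sum_mul]
        _ ≤ A * (6 * τ * (L : ℝ) ^ 2) := by
            refine mul_le_mul_of_nonneg_right ?_ (by positivity)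
            refine le_trans ?_ hEA
            exact Finset.sum_le_sum_of_subset_of_nonneg (subset_univ _) (fun i _ _ => hE i)
    -- conclusion
    have hconv : ∑ ξ ∈ B, E ξ * ‖𝔼 s : Fin L, (b s : ℂ) * ee ((s.val : ℝ) * x ξ)‖ ^ 2 =
        (∑ ξ ∈ B, E ξ * ‖∑ s : Fin L, (b s : ℂ) * ee ((s.val : ℝ) * x ξ)‖ ^ 2) / (L : ℝ) ^ 2 := by
      rw [Finset.sum_div]
      refine Finset.sum_congr rfl fun ξ _ => ?_
      rw [Fintype.expect_eq_sum_div_card, Fintype.card_fin, norm_div, Complex.norm_natCast, div_pow,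
        mul_div_assoc]
    rw [hconv]
    apply Real.le_sqrt_of_sq_le
    rw [div_pow, div_le_iff₀ (by positivity)]
    refine hdual.trans ?_
    have h5 : (0 : ℝ) ≤ (L : ℝ) ^ 2 := by positivity
    have := mul_le_mul_of_nonneg_left hsum h5
    refine this.trans (le_of_eq ?_)
    ring

end Pool.Agent.NH16.BT.HA
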