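import Pool.Agent.NH16.BT.Stm

set_option autoImplicit false

/-!
# Averages over the positions prime to `Wn w`
-/

namespace Pool.Agent.NH16.BT.PO

open Finset Filter
open scoped BigOperators
open Pool.Agent.NH16.DL Pool.Agent.NH16.SM Pool.Agent.NH16.BT

lemma primeFactors_Wn (w : ℕ) : (Wn w).primeFactors = PP w := by
  ext p
  rw [Nat.mem_primeFactors, mem_PP]
  constructor
  · rintro ⟨h1, h2, _⟩
    exact ⟨h1, (dvd_Wn h1).1 h2⟩
  · rintro ⟨h1, h2⟩
    exact ⟨h1, (dvd_Wn h1).2 h2, (Wn_pos w).ne'⟩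

lemma card_kap (w : ℕ) : ((kap w (Wn w)).card : ℝ) = Vv w * Wn w := by
  have h1 : kap w (Wn w) = {x ∈ Ico 1 (1 + Wn w) | (Wn w).Coprime x} := by
    ext n
    unfold kap
    rw [mem_filter, mem_filter, mem_Icc, mem_Ico, cop_iff, Nat.coprime_comm]
    refine and_congr_left fun _ => ?_
    omega
  have h2 : (kap w (Wn w)).card = Nat.totient (Wn w) := by
    rw [h1]
    exact Nat.filter_coprime_Ico_eq_totient (Wn w) 1
  rw [h2]
  have h3 := congrArg (fun x : ℚ => (x : ℝ)) (Nat.totient_eq_mul_prod_factors (Wn w))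
  simp only [Rat.cast_mul, Rat.cast_natCast, Rat.cast_prod, Rat.cast_sub, Rat.cast_one,
    Rat.cast_inv, primeFactors_Wn] at h3
  rw [h3, Vv, mul_comm]
  congr 1
  exact prod_congr rfl fun p _ => by rw [one_div]

lemma kap_mem {w : ℕ} (c : kap w (Wn w)) : 1 ≤ (c : ℕ) ∧ (c : ℕ) ≤ Wn w := by
  have := (mem_filter.1 c.2).1
  exact mem_Icc.1 this

lemma po_pos {w L : ℕ} (z : kap w (Wn w) × Fin L) : 1 ≤ po z := by
  unfold po
  have := (kap_mem z.1).1
  omega

lemma po_le {w L : ℕ} (z : kap w (Wn w) × Fin L) : po z ≤ Wn w * L := by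
  unfold po
  have h1 := (kap_mem z.1).2
  have h2 : Wn w * (z.2.val + 1) ≤ Wn w * L := Nat.mul_le_mul_left _ z.2.2
  rw [mul_add, mul_one] at h2
  omega

lemma po_inj (w L : ℕ) : Function.Injective (po (w := w) (L := L)) := by
  rintro ⟨c, s⟩ ⟨c', s'⟩ h
  unfold po at h
  simp only at h
  have h1 := kap_mem c
  have h1' := kap_mem c'
  have hs : s.val = s'.val := by
    by_contra hne
    rcases Nat.lt_or_gt_of_ne hne with h2 | h2
    · have : Wn w * (s.val + 1) ≤ Wn w * s'.val := Nat.mul_le_mul_left _ h2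
      rw [mul_add, mul_one] at this
      omega
    · have : Wn w * (s'.val + 1) ≤ Wn w * s.val := Nat.mul_le_mul_left _ h2
      rw [mul_add, mul_one] at this
      omega
  have hc : (c : ℕ) = c' := by
    rw [hs] at h
    omega
  exact Prod.ext (Subtype.ext hc) (Fin.ext hs)

lemma po_surj {w L n : ℕ} (h1 : 1 ≤ n) (h2 : n ≤ Wn w * L) (h3 : ∀ p ∈ PP w, ¬ p ∣ n) :
    ∃ z : kap w (Wn w) × Fin L, po z = n := by
  have hW := Wn_pos w
  have hdm := Nat.mod_add_div (n - 1) (Wn w)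
  have hm := Nat.mod_lt (n - 1) hW
  have hd : (n - 1) / Wn w < L := Nat.div_lt_of_lt_mul (by omega)
  have hc : (n - 1) % Wn w + 1 ∈ kap w (Wn w) := by
    unfold kap
    rw [mem_filter, mem_Icc]
    refine ⟨by omega, fun p hp hpd => h3 p hp ?_⟩
    have hpW : p ∣ Wn w * ((n - 1) / Wn w) :=
      ((dvd_Wn (mem_PP.1 hp).1).2 (mem_PP.1 hp).2).mul_right _
    have h4 : n = ((n - 1) % Wn w + 1) + Wn w * ((n - 1) / Wn w) := by omega
    rw [h4]
    exact dvd_add hpd hpW
  refine ⟨(⟨_, hc⟩, ⟨_, hd⟩), ?_⟩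
  unfold po
  simp only
  omega

/-- the index of a position -/
def ix {w L : ℕ} (z : kap w (Wn w) × Fin L) : Fin (Wn w * L) :=
  ⟨po z - 1, by have := po_pos z; have := po_le z; omega⟩

lemma vl_ix {w L : ℕ} (z : kap w (Wn w) × Fin L) : vl (ix z) = po z := by
  unfold vl ix
  simp only
  have := po_pos z
  omega

lemma ix_inj (w L : ℕ) : Function.Injective (ix (w := w) (L := L)) := by
  intro a b h
  exact po_inj w L (by rw [← vl_ix a, ← vl_ix b, h])

lemma exp_po {w L m : ℕ} (hw : 1 ≤ w) (hL : 1 ≤ L) :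
    𝔼 r : Fin m → kap w (Wn w) × Fin L, (sg w (3 ^ m) (dsc (fun i => po (r i))) - 1) ≤
      (Vv w)⁻¹ ^ m * XA m w := by
  have hW := Wn_pos w
  have hWL : 1 ≤ Wn w * L := Nat.mul_pos hW hL
  have h1 := PS.exp_sg_dsc (R := Wn w * L) (m := m) (w := w) hWL hw
  have hinj : Function.Injective (fun (r : Fin m → kap w (Wn w) × Fin L) (i : Fin m) => ix (r i)) := by
    intro a b h
    funext i
    exact ix_inj w L (congrFun h i)
  have h0 : ∀ n : ℕ, 0 ≤ sg w (3 ^ m) n - 1 := fun n =>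
    sub_nonneg.2 (sg_one_le (by positivity) n)
  have h2 : ∑ r : Fin m → kap w (Wn w) × Fin L, (sg w (3 ^ m) (dsc (fun i => po (r i))) - 1) ≤
      ∑ r : Fin m → Fin (Wn w * L), (sg w (3 ^ m) (dsc (fun i => vl (r i))) - 1) := by
    have e : ∀ r : Fin m → kap w (Wn w) × Fin L, sg w (3 ^ m) (dsc (fun i => po (r i))) - 1 =
        (fun r' : Fin m → Fin (Wn w * L) => sg w (3 ^ m) (dsc (fun i => vl (r' i))) - 1)
          (fun i => ix (r i)) := by
      intro r
      simp only [vl_ix]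
    rw [sum_congr rfl fun r _ => e r]
    rw [← sum_image (s := univ) (g := fun (r : Fin m → kap w (Wn w) × Fin L) (i : Fin m) => ix (r i))
      (f := fun r' : Fin m → Fin (Wn w * L) => sg w (3 ^ m) (dsc (fun i => vl (r' i))) - 1)
      (fun a _ b _ h => hinj h)]
    exact sum_le_sum_of_subset_of_nonneg (subset_univ _) fun _ _ _ => h0 _
  have hV := Vv_pos w
  have hWr : (0 : ℝ) < Wn w := by exact_mod_cast hW
  have hLr : (0 : ℝ) < L := by exact_mod_cast hL
  have hcard : (Fintype.card (Fin m → kap w (Wn w) × Fin L) : ℝ) = (Vv w * Wn w * L) ^ m := by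
    rw [Fintype.card_fun, Fintype.card_prod, Fintype.card_coe, Fintype.card_fin, Fintype.card_fin]
    push_cast
    rw [card_kap]
  have hcard2 : (Fintype.card (Fin m → Fin (Wn w * L)) : ℝ) = (Wn w * L : ℝ) ^ m := by
    rw [Fintype.card_fun, Fintype.card_fin, Fintype.card_fin]
    push_cast
    rfl
  rw [Fintype.expect_eq_sum_div_card, hcard2, div_le_iff₀ (by positivity)] at h1
  rw [Fintype.expect_eq_sum_div_card, hcard, div_le_iff₀ (by positivity)]
  refine h2.trans (h1.trans (le_of_eq ?_))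
  rw [mul_pow, mul_pow, mul_pow, inv_pow]
  have : Vv w ^ m ≠ 0 := by positivity
  field_simp

lemma swap_po (w L H r : ℕ) (φ : (Fin r → kap w (Wn w) × Fin L) → ℝ) (hφ : ∀ z, 0 ≤ φ z) :
    ∑ h ∈ Fintype.piFinset (fun _ : Fin r => Icc 1 H), ∑ a ∈ Icc 1 (Wn w),
      ∑ z ∈ univ.filter (fun z : Fin r → kap w (Wn w) × Fin L => ∀ i, po (z i) = a + h i), φ z ≤
    Wn w * ∑ z, φ z := by
  rw [sum_comm]
  have h1 : ∀ a ∈ Icc 1 (Wn w), ∑ h ∈ Fintype.piFinset (fun _ : Fin r => Icc 1 H),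
      ∑ z ∈ univ.filter (fun z : Fin r → kap w (Wn w) × Fin L => ∀ i, po (z i) = a + h i), φ z ≤
      ∑ z, φ z := by
    intro a _
    simp only [sum_filter]
    rw [sum_comm]
    refine sum_le_sum fun z _ => ?_
    rw [← sum_filter, sum_const, nsmul_eq_mul]
    refine mul_le_of_le_one_left (hφ z) ?_
    have : ((Fintype.piFinset (fun _ : Fin r => Icc 1 H)).filter
        (fun h => ∀ i, po (z i) = a + h i)).card ≤ 1 := by
      rw [card_le_one]
      intro x hx y hy
      rw [mem_filter] at hx hy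
      funext i
      have h2 := hx.2 i
      have h3 := hy.2 i
      omega
    exact_mod_cast this
  refine (sum_le_sum h1).trans (le_of_eq ?_)
  rw [sum_const, Nat.card_Icc, nsmul_eq_mul, Nat.add_sub_cancel]

theorem main : S_PO :=
  ⟨card_kap, po_inj, fun _ _ _ hw hL => exp_po hw hL, fun _ _ _ h1 h2 h3 => po_surj h1 h2 h3,
    fun w L H r φ hφ _ => swap_po w L H r φ hφ⟩

end Pool.Agent.NH16.BT.PO
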