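import Pool.Agent.NH16.BT.E3
import Pool.Agent.NH16.BT.PO
import Pool.Agent.NH16.SM.FP

set_option autoImplicit false
set_option linter.unusedSectionVars false
set_option linter.unusedVariables false

/-!
# The mean value of the primes over the residue classes; counting with a model depending on the position
-/

namespace Pool.Agent.NH16.BT.MN

open Finset Filter Topology
open scoped BigOperators
open Pool.Agent.NH16.DL Pool.Agent.NH16.SM Pool.Agent.NH16.BT

theorem main2 : S_XV := by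
  intro m
  constructor
  · have h := (vpow_exp m (c := (1 + 3 ^ m) ^ (m + m * m)) (by positivity)).const_mul ((m + 2 * m * m : ℝ))
    rw [mul_zero] at h
    refine h.congr fun w => ?_
    unfold XA
    ring
  · have h := (vpow_div m).const_mul ((m : ℝ) ^ 2)
    rw [mul_zero] at h
    refine h.congr fun w => ?_
    ring

theorem main3 : S_CN := by
  intro ρ κ _ _ _ _ n j K B τ ε Mj f ν Ψ hK hf0 hf hν hΨ hmom hB hτ hMB hMB2 hPR hcut
  have hK0 : 0 < K := by linarith
  have h := counting (ρ := ρ) (κ := κ) (f := f) (F := fun s q => min (Ψ s q) K) (ν := ν) (g := fun _ _ => 1)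
    (K := K) (A := 1) (B := B) (τ := τ) (ε := 2 * ε + 2 * (Mj / K ^ j)) (n := n) hK0.le
    (fun s q => by rw [abs_of_nonneg (hf0 s q)]; exact hf s q)
    (fun s q => by
      rw [mul_one, abs_of_nonneg (le_min (hΨ s q) hK0.le)]
      exact min_le_right _ _)
    hν (fun _ _ => zero_le_one) (fun _ _ => le_rfl) hB hτ hMB hMB2 hPR (by
      intro b hb
      have e1 : ∀ q, 𝔼 s, b s * (f s q - min (Ψ s q) K) = 𝔼 s, b s * (f s q - Ψ s q) +
          𝔼 s, b s * (Ψ s q - min (Ψ s q) K) := by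
        intro q
        rw [← expect_add_distrib]
        exact expect_congr rfl fun s _ => by ring
      have e2 : ∀ q, (𝔼 s, b s * (f s q - min (Ψ s q) K)) ^ 2 ≤ 2 * (𝔼 s, b s * (f s q - Ψ s q)) ^ 2 +
          2 * ((𝔼 s, Ψ s q ^ (j + 2)) / K ^ j) := by
        intro q
        rw [e1]
        have h4 : (𝔼 s, b s * (Ψ s q - min (Ψ s q) K)) ^ 2 ≤ (𝔼 s, Ψ s q ^ (j + 2)) / K ^ j := by
          have h5 : (𝔼 s, b s * (Ψ s q - min (Ψ s q) K)) ^ 2 ≤ 𝔼 s, (b s * (Ψ s q - min (Ψ s q) K)) ^ 2 := by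
            have h6 := cs_weight (ι := ρ) (fun _ => 1) (fun _ => 1) (fun s => b s * (Ψ s q - min (Ψ s q) K))
              (fun _ => by simp)
            simpa using h6
          refine h5.trans ?_
          rw [expect_div]
          refine expect_le_expect fun s _ => ?_
          rw [mul_pow]
          have hb2 : b s ^ 2 ≤ 1 := by
            rw [← sq_abs]
            exact pow_le_one₀ (abs_nonneg _) (hb s)
          calc b s ^ 2 * (Ψ s q - min (Ψ s q) K) ^ 2 ≤ 1 * (Ψ s q - min (Ψ s q) K) ^ 2 :=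
                mul_le_mul_of_nonneg_right hb2 (sq_nonneg _)
            _ ≤ _ := by rw [one_mul]; exact trunc_sq (hΨ s q) hK j
        nlinarith [sq_nonneg (𝔼 s, b s * (f s q - Ψ s q) - 𝔼 s, b s * (Ψ s q - min (Ψ s q) K))]
      refine (expect_le_expect fun q _ => e2 q).trans ?_
      rw [expect_add_distrib, ← mul_expect, ← mul_expect, ← expect_div, expect_comm]
      have h5 : (𝔼 s, 𝔼 q, Ψ s q ^ (j + 2)) / K ^ j ≤ Mj / K ^ j := div_le_div_of_nonneg_right hmom (by positivity)
      have e3 : 𝔼 j_1 : ρ, 𝔼 i : κ, Ψ j_1 i ^ (j + 2) = 𝔼 s, 𝔼 q, Ψ s q ^ (j + 2) := rfl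
      linarith [hcut b hb])
  rw [one_pow, one_mul] at h
  exact h

/-- sums over the numbers prime to `Wn w` -/
lemma sum_kap (w k : ℕ) (φ : ℕ → ℝ) :
    ∑ n ∈ kap w (Wn w * k), φ n = ∑ c ∈ kap w (Wn w), ∑ t ∈ range k, φ (c + Wn w * t) := by
  induction k with
  | zero =>
    simp only [mul_zero, range_zero, sum_empty, sum_const_zero]
    unfold kap
    simp
  | succ k ih =>
    simp only [sum_range_succ]
    rw [sum_add_distrib, ← ih]
    have e : kap w (Wn w * (k + 1)) = kap w (Wn w * k) ∪ (kap w (Wn w)).image (fun c => c + Wn w * k) := by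
      ext n
      rw [mem_union, mem_image]
      unfold kap
      simp only [mem_filter, mem_Icc]
      have hd : ∀ p ∈ PP w, p ∣ Wn w * k := fun p hp =>
        ((dvd_Wn (mem_PP.1 hp).1).2 (mem_PP.1 hp).2).mul_right _
      constructor
      · rintro ⟨⟨h1, h2⟩, h3⟩
        by_cases h : n ≤ Wn w * k
        · exact Or.inl ⟨⟨h1, h⟩, h3⟩
        · right
          refine ⟨n - Wn w * k, ⟨⟨by omega, ?_⟩, fun p hp hdv => ?_⟩, by omega⟩
          · rw [mul_add, mul_one] at h2
            omega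
          · have h4 := h3 p hp
            apply h4
            have h5 := dvd_add hdv (hd p hp)
            rwa [Nat.sub_add_cancel (by omega)] at h5
      · rintro (⟨⟨h1, h2⟩, h3⟩ | ⟨c, ⟨⟨h1, h2⟩, h3⟩, rfl⟩)
        · exact ⟨⟨h1, h2.trans (Nat.mul_le_mul_left _ (Nat.le_succ k))⟩, h3⟩
        · refine ⟨⟨by omega, ?_⟩, fun p hp hdv => h3 p hp ((Nat.dvd_add_left (hd p hp)).1 hdv)⟩
          rw [mul_add, mul_one]
          omega
    rw [e, sum_union]
    · rw [sum_image]
      intro a _ b _ hab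
      exact Nat.add_right_cancel hab
    · rw [Finset.disjoint_left]
      intro n h1 h2
      rw [mem_image] at h2
      obtain ⟨c, hc, rfl⟩ := h2
      unfold kap at h1 hc
      rw [mem_filter, mem_Icc] at h1 hc
      omega

lemma kap_mono {w a b : ℕ} (h : a ≤ b) : kap w a ⊆ kap w b := by
  unfold kap
  exact filter_subset_filter _ (Icc_subset_Icc le_rfl h)

theorem main1 : S_MN := by
  intro w l δ ε hδ hε
  have hV := Vv_pos w
  have hW := Wn_pos w
  have hWp : (0 : ℝ) < Wn w := by exact_mod_cast hW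
  set d : ℝ := min (δ / 16) (1 / 8) with hd
  have hd0 : 0 < d := lt_min (by positivity) (by norm_num)
  have hd1 : d ≤ 1 / 8 := min_le_right _ _
  have hdδ : 16 * d ≤ δ := by
    have : d ≤ δ / 16 := min_le_left _ _
    linarith
  have hlim1 : ∀ᶠ N : ℕ in atTop, (Wn w * 1 / Vv w : ℝ) * (Real.log N ^ 1 * (N : ℝ) ^ (-(1 : ℝ))) ≤ d :=
    le_of_ev (log_pow_rpow 1 one_pos _) hd0
  have hlim2 : ∀ᶠ N : ℕ in atTop, (Wn w : ℝ) / N ≤ d := le_of_ev (tendsto_const_div_atTop_nhds_zero_nat _) hd0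
  filter_upwards [trT_small w hε l 1 (t := d) hd0, Pool.Agent.NH16.SM.FP.main2 w d hd0,
    Pool.Agent.NH16.SM.FP.main3 w d hd0, hlim1, hlim2, eventually_ge_atTop (Wn w), eventually_ge_atTop 1]
    with N htr hm hc hl1 hl2 hWN hN1 o ho
  have hNp : (0 : ℝ) < N := by exact_mod_cast hN1
  have hT := Wn_le_nonempty hWN
  have hlog : 0 ≤ Real.log N := Real.log_natCast_nonneg N
  set T : ℕ := N / Wn w with hTd
  have hT1 : 1 ≤ T := Nat.div_pos hWN hW
  have hTp : (0 : ℝ) < T := by exact_mod_cast hT1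
  have hne : Nonempty (kap w (Wn w)) := kap_nonempty hW
  have hcardk : (Fintype.card (kap w (Wn w)) : ℝ) = Vv w * Wn w := by
    rw [Fintype.card_coe]
    exact PO.main.1 w
  set E0 : ℝ := 𝔼 c : kap w (Wn w), 𝔼 t : Fin T, Fp w N ((c : ℕ) + Wn w * t) with hE0
  -- translation
  have h1 : |𝔼 c : kap w (Wn w), 𝔼 t : Fin T, Fp w N ((c : ℕ) + Wn w * (o + t)) - E0| ≤ d := by
    rw [hE0, ← expect_sub_distrib]
    refine (abs_expect_le _ _).trans (expect_le univ_nonempty fun c _ => ?_)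
    have h2 := shiftT (T := T) o (fun t => Fp w N ((c : ℕ) + Wn w * t)) (Real.log N) (fun n => Fp_nonneg _ _ _)
      (fun n => Fp_le _ _ _)
    have h3 := htr o ho
    rw [pow_one] at h3
    have e : 𝔼 t : Fin T, Fp w N ((c : ℕ) + Wn w * (o + t)) = 𝔼 t : Fin T, Fp w N ((c : ℕ) + Wn w * (t + o)) :=
      expect_congr rfl fun t _ => by rw [add_comm o]
    rw [e]
    exact h2.trans h3
  -- the mean value
  set S : ℕ → ℝ := fun M => ∑ n ∈ kap w M, Fp w N n with hS
  have hE0S : E0 * (Vv w * Wn w * T) = S (Wn w * T) := by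
    rw [hE0, hS]
    show _ = ∑ n ∈ kap w (Wn w * T), Fp w N n
    rw [sum_kap, Fintype.expect_eq_sum_div_card, hcardk]
    have e : ∀ c : kap w (Wn w), 𝔼 t : Fin T, Fp w N ((c : ℕ) + Wn w * t) =
        (∑ t ∈ range T, Fp w N ((c : ℕ) + Wn w * t)) / T := by
      intro c
      rw [Fintype.expect_eq_sum_div_card, Fintype.card_fin, Finset.sum_range]
    simp only [e]
    rw [← sum_div, Finset.sum_coe_sort (kap w (Wn w)) (fun c => ∑ t ∈ range T, Fp w N (c + Wn w * t))]
    field_simp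
  have hWT : Wn w * T ≤ N := Nat.mul_div_le N (Wn w)
  have hS1 : S (Wn w * T) ≤ S N := sum_le_sum_of_subset_of_nonneg (kap_mono hWT) fun n _ _ => Fp_nonneg _ _ _
  have hS2 : S N ≤ S (Wn w * T) + Wn w * Real.log N := by
    have hsub : kap w N ⊆ kap w (Wn w * T) ∪ Ioc (Wn w * T) N := by
      intro n hn
      unfold kap at hn ⊢
      rw [mem_filter, mem_Icc] at hn
      rw [mem_union, mem_filter, mem_Icc, mem_Ioc]
      by_cases h : n ≤ Wn w * T
      · exact Or.inl ⟨⟨hn.1.1, h⟩, hn.2⟩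
      · exact Or.inr ⟨by omega, hn.1.2⟩
    have a1 : S N ≤ S (Wn w * T) + ∑ n ∈ Ioc (Wn w * T) N, Fp w N n := by
      refine (sum_le_sum_of_subset_of_nonneg hsub fun n _ _ => Fp_nonneg _ _ _).trans ?_
      rw [← sum_union_inter]
      have : 0 ≤ ∑ n ∈ kap w (Wn w * T) ∩ Ioc (Wn w * T) N, Fp w N n := sum_nonneg fun n _ => Fp_nonneg _ _ _
      linarith
    have a2 : ∑ n ∈ Ioc (Wn w * T) N, Fp w N n ≤ Wn w * Real.log N := by
      calc ∑ n ∈ Ioc (Wn w * T) N, Fp w N n ≤ ∑ _n ∈ Ioc (Wn w * T) N, Real.log N := sum_le_sum fun n _ => Fp_le _ _ _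
        _ = ((N - Wn w * T : ℕ) : ℝ) * Real.log N := by rw [sum_const, Nat.card_Ioc, nsmul_eq_mul]
        _ ≤ _ := by
          refine mul_le_mul_of_nonneg_right ?_ hlog
          have h5 := Nat.div_add_mod N (Wn w)
          have h6 := Nat.mod_lt N hW
          exact_mod_cast (by rw [← hTd] at h5; omega : N - Wn w * T ≤ Wn w)
    linarith
  have hSN : S N = ((kap w N).card : ℝ) * mean w N (Fp w N) := by
    have hcp : (0 : ℝ) < ((kap w N).card : ℝ) := by
      have : Nonempty (kap w N) := kap_nonempty hN1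
      obtain ⟨⟨a, ha⟩⟩ := this
      exact_mod_cast card_pos.2 ⟨a, ha⟩
    unfold mean
    rw [mul_div_cancel₀ _ hcp.ne']
  -- normalisation
  have hVN : 0 < N * Vv w := mul_pos hNp hV
  set s : ℝ := S N / (N * Vv w) with hs
  have hs2 : s = ((kap w N).card : ℝ) / (N * Vv w) * mean w N (Fp w N) := by
    rw [hs, hSN]
    ring
  have hs3 : |s - 1| ≤ 3 * d := by
    rw [hs2]
    set a : ℝ := ((kap w N).card : ℝ) / (N * Vv w)
    set m : ℝ := mean w N (Fp w N)
    rw [abs_le] at hm hc ⊢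
    constructor <;> nlinarith
  set z : ℝ := Wn w * T / N with hz
  have hz1 : z ≤ 1 := by
    rw [hz, div_le_one hNp]
    exact_mod_cast hWT
  have hz2 : 1 - d ≤ z := by
    have h3 : (N : ℝ) ≤ Wn w * T + Wn w := by
      have h5 := Nat.div_add_mod N (Wn w)
      have h6 := Nat.mod_lt N hW
      exact_mod_cast (by rw [← hTd] at h5; omega : N ≤ Wn w * T + Wn w)
    rw [hz, le_div_iff₀ hNp]
    rw [div_le_iff₀ hNp] at hl2
    linarith
  have hu : Wn w * Real.log N / (N * Vv w) ≤ d := by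
    refine le_trans (le_of_eq ?_) hl1
    rw [Real.rpow_neg hNp.le, Real.rpow_one, pow_one]
    field_simp
  have hEz : E0 * z = S (Wn w * T) / (N * Vv w) := by
    rw [← hE0S, hz]
    field_simp
  have hE1 : E0 * z ≤ s := by
    rw [hEz, hs]
    exact div_le_div_of_nonneg_right hS1 hVN.le
  have hE2 : s - d ≤ E0 * z := by
    rw [hEz, hs]
    have : S N / (N * Vv w) ≤ (S (Wn w * T) + Wn w * Real.log N) / (N * Vv w) := div_le_div_of_nonneg_right hS2 hVN.le
    rw [add_div] at this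
    linarith
  have hE00 : 0 ≤ E0 := expect_nonneg fun c _ => expect_nonneg fun t _ => Fp_nonneg _ _ _
  have h3 : |E0 - 1| ≤ 6 * d := by
    rw [abs_le] at hs3 ⊢
    have hE3 : E0 ≤ 2 := by
      by_contra hcon
      push Not at hcon
      nlinarith
    constructor <;> nlinarith
  have h4 := abs_sub_le (𝔼 c : kap w (Wn w), 𝔼 t : Fin T, Fp w N ((c : ℕ) + Wn w * (o + t))) E0 1
  linarith

end Pool.Agent.NH16.BT.MN
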