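import Pool.Agent.NH16.BT.Stm

set_option autoImplicit false
set_option linter.unusedSectionVars false
set_option linter.unusedVariables false

/-!
# Consequences of the pseudorandomness, general index set (job BT2)
-/

namespace Pool.Agent.NH16.BT.PSG

open Finset Filter
open scoped BigOperators
open Pool.Agent.NH16.DL
open Pool.Agent.NH16.BT

section
variable {ρ κ : Type} [Fintype ρ] [Nonempty ρ] [DecidableEq ρ] [Fintype κ] [Nonempty κ]
  {ν : ρ → κ → ℝ}

/-- a tuple that is not injective has a coincidence -/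
lemma le_coinc' {m : ℕ} (r : Fin (m + 1) → ρ) {X Y : ℝ} (hY : 0 ≤ Y) (hX0 : 0 ≤ X)
    (hX : Function.Injective r → Y ≤ X) :
    Y ≤ X + ∑ i, ∑ k : Fin m, (if r i = r (i.succAbove k) then Y else 0) := by
  by_cases h : Function.Injective r
  · have : 0 ≤ ∑ i, ∑ k : Fin m, (if r i = r (i.succAbove k) then Y else 0) :=
      sum_nonneg fun i _ => sum_nonneg fun k _ => by split_ifs; exacts [hY, le_rfl]
    linarith [hX h]
  · unfold Function.Injective at h
    push Not at h
    obtain ⟨i, j, hij, hne⟩ := h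
    obtain ⟨k, rfl⟩ := Fin.exists_succAbove_eq (Ne.symm hne)
    have h1 : Y ≤ ∑ k' : Fin m, (if r i = r (i.succAbove k') then Y else 0) := by
      refine le_trans (le_of_eq ?_) (single_le_sum
        (f := fun k' : Fin m => if r i = r (i.succAbove k') then Y else 0)
        (fun k' _ => by split_ifs; exacts [hY, le_rfl]) (mem_univ k))
      rw [if_pos hij]
    have h2 : ∑ k' : Fin m, (if r i = r (i.succAbove k') then Y else 0) ≤
        ∑ i, ∑ k' : Fin m, (if r i = r (i.succAbove k') then Y else 0) :=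
      single_le_sum (f := fun i => ∑ k' : Fin m, (if r i = r (i.succAbove k') then Y else 0))
        (fun i' _ => sum_nonneg fun k' _ => by split_ifs; exacts [hY, le_rfl]) (mem_univ i)
    linarith

lemma one_le_BX (m : ℕ) : 1 ≤ BX m := by
  induction m with
  | zero => exact le_rfl
  | succ m ih =>
    rw [BX]
    have : (0 : ℝ) ≤ ((m : ℝ) + 1) * m * BX m := by positivity
    linarith

/-- the mean value of a product -/
noncomputable def EX (ν : ρ → κ → ℝ) {m : ℕ} (a : Fin m → Bool) (r : Fin m → ρ) : ℝ :=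
  𝔼 q, pp ν (fun _ _ => 1) a r q

lemma EX_nonneg (h0 : ∀ s q, 0 ≤ ν s q) {m : ℕ} (a : Fin m → Bool) (r : Fin m → ρ) : 0 ≤ EX ν a r :=
  expect_nonneg fun q _ => pp_nonneg h0 (fun _ _ => zero_le_one) a r q

lemma EX_false {m : ℕ} (r : Fin m → ρ) : EX ν (fun _ => false) r = 1 := by
  unfold EX
  have : ∀ q, pp ν (fun _ _ => 1) (fun _ => false) r q = 1 := by
    intro q
    unfold pp
    simp [pt_false]
  simp only [this]
  exact Fintype.expect_const _

lemma pt_le {Λ : ℝ} (hΛ1 : 1 ≤ Λ) (hΛ : ∀ s q, ν s q ≤ Λ) (b : Bool) (s : ρ) (q : κ) :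
    pt ν (fun _ _ => 1) b s q ≤ Λ := by
  cases b
  · exact hΛ1
  · exact hΛ s q

/-- coincidences -/
lemma coincA {Λ : ℝ} (hΛ1 : 1 ≤ Λ) (h0 : ∀ s q, 0 ≤ ν s q) (hΛ : ∀ s q, ν s q ≤ Λ) {m : ℕ}
    (a : Fin (m + 1) → Bool) (i : Fin (m + 1)) (k : Fin m) {B : ℝ}
    (hB : 𝔼 u : Fin m → ρ, EX ν (fun k => a (i.succAbove k)) u ≤ B) :
    𝔼 r : Fin (m + 1) → ρ, (if r i = r (i.succAbove k) then EX ν a r else 0) ≤
      Λ / (Fintype.card ρ : ℝ) * B := by
  have hRp : (0 : ℝ) < Fintype.card ρ := by exact_mod_cast Fintype.card_pos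
  have hV : 0 < Λ := by linarith
  set a' : Fin m → Bool := fun k => a (i.succAbove k) with ha'
  rw [exp_insertNth i, exp_comm]
  have h1 : ∀ u : Fin m → ρ, 𝔼 s, (if (i.insertNth s u : Fin (m + 1) → ρ) i =
      (i.insertNth s u : Fin (m + 1) → ρ) (i.succAbove k) then
      EX ν a (i.insertNth s u : Fin (m + 1) → ρ) else 0) ≤
        Λ / (Fintype.card ρ : ℝ) * EX ν a' u := by
    intro u
    simp only [Fin.insertNth_apply_same, Fin.insertNth_apply_succAbove]
    have h2 : ∀ s, (if s = u k then EX ν a (i.insertNth s u : Fin (m + 1) → ρ) else 0) ≤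
        if s = u k then Λ * EX ν a' u else 0 := by
      intro s
      split_ifs with h
      · unfold EX
        rw [mul_expect]
        refine expect_le_expect fun q _ => ?_
        rw [pp_insert]
        exact mul_le_mul_of_nonneg_right (pt_le hΛ1 hΛ _ _ _) (pp_nonneg h0 (fun _ _ => zero_le_one) _ _ _)
      · exact le_rfl
    refine (expect_le_expect fun s _ => h2 s).trans (le_of_eq ?_)
    rw [Fintype.expect_eq_sum_div_card, sum_ite_eq', if_pos (mem_univ _)]
    ring
  refine (expect_le_expect fun u _ => h1 u).trans ?_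
  rw [← mul_expect]
  exact mul_le_mul_of_nonneg_left hB (by positivity)

/-- the sum over all coincidences -/
lemma coinc_sum {Λ lam : ℝ} (hΛ1 : 1 ≤ Λ) (h0 : ∀ s q, 0 ≤ ν s q) (hΛ : ∀ s q, ν s q ≤ Λ)
    (hlam : Λ / (Fintype.card ρ : ℝ) ≤ lam) {m : ℕ} (a : Fin (m + 1) → Bool) {B : ℝ} (hB0 : 0 ≤ B)
    (hB : ∀ a' : Fin m → Bool, (a = (fun _ => false) → a' = fun _ => false) →
      𝔼 u : Fin m → ρ, EX ν a' u ≤ B) :
    𝔼 r : Fin (m + 1) → ρ, ∑ i, ∑ k : Fin m, (if r i = r (i.succAbove k) then EX ν a r else 0) ≤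
      (m + 1) * m * (lam * B) := by
  rw [expect_sum_comm]
  calc _ ≤ ∑ _i : Fin (m + 1), ∑ _k : Fin m, lam * B := by
        refine sum_le_sum fun i _ => ?_
        rw [expect_sum_comm]
        refine sum_le_sum fun k _ => (coincA hΛ1 h0 hΛ a i k
          (hB (fun k => a (i.succAbove k)) (fun h => by rw [h]))).trans ?_
        exact mul_le_mul_of_nonneg_right hlam hB0
    _ = _ := by
        simp only [sum_const, card_univ, Fintype.card_fin, nsmul_eq_mul]
        push_cast
        ring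

theorem MB_all {D : (m : ℕ) → (Fin m → ρ) → ℝ} {Λ lam θ η X w : ℝ} {M : ℕ} (hw : 1 ≤ w)
    (hΛ1 : 1 ≤ Λ) (h0 : ∀ s q, 0 ≤ ν s q)
    (hΛ : ∀ s q, ν s q ≤ Λ) (hlam : Λ / (Fintype.card ρ : ℝ) ≤ lam) (hlam1 : lam ≤ 1)
    (hθ0 : 0 ≤ θ) (hθ : θ ≤ 1) (hη0 : 0 ≤ η) (hη : η ≤ 1) (hX1 : X ≤ 1)
    (hD1 : ∀ m ≤ M, ∀ r, 1 ≤ D m r) (hDX : ∀ m ≤ M, 𝔼 r : Fin m → ρ, (D m r - 1) ≤ X)
    (hFL : ∀ m ≤ M, ∀ (a : Fin m → Bool) (r : Fin m → ρ), Function.Injective r →
      (1 - θ) * (1 - (m : ℝ) ^ 2 / w) - η ≤ 𝔼 q, pp ν (fun _ _ => 1) a r q ∧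
      𝔼 q, pp ν (fun _ _ => 1) a r q ≤ (1 + θ) * D m r + η) :
    ∀ m ≤ M, ∀ a : Fin m → Bool, 𝔼 r : Fin m → ρ, EX ν a r ≤ BX m := by
  intro m
  induction m with
  | zero =>
    intro _ a
    have : ∀ (r : Fin 0 → ρ), EX ν a r = 1 := by
      intro r
      have e : a = fun _ => false := Subsingleton.elim _ _
      rw [e]
      exact EX_false r
    simp only [this]
    rw [Fintype.expect_const, BX]
  | succ m ih =>
    intro hm a
    have ihm := ih (by omega)
    have hB0 : 0 ≤ BX m := zero_le_one.trans (one_le_BX m)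
    have h1 : ∀ r : Fin (m + 1) → ρ, EX ν a r ≤
        (2 * (D (m + 1) r - 1) + 3) +
        ∑ i, ∑ k : Fin m, (if r i = r (i.succAbove k) then EX ν a r else 0) := by
      intro r
      have hsg := hD1 (m + 1) hm r
      refine le_coinc' r (EX_nonneg h0 a r) (by linarith) fun hinj => ?_
      have h2 := (hFL (m + 1) hm a r hinj).2
      change EX ν a r ≤ _ at h2
      nlinarith
    refine (expect_le_expect fun r _ => h1 r).trans ?_
    rw [expect_add_distrib, expect_add_distrib, ← mul_expect, Fintype.expect_const, BX]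
    have h3 : lam * BX m ≤ BX m := by nlinarith
    have h4 : (0 : ℝ) ≤ ((m : ℝ) + 1) * m := by positivity
    have h5 := (coinc_sum hΛ1 h0 hΛ hlam a hB0 (fun a' _ => ihm a'))
    have h6 : ((m : ℝ) + 1) * m * (lam * BX m) ≤ ((m : ℝ) + 1) * m * BX m :=
      mul_le_mul_of_nonneg_left h3 h4
    have h7 := hDX (m + 1) hm
    linarith

end

theorem main : S_PSg := by
  intro ρ κ _ _ _ _ _ ν D Λ lam θ η X w M hw hΛ1 h0 hΛ hlam hlam1 hθ0 hθ hη0 hη hX0 hX1 hD1 hDX hFL
  have hRp : (0 : ℝ) < Fintype.card ρ := by exact_mod_cast Fintype.card_pos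
  have hMB := MB_all hw hΛ1 h0 hΛ hlam hlam1 hθ0 hθ hη0 hη hX1 hD1 hDX hFL
  have hlam0 : 0 ≤ lam := le_trans (by positivity) hlam
  refine ⟨fun m hm a => hMB m hm a, fun m hm hm1 a => ?_, fun m hm hm1 hθη => ?_⟩
  · -- pseudorandomness
    obtain ⟨m, rfl⟩ : ∃ n, m = n + 1 := ⟨m - 1, by omega⟩
    have hB0 : 0 ≤ BX m := zero_le_one.trans (one_le_BX m)
    have h1 : ∀ r : Fin (m + 1) → ρ, |𝔼 q, pp ν (fun _ _ => 1) a r q -
        𝔼 q, pp ν (fun _ _ => 1) (fun _ => false) r q| ≤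
        ((D (m + 1) r - 1) + θ * ((D (m + 1) r - 1) + 1) + (η + ((m + 1 : ℕ) : ℝ) ^ 2 / w)) +
        (∑ i, ∑ k : Fin m, (if r i = r (i.succAbove k) then EX ν a r else 0) +
        ∑ i, ∑ k : Fin m, (if r i = r (i.succAbove k) then EX ν (fun _ => false) r else 0)) := by
      intro r
      change |EX ν a r - EX ν (fun _ => false) r| ≤ _
      have hE0 := EX_nonneg h0 a r
      have hF0 : 0 ≤ EX ν (fun _ => false) r := EX_nonneg h0 _ r
      have hsg := hD1 (m + 1) hm r
      have hmw0 : (0 : ℝ) ≤ ((m + 1 : ℕ) : ℝ) ^ 2 / w := by positivity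
      have hθsg : θ ≤ θ * ((D (m + 1) r - 1) + 1) := by nlinarith
      by_cases hinj : Function.Injective r
      · obtain ⟨h2, h3⟩ := hFL (m + 1) hm a r hinj
        change _ ≤ EX ν a r at h2
        change EX ν a r ≤ _ at h3
        have hs : 0 ≤ ∑ i, ∑ k : Fin m, (if r i = r (i.succAbove k) then EX ν a r else 0) +
            ∑ i, ∑ k : Fin m, (if r i = r (i.succAbove k) then EX ν (fun _ => false) r else 0) :=
          add_nonneg (sum_nonneg fun i _ => sum_nonneg fun k _ => by split_ifs; exacts [hE0, le_rfl])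
            (sum_nonneg fun i _ => sum_nonneg fun k _ => by split_ifs; exacts [hF0, le_rfl])
        rw [EX_false r] at *
        have h4 : |EX ν a r - 1| ≤ (D (m + 1) r - 1) + θ * ((D (m + 1) r - 1) + 1) +
            (η + ((m + 1 : ℕ) : ℝ) ^ 2 / w) := by
          rw [abs_le]
          constructor
          · nlinarith [mul_nonneg hθ0 hmw0]
          · nlinarith
        linarith
      · have k1 := le_coinc' r hE0 le_rfl (fun h => absurd h hinj)
        have k2 := le_coinc' r hF0 le_rfl (fun h => absurd h hinj)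
        refine (abs_sub _ _).trans ?_
        rw [abs_of_nonneg hE0, abs_of_nonneg hF0]
        have : 0 ≤ (D (m + 1) r - 1) + θ * ((D (m + 1) r - 1) + 1) +
            (η + ((m + 1 : ℕ) : ℝ) ^ 2 / w) := by
          linarith
        linarith
    refine (expect_le_expect fun r _ => h1 r).trans ?_
    have e1 := coinc_sum hΛ1 h0 hΛ hlam a hB0 (fun a' _ => hMB m (by omega) a')
    have e2 := coinc_sum (ν := ν) hΛ1 h0 hΛ hlam (fun _ : Fin (m + 1) => false) zero_le_one
      (fun a' h => by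
        rw [h rfl]
        simp only [EX_false]
        rw [Fintype.expect_const])
    have e3 := hDX (m + 1) hm
    obtain ⟨dd, hdd⟩ : ∃ dd : (Fin (m + 1) → ρ) → ℝ, dd = fun r => D (m + 1) r - 1 := ⟨_, rfl⟩
    have hdd' : ∀ r, D (m + 1) r - 1 = dd r := fun r => by rw [hdd]
    simp only [hdd'] at e3 ⊢
    simp only [expect_add_distrib, ← mul_expect, Fintype.expect_const]
    rw [Nat.add_sub_cancel]
    obtain ⟨d, hd⟩ : ∃ d : ℝ, d = 𝔼 r : Fin (m + 1) → ρ, dd r := ⟨_, rfl⟩
    rw [← hd] at e3 ⊢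
    have e5 : θ * (d + 1) ≤ 2 * θ := by nlinarith
    have e7 : ((m : ℝ) + 1) * m * (lam * BX m) + ((m : ℝ) + 1) * m * (lam * 1) ≤
        ((m + 1 : ℕ) : ℝ) ^ 2 * lam * (BX m + 1) := by
      have : 0 ≤ lam * (BX m + 1) := by positivity
      push_cast
      have hm0 : (0 : ℝ) ≤ m := Nat.cast_nonneg _
      nlinarith
    linarith
  · -- exceptional tuples
    obtain ⟨m, rfl⟩ : ∃ n, m = n + 1 := ⟨m - 1, by omega⟩
    have hB0 : 0 ≤ BX m := zero_le_one.trans (one_le_BX m)
    have h1 : ∀ r : Fin (m + 1) → ρ, max 0 (𝔼 q, ∏ i, ν (r i) q - 2) ≤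
        2 * (D (m + 1) r - 1) +
        ∑ i, ∑ k : Fin m, (if r i = r (i.succAbove k) then EX ν (fun _ => true) r else 0) := by
      intro r
      have e : 𝔼 q, ∏ i, ν (r i) q = EX ν (fun _ => true) r := rfl
      rw [e]
      have hE0 := EX_nonneg h0 (fun _ => true) r
      have hsg := hD1 (m + 1) hm r
      by_cases hinj : Function.Injective r
      · have h3 := (hFL (m + 1) hm (fun _ => true) r hinj).2
        change EX ν (fun _ => true) r ≤ _ at h3
        have hs : 0 ≤ ∑ i, ∑ k : Fin m, (if r i = r (i.succAbove k) then EX ν (fun _ => true) r else 0) :=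
          sum_nonneg fun i _ => sum_nonneg fun k _ => by split_ifs; exacts [hE0, le_rfl]
        refine max_le (by linarith) ?_
        nlinarith
      · have k1 := le_coinc' r hE0 le_rfl (fun h => absurd h hinj)
        refine max_le ?_ ?_
        · linarith
        · linarith
    refine (expect_le_expect fun r _ => h1 r).trans ?_
    have e1 := coinc_sum hΛ1 h0 hΛ hlam (fun _ : Fin (m + 1) => true) hB0 (fun a' _ => hMB m (by omega) a')
    have e3 := hDX (m + 1) hm
    rw [expect_add_distrib, ← mul_expect]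
    rw [Nat.add_sub_cancel]
    have e7 : ((m : ℝ) + 1) * m * (lam * BX m) ≤ ((m + 1 : ℕ) : ℝ) ^ 2 * lam * BX m := by
      have : 0 ≤ lam * BX m := by positivity
      push_cast
      have hm0 : (0 : ℝ) ≤ m := Nat.cast_nonneg _
      nlinarith
    linarith

end Pool.Agent.NH16.BT.PSG
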