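import Pool.Agent.NH16.BT.Stm
import Pool.Agent.NH16.Zft

/-!
# Parseval's identity on the cyclic group (helper2, job BT6)
-/

set_option autoImplicit false

namespace Pool.Agent.NH16.BT.PV

open Finset
open scoped BigOperators
open Pool.Agent.NH16
open Pool.Agent.Helper602.MK
open Pool.Agent.Helper602.MK.N_J5b

variable {Q : ℕ} [NeZero Q]

/-- Fourier transform -/
private noncomputable def hat (ψ : ZMod Q → ℝ) (ξ : ZMod Q) : ℂ :=
  ∑ n : ZMod Q, (ψ n : ℂ) * ch (-(n * ξ))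

private lemma planch (ψ : ZMod Q → ℝ) :
    ∑ n : ZMod Q, ψ n ^ 2 = (1 / (Q : ℝ)) * ∑ ξ : ZMod Q, ‖hat ψ ξ‖ ^ 2 := by
  have hQ : (Q : ℂ) ≠ 0 := by exact_mod_cast NeZero.ne Q
  have h1 : ∀ ξ : ZMod Q, ((‖hat ψ ξ‖ ^ 2 : ℝ) : ℂ) =
      ∑ n : ZMod Q, ∑ m : ZMod Q, (ψ n : ℂ) * (ψ m : ℂ) * ch (ξ * (m - n)) := by
    intro ξ
    unfold hat
    rw [normsq_sum]
    refine sum_congr rfl fun n _ => sum_congr rfl fun m _ => ?_
    rw [map_mul, conj_ch, Complex.conj_ofReal]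
    have : ξ * (m - n) = -(n * ξ) + - -(m * ξ) := by ring
    rw [this, ch_add]
    ring
  have h2 : ((∑ ξ : ZMod Q, ‖hat ψ ξ‖ ^ 2 : ℝ) : ℂ) = (Q : ℂ) * ((∑ n : ZMod Q, ψ n ^ 2 : ℝ) : ℂ) := by
    rw [Complex.ofReal_sum]
    simp only [h1]
    rw [sum_comm, Complex.ofReal_sum, mul_sum]
    refine sum_congr rfl fun n _ => ?_
    rw [sum_comm]
    have h3 : ∀ m : ZMod Q, ∑ ξ : ZMod Q, (ψ n : ℂ) * (ψ m : ℂ) * ch (ξ * (m - n)) =
        if n = m then (Q : ℂ) * (ψ n : ℂ) ^ 2 else 0 := by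
      intro m
      rw [← mul_sum, orth_z]
      by_cases h : n = m
      · subst h
        rw [if_pos (sub_self _), if_pos rfl]
        ring
      · rw [if_neg h, if_neg, mul_zero]
        intro h'
        exact h (sub_eq_zero.mp h').symm
    simp only [h3]
    rw [sum_ite_eq, if_pos (mem_univ _)]
    push_cast
    ring
  have h4 : (∑ ξ : ZMod Q, ‖hat ψ ξ‖ ^ 2) = (Q : ℝ) * ∑ n : ZMod Q, ψ n ^ 2 := by
    have : ((∑ ξ : ZMod Q, ‖hat ψ ξ‖ ^ 2 : ℝ) : ℂ) = (((Q : ℝ) * ∑ n : ZMod Q, ψ n ^ 2 : ℝ) : ℂ) := by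
      rw [h2]
      push_cast
      ring
    exact_mod_cast this
  have hQ' : (Q : ℝ) ≠ 0 := by exact_mod_cast NeZero.ne Q
  rw [h4]
  field_simp

private lemma hat_shift (φ : ZMod Q → ℝ) (a ξ : ZMod Q) :
    hat (fun n => φ (n + a)) ξ = ch (a * ξ) * hat φ ξ := by
  unfold hat
  rw [mul_sum]
  refine Fintype.sum_equiv (Equiv.addRight a) _ _ fun n => ?_
  rw [Equiv.coe_addRight]
  have : -(n * ξ) = a * ξ + -((n + a) * ξ) := by ring
  rw [this, ch_add]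
  ring

private lemma hat_sum {ι : Type} (s : Finset ι) (c : ι → ℝ) (ψ : ι → ZMod Q → ℝ) (ξ : ZMod Q) :
    hat (fun n => ∑ i ∈ s, c i * ψ i n) ξ = ∑ i ∈ s, (c i : ℂ) * hat (ψ i) ξ := by
  unfold hat
  simp only [mul_sum]
  rw [sum_comm]
  refine sum_congr rfl fun n _ => ?_
  push_cast
  rw [sum_mul]
  refine sum_congr rfl fun i _ => ?_
  ring

private lemma hat_smul (c : ℝ) (ψ : ZMod Q → ℝ) (ξ : ZMod Q) :
    hat (fun n => c * ψ n) ξ = (c : ℂ) * hat ψ ξ := by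
  unfold hat
  rw [mul_sum]
  refine sum_congr rfl fun n _ => ?_
  push_cast
  ring

private lemma hat_sub (ψ χ : ZMod Q → ℝ) (ξ : ZMod Q) :
    hat (fun n => ψ n - χ n) ξ = hat ψ ξ - hat χ ξ := by
  unfold hat
  rw [← sum_sub_distrib]
  refine sum_congr rfl fun n _ => ?_
  push_cast
  ring

private lemma ch_nat (a : ℕ) (ξ : ZMod Q) : ch ((a : ZMod Q) * ξ) = ee ((a : ℝ) * xx ξ) := by
  have h := ch_mul_int ξ (a : ℤ)
  rw [mul_comm, show ((a : ℕ) : ZMod Q) = ((a : ℤ) : ZMod Q) by push_cast; rfl, h]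
  congr 1
  unfold xx
  push_cast
  ring

private lemma ch_neg_val (n ξ : ZMod Q) : ch (-(n * ξ)) = ee (-((n.val : ℝ) * xx ξ)) := by
  have h := ch_mul_int ξ (-(n.val : ℤ))
  have e : ξ * ((-(n.val : ℤ) : ℤ) : ZMod Q) = -(n * ξ) := by
    push_cast
    rw [ZMod.natCast_zmod_val]
    ring
  rw [e] at h
  rw [h]
  congr 1
  unfold xx
  push_cast
  ring

private lemma sp_eq (φ : ZMod Q → ℝ) (ξ : ZMod Q) : sp φ ξ = ‖hat φ ξ‖ ^ 2 / Q := by
  unfold sp hat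
  simp only [ch_neg_val]

private lemma ee_add' (x y : ℝ) : ee (x + y) = ee x * ee y := by
  unfold ee
  rw [← Complex.exp_add]
  congr 1
  push_cast
  ring

omit [NeZero Q] in
private lemma Df_eq {L J : ℕ} (b : Fin L → ℝ) (k : ℕ → ℝ) (φ : ZMod Q → ℝ) (n : ZMod Q) :
    Df (J := J) b k φ n = (1 / (L : ℝ)) * ∑ s : Fin L, b s *
      (φ (n + ((s.val + J : ℕ) : ZMod Q)) -
        ∑ v ∈ range (2 * J + 1), k v * φ (n + ((s.val + v : ℕ) : ZMod Q))) := by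
  unfold Df
  rw [Fintype.expect_eq_sum_div_card, Fintype.card_fin]
  ring

private lemma hat_Df {L J : ℕ} (b : Fin L → ℝ) (k : ℕ → ℝ) (φ : ZMod Q → ℝ) (ξ : ZMod Q) :
    hat (Df (J := J) b k φ) ξ = (𝔼 s : Fin L, (b s : ℂ) * ee ((s.val : ℝ) * xx ξ)) *
      (ee ((J : ℝ) * xx ξ) - ∑ v ∈ range (2 * J + 1), (k v : ℂ) * ee ((v : ℝ) * xx ξ)) *
      hat φ ξ := by
  have e0 : (Df (J := J) b k φ) = fun n => (1 / (L : ℝ)) * ∑ s : Fin L, b s *
      (φ (n + ((s.val + J : ℕ) : ZMod Q)) -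
        ∑ v ∈ range (2 * J + 1), k v * φ (n + ((s.val + v : ℕ) : ZMod Q))) := by
    funext n
    exact Df_eq b k φ n
  rw [e0, hat_smul, hat_sum, Fintype.expect_eq_sum_div_card, Fintype.card_fin]
  have h1 : ∀ s : Fin L, hat (fun n => φ (n + ((s.val + J : ℕ) : ZMod Q)) -
        ∑ v ∈ range (2 * J + 1), k v * φ (n + ((s.val + v : ℕ) : ZMod Q))) ξ =
      ee ((s.val : ℝ) * xx ξ) * ((ee ((J : ℝ) * xx ξ) -
        ∑ v ∈ range (2 * J + 1), (k v : ℂ) * ee ((v : ℝ) * xx ξ)) * hat φ ξ) := by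
    intro s
    rw [hat_sub, hat_sum]
    simp only [hat_shift, ch_nat]
    have e1 : ∀ a : ℕ, ee (((s.val + a : ℕ) : ℝ) * xx ξ) =
        ee ((s.val : ℝ) * xx ξ) * ee ((a : ℝ) * xx ξ) := by
      intro a
      rw [← ee_add']
      congr 1
      push_cast
      ring
    simp only [e1]
    rw [sub_mul, mul_sub, sum_mul, mul_sum]
    congr 1
    · ring
    · refine sum_congr rfl fun v _ => ?_
      ring
  simp only [h1]
  have h2 : ∀ (X : ℂ), ∑ s : Fin L, (b s : ℂ) * (ee ((s.val : ℝ) * xx ξ) * X) =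
      (∑ s : Fin L, (b s : ℂ) * ee ((s.val : ℝ) * xx ξ)) * X := by
    intro X
    rw [sum_mul]
    refine sum_congr rfl fun s _ => ?_
    ring
  rw [h2]
  push_cast
  ring

theorem main : S_PV := by
  intro Q _ φ L J b k
  refine ⟨?_, ?_⟩
  · rw [planch, mul_sum]
    refine sum_congr rfl fun ξ _ => ?_
    rw [hat_Df, sp_eq, norm_mul, norm_mul]
    ring
  · rw [planch, mul_sum]
    refine sum_congr rfl fun ξ _ => ?_
    rw [sp_eq]
    ring

end Pool.Agent.NH16.BT.PV
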