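import Pool.Agent.NH16.BT.Stm
import Pool.Agent.NH16.SM.SS
import Pool.Agent.H386R2.HL.B

set_option autoImplicit false

/-!
# Task BT11: the singular series and the primes up to `w` (helper56)
-/

namespace Pool.Agent.NH16.BT.SG

open Finset Filter Topology
open scoped BigOperators
open Pool.Agent.NH16.DL
open Pool.Agent.NH16.SM
open Pool.Agent.H386R2.HL (nu localFactor singularSeries nu_le_r nu_le_p localFactor_nonneg
  multipliable_localFactor localFactor_le_pow mod_eq_iff_dvd_dist gg prod_one_sub_nu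
  coprime_mod_add)
open Pool.Agent.NH16.SM.SS (tendsto_PP' LF_le_one LF_le LF_ge dsc_ne)

/-- `m` classes if `p` does not divide the discriminant -/
lemma nu_big' {m : ℕ} {u : Fin m → ℕ} (hu : Function.Injective u) {p : ℕ} (hd : ¬ p ∣ dsc u) :
    nu u p = m := by
  unfold nu
  rw [card_image_of_injective]
  · simp
  intro i j hij
  simp only at hij
  by_contra hne
  rw [mod_eq_iff_dvd_dist] at hij
  apply hd
  unfold dsc
  have hne' : u i ≠ u j := fun h => hne (hu h)
  have h3 : p ∣ ed (u i) (u j) := by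
    unfold ed
    rw [if_neg hne']
    exact hij
  exact (h3.trans (dvd_prod_of_mem (fun j => ed (u i) (u j)) (mem_univ j))).trans
      (dvd_prod_of_mem (fun i => ∏ j, ed (u i) (u j)) (mem_univ i))

lemma card_adm (w : ℕ) {r : ℕ} (h : Fin r → ℕ) : (adm w h).card = gg (Wn w) h := by
  classical
  have hW := Wn_pos w
  have hiff : ∀ a, (∀ i, ∀ p ∈ PP w, ¬ p ∣ a + h i) ↔ ∀ i, Nat.Coprime (Wn w) (a + h i) := by
    intro a
    refine forall_congr' fun i => ?_
    rw [cop_iff, Nat.coprime_comm]
  unfold adm gg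
  apply card_nbij' (fun a => a % Wn w) (fun a => if a = 0 then Wn w else a)
  · intro a ha
    rw [mem_coe, mem_filter, hiff] at ha
    rw [mem_coe, mem_filter, mem_range]
    exact ⟨Nat.mod_lt _ hW, fun i => (coprime_mod_add _ _ _).mpr (ha.2 i)⟩
  · intro a ha
    rw [mem_coe, mem_filter, mem_range] at ha
    rw [mem_coe, mem_filter, hiff, mem_Icc]
    dsimp only
    split_ifs with h0
    · refine ⟨⟨hW, le_rfl⟩, fun i => ?_⟩
      rw [← coprime_mod_add, Nat.mod_self]
      have := ha.2 i
      rwa [h0] at this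
    · exact ⟨⟨by omega, ha.1.le⟩, ha.2⟩
  · intro a ha
    rw [mem_coe, mem_filter, mem_Icc] at ha
    dsimp only
    split_ifs with h0
    · obtain ⟨k, hk⟩ := Nat.dvd_of_mod_eq_zero h0
      have h1 : 1 ≤ k := by
        rcases Nat.eq_zero_or_pos k with h2 | h2
        · rw [h2, mul_zero] at hk
          omega
        · exact h2
      have h2 : k ≤ 1 := by
        by_contra h3
        have h4 : Wn w * 2 ≤ Wn w * k := Nat.mul_le_mul_left _ (by omega)
        omega
      rw [hk, le_antisymm h2 h1, mul_one]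
    · rcases Nat.lt_or_ge a (Wn w) with h1 | h1
      · exact Nat.mod_eq_of_lt h1
      · exfalso
        apply h0
        rw [le_antisymm ha.1.2 h1, Nat.mod_self]
  · intro a ha
    rw [mem_coe, mem_filter, mem_range] at ha
    dsimp only
    split_ifs with h0
    · rw [Nat.mod_self, h0]
    · exact Nat.mod_eq_of_lt ha.1

lemma small_prod (w : ℕ) {r : ℕ} (h : Fin r → ℕ) :
    ∏ p ∈ PP w, localFactor h p = (Vv w)⁻¹ ^ r * ((adm w h).card / Wn w : ℝ) := by
  unfold localFactor
  rw [prod_mul_distrib, prod_one_sub_nu h _ (fun p hp => (mem_PP.1 hp).1), prod_pow,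
    prod_inv_distrib, card_adm]
  rfl

theorem main : S_SG := by
  intro w r h hrw hinj
  classical
  have hw1 : 1 ≤ w := by omega
  set A : ℝ := ((adm w h).card / Wn w : ℝ) with hA
  have hWr : (0 : ℝ) < Wn w := by exact_mod_cast Wn_pos w
  have hA0 : 0 ≤ A := by positivity
  have hA1 : A ≤ 1 := by
    rw [hA, div_le_one hWr]
    have h1 : (adm w h).card ≤ Wn w := by
      unfold adm
      refine (card_filter_le _ _).trans ?_
      rw [Nat.card_Icc]
      omega
    exact_mod_cast h1
  have hV : 0 < (Vv w)⁻¹ ^ (r + 1) := by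
    refine pow_pos (inv_pos.mpr ?_) _
    unfold Vv
    exact prod_pos fun p hp => fac_pos (mem_PP.1 hp).1
  have hlim := tendsto_PP' (F := fun p => localFactor h p) (multipliable_localFactor h hinj).hasProd
  have hlim2 : Tendsto (fun y : ℕ => |∏ p ∈ PP y, localFactor h p - (Vv w)⁻¹ ^ (r + 1) * A|) atTop
      (𝓝 |singularSeries h - (Vv w)⁻¹ ^ (r + 1) * A|) := (hlim.sub_const _).abs
  refine le_of_tendsto hlim2 ?_
  filter_upwards [eventually_ge_atTop w] with y hwy
  have hsplit : PP y = PP w ∪ (PP y).filter (fun p => w < p) := by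
    ext p
    rw [mem_union, mem_filter, mem_PP, mem_PP]
    constructor
    · rintro ⟨h1, h2⟩
      by_cases h : p ≤ w
      · exact Or.inl ⟨h1, h⟩
      · exact Or.inr ⟨⟨h1, h2⟩, by omega⟩
    · rintro (⟨h1, h2⟩ | ⟨h1, _⟩)
      · exact ⟨h1, h2.trans hwy⟩
      · exact h1
  have hdisj : Disjoint (PP w) ((PP y).filter (fun p => w < p)) := by
    rw [disjoint_left]
    intro p hp hp'
    rw [mem_PP] at hp
    rw [mem_filter] at hp'
    omega
  set T := ∏ p ∈ (PP y).filter (fun p => w < p), localFactor h p with hT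
  have e1 : ∏ p ∈ PP y, localFactor h p = (Vv w)⁻¹ ^ (r + 1) * A * T := by
    rw [hsplit, prod_union hdisj, ← hT, small_prod]
  have hT1 : T ≤ sg w (3 ^ (r + 1)) (dsc h) := by
    calc T ≤ ∏ p ∈ (PP y).filter (fun p => w < p),
          (if p ∣ dsc h then (1 + (3 : ℝ) ^ (r + 1) / p) else 1) := by
          refine prod_le_prod (fun p hp => ?_) fun p hp => ?_
          · rw [mem_filter, mem_PP] at hp
            exact localFactor_nonneg h hp.1.1
          · rw [mem_filter, mem_PP] at hp
            split_ifs with hd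
            · exact LF_le h hp.1.1
            · exact LF_le_one h hp.1.1 (nu_big' hinj hd)
      _ = ∏ p ∈ ((PP y).filter (fun p => w < p)).filter (fun p => p ∣ dsc h),
          (1 + (3 : ℝ) ^ (r + 1) / p) := by rw [prod_filter (fun p => p ∣ dsc h)]
      _ ≤ _ := by
          unfold sg
          refine prod_le_prod_of_subset_of_one_le ?_ (fun p _ => by positivity) fun p _ _ => ?_
          · intro p hp
            rw [mem_filter, mem_filter, mem_PP] at hp
            rw [mem_filter, Nat.mem_primeFactors]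
            exact ⟨⟨hp.1.1.1, hp.2, dsc_ne h⟩, hp.1.2⟩
          · have : (0 : ℝ) ≤ 3 ^ (r + 1) / p := by positivity
            linarith
  have hT2 : 1 - ((r : ℝ) + 1) ^ 2 / w ≤ T := by
    have h1 : ∀ p ∈ (PP y).filter (fun p => w < p), ((r : ℝ) + 1) ^ 2 * (1 / (p : ℝ) ^ 2) ≤ 1 := by
      intro p hp
      rw [mem_filter, mem_PP] at hp
      have hp0 : (0 : ℝ) < p := by exact_mod_cast hp.1.1.pos
      rw [mul_one_div, div_le_one (by positivity)]
      refine pow_le_pow_left₀ (by positivity) ?_ 2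
      exact_mod_cast hrw.trans hp.2.le
    calc 1 - ((r : ℝ) + 1) ^ 2 / w ≤
          1 - ∑ p ∈ (PP y).filter (fun p => w < p), ((r : ℝ) + 1) ^ 2 * (1 / (p : ℝ) ^ 2) := by
          rw [← mul_sum]
          have h2 : ∑ p ∈ (PP y).filter (fun p => w < p), (1 : ℝ) / (p : ℝ) ^ 2 ≤ 1 / w := by
            refine (sum_le_sum_of_subset_of_nonneg ?_ fun p _ _ => by positivity).trans
              (tele w y hw1)
            intro p hp
            rw [mem_filter, mem_PP] at hp
            rw [mem_Ioc]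
            exact ⟨hp.2, hp.1.2⟩
          have h3 := mul_le_mul_of_nonneg_left h2 (sq_nonneg ((r : ℝ) + 1))
          have e : ((r : ℝ) + 1) ^ 2 / w = ((r : ℝ) + 1) ^ 2 * (1 / w) := by ring
          rw [e]
          linarith
      _ ≤ ∏ p ∈ (PP y).filter (fun p => w < p), (1 - ((r : ℝ) + 1) ^ 2 * (1 / (p : ℝ) ^ 2)) :=
          one_sub_sum_le' _ _ (fun p _ => by positivity) h1
      _ ≤ T := prod_le_prod (fun p hp => by linarith [h1 p hp]) fun p hp => by
          rw [mem_filter, mem_PP] at hp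
          have h5 := LF_ge h hp.1.1 (hrw.trans hp.2.le)
          push_cast at h5
          exact h5
  have hs1 : 1 ≤ sg w (3 ^ (r + 1)) (dsc h) := sg_one_le (by positivity) _
  have hw0 : (0 : ℝ) ≤ ((r : ℝ) + 1) ^ 2 / w := by positivity
  have hTabs : |T - 1| ≤ (sg w (3 ^ (r + 1)) (dsc h) - 1) + ((r : ℝ) + 1) ^ 2 / w := by
    rw [abs_le]
    constructor <;> linarith
  have e2 : (Vv w)⁻¹ ^ (r + 1) * A * T - (Vv w)⁻¹ ^ (r + 1) * A =
      (Vv w)⁻¹ ^ (r + 1) * (A * (T - 1)) := by ring
  rw [e1, e2, abs_mul, abs_of_pos hV, abs_mul, abs_of_nonneg hA0]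
  refine mul_le_mul_of_nonneg_left ?_ hV.le
  calc A * |T - 1| ≤ 1 * |T - 1| := mul_le_mul_of_nonneg_right hA1 (abs_nonneg _)
    _ = |T - 1| := one_mul _
    _ ≤ _ := hTabs

end Pool.Agent.NH16.BT.SG
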