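import Pool.Agent.NH16.BT.Stm
import Pool.Agent.NH16.SM.WIN

set_option autoImplicit false

/-!
# BT7: transfer of quadratic forms to the dense model (S_TW)
-/

namespace Pool.Agent.NH16.BT.TW

open Finset
open scoped BigOperators
open Pool.Agent.NH16.DL Pool.Agent.NH16.SM
open Pool.Agent.NH16.SM.WIN (Aw transfer cast_inj sum_D)

variable {Q : ℕ} [NeZero Q]

/-- the kernel -/
noncomputable def ck {L' J : ℕ} (b : Fin L' → ℝ) (k : ℕ → ℝ) (z : ZMod Q) : ℝ :=
  𝔼 s : Fin L', b s * ((if z = ((s.val + J : ℕ) : ZMod Q) then 1 else 0) -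
    ∑ v ∈ range (2 * J + 1), k v * (if z = ((s.val + v : ℕ) : ZMod Q) then 1 else 0))

lemma Aw_ck {L' J : ℕ} (b : Fin L' → ℝ) (k : ℕ → ℝ) (φ : ZMod Q → ℝ) (n : ZMod Q) :
    Aw (ck (J := J) b k) φ n = Df (J := J) b k φ n := by
  have e1 : ∀ a : ZMod Q, ∑ z, (if z = a then (1 : ℝ) else 0) * φ (n + z) = φ (n + a) := by
    intro a
    simp
  unfold Aw ck Df
  simp only [Finset.expect_mul]
  rw [← Finset.expect_sum_comm]
  refine Finset.expect_congr rfl fun s _ => ?_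
  have e2 : ∀ z : ZMod Q, b s * ((if z = ((s.val + J : ℕ) : ZMod Q) then (1 : ℝ) else 0) -
      ∑ v ∈ range (2 * J + 1), k v * (if z = ((s.val + v : ℕ) : ZMod Q) then 1 else 0)) *
        φ (n + z) = b s * ((if z = ((s.val + J : ℕ) : ZMod Q) then (1 : ℝ) else 0) * φ (n + z)) -
      b s * ∑ v ∈ range (2 * J + 1), k v * ((if z = ((s.val + v : ℕ) : ZMod Q) then 1 else 0) *
        φ (n + z)) := by
    intro z
    rw [mul_assoc, sub_mul, mul_sub, Finset.sum_mul]
    congr 2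
    refine Finset.sum_congr rfl fun v _ => ?_
    ring
  simp only [e2]
  rw [Finset.sum_sub_distrib, ← Finset.mul_sum, ← Finset.mul_sum, e1, Finset.sum_comm, mul_sub]
  congr 2
  refine Finset.sum_congr rfl fun v _ => ?_
  rw [← Finset.mul_sum, e1]

/-- at most one index represents a class -/
lemma one_le {L' : ℕ} (hL : L' ≤ Q) (c : ℕ) (z : ZMod Q) :
    ∑ s : Fin L', (if z = ((s.val + c : ℕ) : ZMod Q) then (1 : ℝ) else 0) ≤ 1 := by
  by_cases hex : ∃ s0 : Fin L', z = ((s0.val + c : ℕ) : ZMod Q)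
  · obtain ⟨s0, hz⟩ := hex
    rw [Finset.sum_eq_single s0]
    · rw [if_pos hz]
    · intro s _ hne
      rw [if_neg]
      intro hz'
      apply hne
      have e := hz'.symm.trans hz
      push_cast at e
      have e1 : ((s.val : ℕ) : ZMod Q) = ((s0.val : ℕ) : ZMod Q) := add_right_cancel e
      exact Fin.ext (cast_inj (lt_of_lt_of_le s.2 hL) (lt_of_lt_of_le s0.2 hL) e1)
    · intro h; exact absurd (mem_univ _) h
  · push Not at hex
    rw [Finset.sum_eq_zero]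
    · norm_num
    · intro s _
      rw [if_neg (hex s)]

omit [NeZero Q] in
lemma ck_abs {L' J : ℕ} {b : Fin L' → ℝ} {k : ℕ → ℝ} (hb : ∀ s, |b s| ≤ 1) (hk : ∀ v, 0 ≤ k v)
    (z : ZMod Q) : |ck (J := J) b k z| ≤ (1 / (L' : ℝ)) * (∑ s : Fin L',
      (if z = ((s.val + J : ℕ) : ZMod Q) then (1 : ℝ) else 0) +
      ∑ v ∈ range (2 * J + 1), k v * ∑ s : Fin L',
        (if z = ((s.val + v : ℕ) : ZMod Q) then (1 : ℝ) else 0)) := by
  unfold ck
  rw [Fintype.expect_eq_sum_div_card, Fintype.card_fin, abs_div, Nat.abs_cast, div_eq_inv_mul,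
    ← one_div]
  refine mul_le_mul_of_nonneg_left ?_ (by positivity)
  refine (Finset.abs_sum_le_sum_abs _ _).trans ?_
  have h1 : ∀ s : Fin L', |b s * ((if z = ((s.val + J : ℕ) : ZMod Q) then (1 : ℝ) else 0) -
      ∑ v ∈ range (2 * J + 1), k v * (if z = ((s.val + v : ℕ) : ZMod Q) then 1 else 0))| ≤
      (if z = ((s.val + J : ℕ) : ZMod Q) then (1 : ℝ) else 0) +
      ∑ v ∈ range (2 * J + 1), k v * (if z = ((s.val + v : ℕ) : ZMod Q) then 1 else 0) := by
    intro s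
    have p1 : (0 : ℝ) ≤ (if z = ((s.val + J : ℕ) : ZMod Q) then (1 : ℝ) else 0) := by
      split_ifs <;> norm_num
    have p2 : (0 : ℝ) ≤ ∑ v ∈ range (2 * J + 1), k v *
        (if z = ((s.val + v : ℕ) : ZMod Q) then 1 else 0) :=
      Finset.sum_nonneg fun v _ => mul_nonneg (hk v) (by split_ifs <;> norm_num)
    rw [abs_mul]
    refine (mul_le_of_le_one_left (abs_nonneg _) (hb s)).trans ?_
    refine (abs_sub _ _).trans ?_
    rw [abs_of_nonneg p1, abs_of_nonneg p2]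
  refine (Finset.sum_le_sum fun s _ => h1 s).trans_eq ?_
  rw [Finset.sum_add_distrib, Finset.sum_comm]
  congr 1
  refine Finset.sum_congr rfl fun v _ => ?_
  rw [Finset.mul_sum]

lemma ck_le {L' J : ℕ} (hL' : 1 ≤ L') (hLQ : L' ≤ Q) {b : Fin L' → ℝ} {k : ℕ → ℝ}
    (hb : ∀ s, |b s| ≤ 1) (hk : ∀ v, 0 ≤ k v) (hk1 : ∑ v ∈ range (2 * J + 1), k v = 1)
    (z : ZMod Q) : |ck (J := J) b k z| ≤ 2 / (L' : ℝ) := by
  refine (ck_abs hb hk z).trans ?_
  have h1 := one_le hLQ J z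
  have h2 : ∑ v ∈ range (2 * J + 1), k v * ∑ s : Fin L',
        (if z = ((s.val + v : ℕ) : ZMod Q) then (1 : ℝ) else 0) ≤ 1 := by
    refine le_trans ?_ hk1.le
    exact Finset.sum_le_sum fun v _ => mul_le_of_le_one_right (hk v) (one_le hLQ v z)
  have hp : (0 : ℝ) < L' := by exact_mod_cast hL'
  calc (1 / (L' : ℝ)) * (_ + _) ≤ (1 / (L' : ℝ)) * (1 + 1) :=
        mul_le_mul_of_nonneg_left (add_le_add h1 h2) (by positivity)
    _ = 2 / (L' : ℝ) := by ring

lemma ck_sum {L' J : ℕ} (hL' : 1 ≤ L') {b : Fin L' → ℝ} {k : ℕ → ℝ}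
    (hb : ∀ s, |b s| ≤ 1) (hk : ∀ v, 0 ≤ k v) (hk1 : ∑ v ∈ range (2 * J + 1), k v = 1) :
    ∑ z : ZMod Q, |ck (J := J) b k z| ≤ 2 := by
  have hp : (0 : ℝ) < L' := by exact_mod_cast hL'
  refine (Finset.sum_le_sum fun z _ => ck_abs hb hk z).trans ?_
  have e0 : ∀ c : ℕ, ∑ z : ZMod Q, ∑ s : Fin L',
      (if z = ((s.val + c : ℕ) : ZMod Q) then (1 : ℝ) else 0) = L' := by
    intro c
    rw [Finset.sum_comm]
    simp
  rw [← Finset.mul_sum, Finset.sum_add_distrib, e0, Finset.sum_comm]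
  simp only [← Finset.mul_sum, e0]
  rw [← Finset.sum_mul, hk1, one_mul]
  have : 1 / (L' : ℝ) * (L' + L') = 2 := by field_simp; norm_num
  rw [this]

variable {κt : Type} [Fintype κt] [Nonempty κt]

omit [Nonempty κt] in
/-- the window terms are terms of the cyclic group -/
lemma window {L L' J : ℕ} (hLQ : L ≤ Q) (b : Fin L' → ℝ) (k : ℕ → ℝ) (f : ℕ → κt → ℝ) :
    ∑ u ∈ range (L - L' - 2 * J), 𝔼 t, (𝔼 s : Fin L', b s * (f (u + s.val + J) t -
      ∑ v ∈ range (2 * J + 1), k v * f (u + s.val + v) t)) ^ 2 ≤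
    ∑ n : ZMod Q, 𝔼 t, Aw (ck (J := J) b k) (ext Q L f t) n ^ 2 := by
  have h1 : ∀ u ∈ range (L - L' - 2 * J), 𝔼 t, (𝔼 s : Fin L', b s * (f (u + s.val + J) t -
      ∑ v ∈ range (2 * J + 1), k v * f (u + s.val + v) t)) ^ 2 =
      𝔼 t, Aw (ck (J := J) b k) (ext Q L f t) (u : ZMod Q) ^ 2 := by
    intro u hu
    rw [mem_range] at hu
    refine Finset.expect_congr rfl fun t _ => ?_
    rw [Aw_ck]
    unfold Df
    congr 1
    refine Finset.expect_congr rfl fun s _ => ?_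
    have hs := s.2
    have e : ∀ v ≤ 2 * J, ext Q L f t ((u : ZMod Q) + ((s.val + v : ℕ) : ZMod Q)) =
        f (u + s.val + v) t := by
      intro v hv
      rw [← Nat.cast_add, ← add_assoc]
      unfold Pool.Agent.NH16.SM.ext
      rw [ZMod.val_natCast_of_lt (by omega), if_pos (by omega)]
    rw [e J (by omega)]
    congr 2
    refine Finset.sum_congr rfl fun v hv => ?_
    rw [e v (by rw [mem_range] at hv; omega)]
  rw [Finset.sum_congr rfl h1]
  have hinj : Set.InjOn (fun u : ℕ => (u : ZMod Q)) (range (L - L' - 2 * J) : Finset ℕ) := by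
    intro u hu u' hu' e
    rw [Finset.coe_range, Set.mem_Iio] at hu hu'
    exact cast_inj (by omega) (by omega) e
  rw [← Finset.sum_image
    (f := fun n : ZMod Q => 𝔼 t, Aw (ck (J := J) b k) (ext Q L f t) n ^ 2) hinj]
  refine Finset.sum_le_sum_of_subset_of_nonneg (Finset.subset_univ _) fun n _ _ => ?_
  exact Finset.expect_nonneg fun q _ => sq_nonneg _

theorem main : S_TW := by
  intro κt _ _ Q _ L L' J b k f f' hL hL' hLQ hLQ' hb hk hk1
  have hLp : (0 : ℝ) < L := by exact_mod_cast hL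
  have h1 := window (J := J) hLQ b k f
  have h2 := transfer (ck (Q := Q) (J := J) b k) (fun t => ext Q L f t) (fun t => ext Q L f' t)
    (ck_le hL' hLQ' hb hk hk1) (ck_sum hL' hb hk hk1)
  rw [sum_D hLQ] at h2
  have h3 := h1.trans h2
  simp only [Aw_ck] at h3
  calc (1 / (L : ℝ)) * ∑ u ∈ range (L - L' - 2 * J), 𝔼 t,
        (𝔼 s : Fin L', b s * (f (u + s.val + J) t -
        ∑ v ∈ range (2 * J + 1), k v * f (u + s.val + v) t)) ^ 2
      ≤ (1 / (L : ℝ)) * _ := mul_le_mul_of_nonneg_left h3 (by positivity)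
    _ = _ := by ring

end Pool.Agent.NH16.BT.TW
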