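import Pool.Agent.NH16.BT.E9
import Pool.Agent.NH16.BT.FLI
import Pool.Agent.NH16.BT.PSG
import Pool.Agent.NH16.BT.HA
import Pool.Agent.NH16.BT.BW
import Pool.Agent.NH16.BT.PV
import Pool.Agent.NH16.BT.TW
import Pool.Agent.NH16.BT.CI
import Pool.Agent.NH16.BT.CT
import Pool.Agent.NH16.BT.SG
import Pool.Agent.NH16.BT.PO
import Pool.Agent.NH16.BT.MN
import Pool.Agent.NH16.SM.Main

set_option autoImplicit false

/-!
# Boundedly many types of shifts: assembly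
-/

namespace Pool.Agent.NH16.BT.Main

open Finset Filter
open Pool.Agent.NH16.DL Pool.Agent.NH16.SM
open Pool.Agent.H386R2.HL (singularSeries)

theorem main (R : ℕ) : ∃ Cs : ℝ, 0 ≤ Cs ∧ ∀ δ : ℝ, 0 < δ → ∃ (w K : ℕ) (b : ℝ), 1 ≤ K ∧ Wn w ≤ K ∧
      ∀ ε : ℝ, 0 < ε → ∀ᶠ N : ℕ in atTop, ∀ H : ℕ, b * Real.log N ≤ H → (H : ℝ) ≤ (N : ℝ) ^ (1 - ε) →
      ∃ (T : ℕ) (α : Fin K → ℝ) (X : ℕ × ℕ × (Fin K → ℕ) → ℕ → Fin T → ℝ), 1 ≤ T ∧ (∀ c a t, 0 ≤ X c a t) ∧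
        (∀ h ∈ Icc 1 H, |fac (m := Wn w) (H := H) w α X (fun _ : Fin 1 => h) - 1| ≤ δ) ∧
        ∀ r ≤ R, (∀ h : Fin (r + 1) → ℕ, (∀ i, h i ∈ Icc 1 H) → fac (m := Wn w) (H := H) w α X h ≤ Cs) ∧
          (∀ h : Fin (r + 1) → ℕ, (∀ i, h i ∈ Icc 1 H) →
            (∀ i j, ty K (Wn w) H α (h i) = ty K (Wn w) H α (h j)) →
            1 - δ ≤ fac (m := Wn w) (H := H) w α X h) ∧
          (((Fintype.piFinset (fun _ : Fin (r + 1) => Icc 1 H)).filter (fun h =>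
            δ * (N / Real.log N ^ (r + 1)) < |(pT h N : ℝ) -
              fac (m := Wn w) (H := H) w α X h * singularSeries h * (N / Real.log N ^ (r + 1))|)).card : ℝ) ≤
            δ * (H : ℝ) ^ (r + 1) := by
  have hDM : S_DM := Pool.Agent.NH16.SM.DM.main Pool.Agent.NH16.SM.EN.main Pool.Agent.NH16.SM.WR.main
    Pool.Agent.NH16.SM.MO.main
  have hPO : S_PO := PO.main
  obtain ⟨C, hC, hLI⟩ := LI_ev FLI.main Pool.Agent.NH16.SM.FP.main1 (2 * R + 6)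
  have hD : DenseB C := fun δ hδ => denseB hDM Pool.Agent.NH16.SM.PS.main1 Pool.Agent.NH16.SM.PS.main2
    (M := 2 * R + 6) (by omega) hC hLI hδ
  have hCI : S_CI := CI.main HA.main BW.main PV.main TW.main
  have hCls : ClsHyp := fun ε hε => cls hCI hD hε
  have hCore : CoreHyp R C := coreB hCls Pool.Agent.NH16.SM.PS.main1 PSG.main hPO MN.main2 MN.main3 MN.main1 hC hLI
  exact finalB CT.main SG.main MN.main2 hPO hC hLI hCore

end Pool.Agent.NH16.BT.Main
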