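import Pool.Agent.NH16.SM.C8

set_option autoImplicit false

/-!
# Project BT (helper16): boundedly many types of shifts for prime tuples.  Definitions and statements.
-/

namespace Pool.Agent.NH16.BT

open Finset Filter
open scoped BigOperators
open Pool.Agent.NH16.DL Pool.Agent.NH16.SM
open Pool.Agent.Helper602.MK (ee)
open Pool.Agent.H386R2.HL (singularSeries)

/-! ### the majorant along progressions with difference `Wn w` -/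

/-- BT1: the correlations of the majorant along `t ↦ u + Wn w * t`, `t < N / Wn w` -/
def S_FLI : Prop := ∀ M : ℕ, ∃ C : ℕ, 1 ≤ C ∧ ∀ b : ℕ, C ≤ b → ∀ η : ℝ, 0 < η → ∀ w : ℕ, 1 ≤ w →
  ∀ᶠ N : ℕ in atTop, ∀ m ≤ M, ∀ (a : Fin m → Bool) (u : Fin m → ℕ) (D : ℕ), D ≠ 0 →
    (∀ p : ℕ, p.Prime → w < p → ∀ i j, i ≠ j → p ∣ Nat.dist (u i) (u j) → p ∣ D) →
    (1 - 4 * (1 / 2 : ℝ) ^ b) * (1 - (m : ℝ) ^ 2 / w) - η ≤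
      𝔼 t : Fin (N / Wn w), ∏ i, (if a i = true then gy w (yx C b N) (u i + Wn w * t) else 1) ∧
    𝔼 t : Fin (N / Wn w), ∏ i, (if a i = true then gy w (yx C b N) (u i + Wn w * t) else 1) ≤
      (1 + 4 * (1 / 2 : ℝ) ^ b) * sg w (3 ^ m) D + η

/-- the moments -/
noncomputable def BX : ℕ → ℝ
  | 0 => 1
  | m + 1 => 5 + (m + 1) * m * BX m

/-- BT2: consequences of pseudorandomness, for a general index set -/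
def S_PSg : Prop := ∀ (ρ κ : Type) [Fintype ρ] [Nonempty ρ] [DecidableEq ρ] [Fintype κ] [Nonempty κ]
  (ν : ρ → κ → ℝ) (D : (m : ℕ) → (Fin m → ρ) → ℝ) (Λ lam θ η X w : ℝ) (M : ℕ), 1 ≤ w → 1 ≤ Λ →
  (∀ s q, 0 ≤ ν s q) → (∀ s q, ν s q ≤ Λ) → Λ / (Fintype.card ρ : ℝ) ≤ lam → lam ≤ 1 →
  0 ≤ θ → θ ≤ 1 → 0 ≤ η → η ≤ 1 → 0 ≤ X → X ≤ 1 →
  (∀ m ≤ M, ∀ r, 1 ≤ D m r) → (∀ m ≤ M, 𝔼 r : Fin m → ρ, (D m r - 1) ≤ X) →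
  (∀ m ≤ M, ∀ (a : Fin m → Bool) (r : Fin m → ρ), Function.Injective r →
    (1 - θ) * (1 - (m : ℝ) ^ 2 / w) - η ≤ 𝔼 q, pp ν (fun _ _ => 1) a r q ∧
    𝔼 q, pp ν (fun _ _ => 1) a r q ≤ (1 + θ) * D m r + η) →
  (∀ m ≤ M, MB ν (fun _ _ => 1) (BX m) m) ∧
  (∀ m ≤ M, 1 ≤ m → PR ν (fun _ _ => 1) (X + 2 * θ + η + (m : ℝ) ^ 2 / w + (m : ℝ) ^ 2 * lam * (BX (m - 1) + 1)) m) ∧
  (∀ m ≤ M, 1 ≤ m → θ + η ≤ 1 →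
    𝔼 r : Fin m → ρ, max 0 (𝔼 q, ∏ i, ν (r i) q - 2) ≤ 2 * X + (m : ℝ) ^ 2 * lam * BX (m - 1))

/-! ### heavy arcs and Bohr sets -/

/-- the distance to the nearest integer -/
noncomputable def nrm (x : ℝ) : ℝ := |x - round x|

/-- BT4: outside few heavy arcs of length `1 / L` the Fourier coefficients of bounded functions on
`{0, ..., L - 1}` have a small mean square with respect to a measure -/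
def S_HA : Prop := ∀ (Ξ : Type) [Fintype Ξ] (x E : Ξ → ℝ) (A τ : ℝ) (L : ℕ), 1 ≤ L → 0 < τ → 0 ≤ A →
  (∀ ξ, 0 ≤ E ξ) → ∑ ξ, E ξ ≤ A →
  ∃ S : Finset Ξ, (S.card : ℝ) ≤ A / τ ∧ ∀ b : Fin L → ℝ, (∀ s, |b s| ≤ 1) → ∀ B : Finset Ξ,
    (∀ ξ ∈ B, ∀ j ∈ S, 1 / (L : ℝ) ≤ nrm (x ξ - x j)) →
    ∑ ξ ∈ B, E ξ * ‖𝔼 s : Fin L, (b s : ℂ) * ee ((s.val : ℝ) * x ξ)‖ ^ 2 ≤ Real.sqrt (6 * τ * A)

/-- BT5: smooth weights on Bohr sets -/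
def S_BW : Prop := ∀ (n : ℕ) (κ : ℝ), 0 < κ → ∃ β : ℝ, 0 < β ∧ ∀ (θ : Fin n → ℝ) (J : ℕ), 1 ≤ J →
  ∃ k : ℤ → ℝ, (∀ v, 0 ≤ k v) ∧ (∀ v, k v ≠ 0 → |v| ≤ (J : ℤ) ∧ ∀ j, nrm ((v : ℝ) * θ j) ≤ κ) ∧
    ∑ v ∈ range (2 * J + 1), k ((v : ℤ) - J) = 1 ∧ (∀ v, k v ≤ 1 / (β * (2 * J + 1))) ∧
    ∀ v d : ℤ, |k (v + d) - k v| ≤ 1 / (β * (2 * J + 1)) * (|(d : ℝ)| / J + (∑ j, nrm ((d : ℝ) * θ j)) / κ)

/-! ### Fourier analysis on windows -/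

/-- the frequency of an element of the dual group -/
noncomputable def xx {Q : ℕ} (ξ : ZMod Q) : ℝ := (ξ.val : ℝ) / Q

/-- the spectral mass -/
noncomputable def sp {Q : ℕ} [NeZero Q] (φ : ZMod Q → ℝ) (ξ : ZMod Q) : ℝ :=
  ‖∑ n : ZMod Q, (φ n : ℂ) * ee (-((n.val : ℝ) * xx ξ))‖ ^ 2 / Q

/-- the difference of `φ` and its average with the weights `k`, integrated against `b` -/
noncomputable def Df {Q L J : ℕ} (b : Fin L → ℝ) (k : ℕ → ℝ) (φ : ZMod Q → ℝ) (n : ZMod Q) : ℝ :=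
  𝔼 s : Fin L, b s * (φ (n + ((s.val + J : ℕ) : ZMod Q)) -
    ∑ v ∈ range (2 * J + 1), k v * φ (n + ((s.val + v : ℕ) : ZMod Q)))

/-- BT6: Parseval's identity -/
def S_PV : Prop := ∀ (Q : ℕ) [NeZero Q] (φ : ZMod Q → ℝ) (L J : ℕ) (b : Fin L → ℝ) (k : ℕ → ℝ),
  ∑ n : ZMod Q, Df (J := J) b k φ n ^ 2 =
    ∑ ξ : ZMod Q, sp φ ξ * (‖𝔼 s : Fin L, (b s : ℂ) * ee ((s.val : ℝ) * xx ξ)‖ ^ 2 *
      ‖ee ((J : ℝ) * xx ξ) - ∑ v ∈ range (2 * J + 1), (k v : ℂ) * ee ((v : ℝ) * xx ξ)‖ ^ 2) ∧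
  ∑ ξ : ZMod Q, sp φ ξ = ∑ n : ZMod Q, φ n ^ 2

/-- BT7: replacing a function by its dense model -/
def S_TW : Prop := ∀ (κt : Type) [Fintype κt] [Nonempty κt] (Q : ℕ) [NeZero Q] (L L' J : ℕ)
  (b : Fin L' → ℝ) (k : ℕ → ℝ) (f f' : ℕ → κt → ℝ), 1 ≤ L → 1 ≤ L' → L ≤ Q → L' ≤ Q →
  (∀ s, |b s| ≤ 1) → (∀ v, 0 ≤ k v) → ∑ v ∈ range (2 * J + 1), k v = 1 →
  (1 / (L : ℝ)) * ∑ u ∈ range (L - L' - 2 * J), 𝔼 t, (𝔼 s : Fin L', b s * (f (u + s.val + J) t -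
      ∑ v ∈ range (2 * J + 1), k v * f (u + s.val + v) t)) ^ 2 ≤
    (1 / (L : ℝ)) * ∑ n : ZMod Q, 𝔼 t, Df (J := J) b k (ext Q L f' t) n ^ 2 +
    4 / (L' : ℝ) * ((1 / (L : ℝ)) * ∑ s ∈ range L, ∑ s' ∈ range L,
        |𝔼 t, f s t * f s' t - 𝔼 t, f' s t * f' s' t|)

/-- BT8: the combination -/
def S_CI : Prop := ∀ (A ε : ℝ), 0 < A → 0 < ε → ∃ (g n : ℕ) (β κ : ℝ), 1 ≤ g ∧ 0 < β ∧ 0 < κ ∧
  ∀ (κt : Type) [Fintype κt] [Nonempty κt] (L L' J : ℕ) (f f' : ℕ → κt → ℝ), 1 ≤ L → 1 ≤ L' → 1 ≤ J →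
  g * J ≤ L' → (1 / (L : ℝ)) * ∑ s ∈ range L, 𝔼 t, f' s t ^ 2 ≤ A →
  ∃ (θ : Fin n → ℝ) (k : ℤ → ℝ), (∀ v, 0 ≤ k v) ∧ (∀ v, k v ≠ 0 → |v| ≤ (J : ℤ)) ∧
    ∑ v ∈ range (2 * J + 1), k ((v : ℤ) - J) = 1 ∧ (∀ v, k v ≤ 1 / (β * (2 * J + 1))) ∧
    (∀ v d : ℤ, |k (v + d) - k v| ≤ 1 / (β * (2 * J + 1)) * (|(d : ℝ)| / J + (∑ j, nrm ((d : ℝ) * θ j)) / κ)) ∧
    ∀ b : Fin L' → ℝ, (∀ s, |b s| ≤ 1) →
      (1 / (L : ℝ)) * ∑ u ∈ range (L - L' - 2 * J), 𝔼 t, (𝔼 s : Fin L', b s * (f (u + s.val + J) t -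
        ∑ v ∈ range (2 * J + 1), k ((v : ℤ) - J) * f (u + s.val + v) t)) ^ 2 ≤
      ε + 4 / (L' : ℝ) * ((1 / (L : ℝ)) * ∑ s ∈ range L, ∑ s' ∈ range L,
        |𝔼 t, f s t * f s' t - 𝔼 t, f' s t * f' s' t|)

/-! ### counting -/

/-- BT9: counting lemma with a model depending on the position -/
def S_CN : Prop := ∀ (ρ κ : Type) [Fintype ρ] [Nonempty ρ] [Fintype κ] [Nonempty κ] (n j : ℕ)
  (K B τ ε Mj : ℝ) (f ν Ψ : ρ → κ → ℝ), 1 ≤ K → (∀ s q, 0 ≤ f s q) → (∀ s q, f s q ≤ K * ν s q) →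
  (∀ s q, 0 ≤ ν s q) → (∀ s q, 0 ≤ Ψ s q) → 𝔼 s, 𝔼 q, Ψ s q ^ (j + 2) ≤ Mj → 0 ≤ B → 0 ≤ τ →
  MB ν (fun _ _ => 1) B n → MB ν (fun _ _ => 1) B 2 → PR ν (fun _ _ => 1) τ (n + n + 1 + 1) →
  (∀ b : ρ → ℝ, (∀ s, |b s| ≤ 1) → 𝔼 q, (𝔼 s, b s * (f s q - Ψ s q)) ^ 2 ≤ ε) →
  𝔼 r : Fin (n + 1) → ρ, |𝔼 q, ∏ i, f (r i) q - 𝔼 q, ∏ i, min (Ψ (r i) q) K| ≤
    (n + 1) * (K ^ n * Real.sqrt (B * ((2 * ε + 2 * (Mj / K ^ j)) + 8 * K ^ 2 * Real.sqrt (B * τ))))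

/-- BT10: prime tuples and averages along the residue classes -/
def S_CT : Prop := ∀ (w N r : ℕ) (h : Fin (r + 1) → ℕ), 1 ≤ N → (∀ i, 1 ≤ h i) →
  |∑ a ∈ Icc 1 (Wn w), ∑ t ∈ range (N / Wn w), ∏ i, Fp w N (a + h i + Wn w * t) -
      (Vv w * Real.log N) ^ (r + 1) * pT h N| ≤
    (Vv w * Real.log N) ^ (r + 1) * (Real.sqrt N + 1 + Wn w)

/-- the residues `a` such that all `a + h i` are prime to `Wn w` -/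
def adm (w : ℕ) {r : ℕ} (h : Fin r → ℕ) : Finset ℕ := (Icc 1 (Wn w)).filter (fun a => ∀ i, ∀ p ∈ PP w, ¬ p ∣ a + h i)

/-- BT11: the singular series -/
def S_SG : Prop := ∀ (w r : ℕ) (h : Fin (r + 1) → ℕ), r + 1 ≤ w → Function.Injective h →
  |singularSeries h - (Vv w)⁻¹ ^ (r + 1) * ((adm w h).card / Wn w : ℝ)| ≤
    (Vv w)⁻¹ ^ (r + 1) * ((sg w (3 ^ (r + 1)) (dsc h) - 1) + ((r : ℝ) + 1) ^ 2 / w)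

/-- BT12: small parameters -/
def S_XV : Prop := ∀ m : ℕ, Tendsto (fun w : ℕ => (Vv w)⁻¹ ^ m * XA m w) atTop (nhds 0) ∧
  Tendsto (fun w : ℕ => (Vv w)⁻¹ ^ m * ((m : ℝ) ^ 2 / w)) atTop (nhds 0)

/-- the position with the residue class `c` and the index `s` -/
def po {w L : ℕ} (z : kap w (Wn w) × Fin L) : ℕ := (z.1 : ℕ) + Wn w * z.2.val

/-- BT13: averages over the positions prime to `Wn w` -/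
def S_PO : Prop := (∀ w : ℕ, ((kap w (Wn w)).card : ℝ) = Vv w * Wn w) ∧
  (∀ w L : ℕ, Function.Injective (po (w := w) (L := L))) ∧
  (∀ (w L m : ℕ), 1 ≤ w → 1 ≤ L →
    𝔼 r : Fin m → kap w (Wn w) × Fin L, (sg w (3 ^ m) (dsc (fun i => po (r i))) - 1) ≤ (Vv w)⁻¹ ^ m * XA m w) ∧
  (∀ w L n : ℕ, 1 ≤ n → n ≤ Wn w * L → (∀ p ∈ PP w, ¬ p ∣ n) → ∃ z : kap w (Wn w) × Fin L, po z = n) ∧
  ∀ (w L H r : ℕ) (φ : (Fin r → kap w (Wn w) × Fin L) → ℝ), (∀ z, 0 ≤ φ z) → H + Wn w ≤ Wn w * L →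
    ∑ h ∈ Fintype.piFinset (fun _ : Fin r => Icc 1 H), ∑ a ∈ Icc 1 (Wn w),
      ∑ z ∈ univ.filter (fun z : Fin r → kap w (Wn w) × Fin L => ∀ i, po (z i) = a + h i), φ z ≤
    Wn w * ∑ z, φ z

/-- BT14: the mean value of the primes over the residue classes -/
def S_MN : Prop := ∀ (w l : ℕ) (δ ε : ℝ), 0 < δ → 0 < ε → ∀ᶠ N : ℕ in atTop, ∀ o : ℕ,
  (o : ℝ) ≤ l * (N : ℝ) ^ (1 - ε) →
  |𝔼 c : kap w (Wn w), 𝔼 t : Fin (N / Wn w), Fp w N ((c : ℕ) + Wn w * (o + t)) - 1| ≤ δ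

end Pool.Agent.NH16.BT
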